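import Pool.Agent.KLog.Defs

/-! KL7: a block is unknotted independently of the halves. -/

set_option autoImplicit false

open Pool.Agent.LK

namespace Pool.Agent.KLog

open Pool.Agent.KTube Pool.Agent.KRing
open Pool.Agent.LatticeTube (pedges mem_of_mem_pedges)

variable {v : ℤ × ℤ} {π : PP} {l r : List P3}

/-- A horizontal self-avoiding path to the origin. -/
theorem exists_path (z : ℤ) : ∀ (n : ℕ) (v : ℤ × ℤ), nrm v = n → ∃ l : List P3, l.Nodup ∧
    l.IsChain Adj ∧ l.head? = some (v.1, v.2, z) ∧ l.getLast? = some ((0 : ℤ), (0 : ℤ), z) ∧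
    ∀ u ∈ l, u.2.2 = z ∧ nrm (u.1, u.2.1) ≤ n := by
  intro n
  induction n with
  | zero =>
    rintro ⟨x, y⟩ hv
    simp only [nrm, Nat.add_eq_zero_iff, Int.natAbs_eq_zero] at hv
    obtain ⟨rfl, rfl⟩ := hv
    refine ⟨[(0, 0, z)], by simp, by simp, rfl, rfl, ?_⟩
    intro u hu
    rw [List.mem_singleton] at hu
    subst hu
    simp [nrm]
  | succ n ih =>
    rintro ⟨x, y⟩ hv
    obtain ⟨⟨x', y'⟩, hw, hadj⟩ : ∃ w : ℤ × ℤ, nrm w = n ∧ Adj (x, y, z) (w.1, w.2, z) := by
      simp only [nrm] at hv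
      rcases lt_trichotomy x 0 with h | h | h
      · exact ⟨(x + 1, y), by simp only [nrm]; omega, by simp [Adj]⟩
      · rcases lt_trichotomy y 0 with h' | h' | h'
        · exact ⟨(x, y + 1), by simp only [nrm]; omega, by simp [Adj]⟩
        · omega
        · exact ⟨(x, y - 1), by simp only [nrm]; omega, by simp [Adj]⟩
      · exact ⟨(x - 1, y), by simp only [nrm]; omega, by simp [Adj]⟩
    obtain ⟨l, h1, h2, h3, h4, h5⟩ := ih (x', y') hw
    refine ⟨(x, y, z) :: l, ?_, ?_, rfl, ?_, ?_⟩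
    · refine List.nodup_cons.2 ⟨fun h => ?_, h1⟩
      have := (h5 _ h).2
      rw [hv] at this
      omega
    · rw [List.isChain_cons]
      refine ⟨fun u hu => ?_, h2⟩
      rw [h3] at hu
      simp only [Option.mem_def, Option.some.injEq] at hu
      subst hu
      exact hadj
    · rw [List.getLast?_cons, h4]; rfl
    · intro u hu
      rcases List.mem_cons.1 hu with rfl | h
      · exact ⟨rfl, hv.le⟩
      · exact ⟨(h5 u h).1, (h5 u h).2.trans (Nat.le_succ _)⟩

/-- Flat halves. -/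
theorem exists_flat2 (hv : v ≠ 0) : ∃ r l, Upper 0 0 v r ∧ Lower 0 0 v l ∧
    (∀ u ∈ r, u.2.2 = 1) ∧ (∀ u ∈ l, u.2.2 = 0) ∧ Unknotted (ring (r ++ l)) := by
  obtain ⟨l, l1, l2, l3, l4, l5⟩ := exists_path 0 _ v rfl
  obtain ⟨r, r1, r2, r3, r4, r5⟩ := exists_path 1 _ v rfl
  have hl : Lower 0 0 v l := ⟨l1, l2, l3, l4, fun u hu => (l5 u hu).1.le⟩
  have hr : Upper 0 0 v r.reverse := by
    refine ⟨List.nodup_reverse.2 r1, ?_, ?_, ?_, fun u hu => ?_⟩
    · rw [List.isChain_reverse]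
      exact r2.imp fun a b h => h.symm
    · rw [List.head?_reverse, r4]; rfl
    · rw [List.getLast?_reverse, r3]; rfl
    · rw [(r5 u (List.mem_reverse.1 hu)).1]; norm_num
  have hP := (ring_of hv.symm hr hl).isPolygon
  have h0 := cross_ring_of hr hl
  refine ⟨_, l, hr, hl, fun u hu => (r5 u (List.mem_reverse.1 hu)).1, fun u hu => (l5 u hu).1,
    unknotted_of_two hP ?_ ⟨0, by rw [h0]; exact ⟨0, by simp⟩⟩⟩
  intro j hj
  rcases lt_trichotomy j 0 with h | rfl | h
  · exfalso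
    obtain ⟨c, hc⟩ := hj
    rw [cross_ring_low hr hl h] at hc
    have h1 := (l5 _ (mem_of_mem_pedges hc).1).1
    simp only at h1
    omega
  · rw [h0]; exact Set.ncard_pair hv.symm
  · exfalso
    obtain ⟨c, hc⟩ := hj
    rw [cross_ring_upp hr hl h] at hc
    have h1 := (r5 _ (List.mem_reverse.1 (mem_of_mem_pedges hc).2)).1
    simp only at h1
    omega

/-- There is an unknotted lower half without sections with two edges. -/
theorem exists_flat (hv : v ≠ 0) : ∃ l, Half 0 v l := by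
  obtain ⟨r, l, hr, hl, -, h5, hU⟩ := exists_flat2 hv
  have hP := (ring_of hv.symm hr hl).isPolygon
  refine ⟨l, ⟨hv.symm, hl, r, hr, ((unknotted_iff hP (isTwo_ring_of hv.symm hr hl)).1 hU).1⟩, ?_⟩
  have h1 : {j : ℤ | {c : ℤ × ℤ | leg c j ∈ pedges l}.ncard = 2} = ∅ := by
    rw [Set.eq_empty_iff_forall_notMem]
    intro j hj
    have h2 : {c : ℤ × ℤ | leg c j ∈ pedges l} = ∅ := by
      rw [Set.eq_empty_iff_forall_notMem]
      intro c hc
      have h3 := h5 _ (mem_of_mem_pedges hc).1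
      have h4 := h5 _ (mem_of_mem_pedges hc).2
      simp only at h3 h4
      omega
    rw [Set.mem_ofPred_eq, h2, Set.ncard_empty] at hj
    omega
  rw [nsec, h1, Set.ncard_empty]

/-- There is an unknotted upper half. -/
theorem exists_UU' {k : ℤ} {a b : ℤ × ℤ} (hab : a ≠ b) : ∃ r, UU k a b r := by
  have hv : b - a ≠ 0 := sub_ne_zero.2 hab.symm
  obtain ⟨r, l, hr, hl, -, -, hU⟩ := exists_flat2 hv
  have hP := (ring_of hv.symm hr hl).isPolygon
  have h1 : UU 0 0 (b - a) r :=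
    ⟨hv.symm, hr, l, hl, ((unknotted_iff hP (isTwo_ring_of hv.symm hr hl)).1 hU).2⟩
  have h2 := h1.shift (a.1, a.2, k)
  have e1 : csh (a.1, a.2, k) 0 = a := by simp [csh]
  have e2 : csh (a.1, a.2, k) (b - a) = b := by simp [csh]
  rw [e1, e2, zero_add] at h2
  exact ⟨_, h2⟩

theorem Geo.ne' (hg : Geo v π) : hz π.1.sum ≠ v + hz π.2.sum := by
  intro h
  have h1 := List.mem_of_getLast? hg.block.lastA
  have h2 := List.mem_of_head? hg.block.headB
  rw [← h] at h2
  exact hg.block.disj _ h1 h2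

/-- The lower half is unknotted iff the polygon is. -/
theorem lu_iff {k : ℤ} {a b : ℤ × ℤ} (hr : UU k a b r) (hl : Lower k a b l) :
    LU k a b l ↔ Unknotted (ring (r ++ l)) := by
  constructor
  · exact fun h => unknotted_halves hr h
  · intro h
    have hP := (ring_of hr.1 hr.2.1 hl).isPolygon
    exact ⟨hr.1, hl, r, hr.2.1, ((unknotted_iff hP (isTwo_ring_of hr.1 hr.2.1 hl)).1 h).1⟩

/-- The lower half composed of a lower half and a block, in terms of an upper half. -/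
theorem lu_block (hg : Geo v π) (hl : Lower 0 0 v l)
    (hr : UU (hgt π) (hz π.1.sum) (v + hz π.2.sum) r) :
    LU (hgt π) (hz π.1.sum) (v + hz π.2.sum) (sdB v π ++ (l ++ sdA π)) ↔
      LU 0 0 v l ∧ UU 0 0 v (sdA π ++ (r ++ sdB v π)) := by
  have hb := hg.block
  have hu := hb.upper hr.2.1
  have hne := hg.ne.symm
  have hP := (ring_of hne hu hl).isPolygon
  rw [lu_iff hr (hb.lower hl), ← hb.ring_rotate hr.2.1 hl,
    unknotted_iff hP (isTwo_ring_of hne hu hl)]
  constructor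
  · exact fun h => ⟨⟨hne, hl, _, hu, h.1⟩, ⟨hne, hu, _, hl, h.2⟩⟩
  · exact fun h => ⟨h.1.lowU hu, h.2.uppU hl⟩

theorem unk_iff_UU (hg : Geo v π) (hr : UU (hgt π) (hz π.1.sum) (v + hz π.2.sum) r) :
    Unk v π ↔ UU 0 0 v (sdA π ++ (r ++ sdB v π)) := by
  constructor
  · rintro ⟨l, h1, h2⟩
    exact ((lu_block hg h1.2.1 hr).1 h2).2
  · intro h
    obtain ⟨l, hl, -⟩ := exists_flat hg.ne
    exact ⟨l, hl, (lu_block hg hl.2.1 hr).2 ⟨hl, h⟩⟩

/-- **The lower half composed of a lower half and a block.** -/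
theorem unk_lu (hg : Geo v π) (hl : Lower 0 0 v l) :
    LU (hgt π) (hz π.1.sum) (v + hz π.2.sum) (sdB v π ++ (l ++ sdA π)) ↔ LU 0 0 v l ∧ Unk v π := by
  obtain ⟨r, hr⟩ := exists_UU' (k := hgt π) hg.ne'
  rw [lu_block hg hl hr, unk_iff_UU hg hr]

/-- **The block is unknotted iff the polygon composed with any unknotted halves is.** -/
theorem unk_iff (hg : Geo v π) (hl : LU 0 0 v l)
    (hr : UU (hgt π) (hz π.1.sum) (v + hz π.2.sum) r) :
    Unk v π ↔ Unknotted (ring (r ++ (sdB v π ++ (l ++ sdA π)))) := by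
  rw [← lu_iff hr (hg.block.lower hl.2.1), unk_lu hg hl.2.1]
  exact ⟨fun h => ⟨hl, h⟩, fun h => h.2⟩

end Pool.Agent.KLog
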