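import Pool.Agent.KLog.CutTop

/-! KL14: joining a half and a reflected half. -/

set_option autoImplicit false

open Pool.Agent.LK
open scoped ENNReal

namespace Pool.Agent.KLog

open Pool.Agent.KTube Pool.Agent.KRing
open Pool.Agent.LatticeTube (pedges)

variable {y z : ℝ≥0∞}

/-- is the vector lexicographically positive? -/
private def lx (v : ℤ × ℤ) : Bool := decide (0 < v.1 ∨ (v.1 = 0 ∧ 0 < v.2))

private theorem lx_neg {v w : ℤ × ℤ} (hv : (0 : ℤ × ℤ) ≠ v) (h : v + w = 0)
    (he : lx v = lx w) : False := by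
  have h1 : v.1 + w.1 = 0 := congrArg Prod.fst h
  have h2 : v.2 + w.2 = 0 := congrArg Prod.snd h
  have h3 : ¬ (v.1 = 0 ∧ v.2 = 0) := fun h => hv (Prod.ext h.1.symm h.2.symm)
  unfold lx at he
  rw [decide_eq_decide] at he
  omega

/-- The sections with two edges below the joint. -/
private theorem below_eq {v : ℤ × ℤ} {r l : List P3} (hr : Upper 0 0 v r) (hl : Lower 0 0 v l) :
    {j : ℤ | j < 0 ∧ IsTwo (ring (r ++ l)) j}.ncard = nsec l := by
  unfold nsec
  congr 1
  ext j
  constructor
  · rintro ⟨hj, h⟩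
    unfold IsTwo at h
    have h1 : cross (ring (r ++ l)) j = {c | leg c j ∈ pedges l} := by
      ext c
      exact cross_ring_low hr hl hj
    rw [h1] at h
    exact h
  · intro h
    have h : {c | leg c j ∈ pedges l}.ncard = 2 := h
    have hj : j < 0 := by
      have hne : {c | leg c j ∈ pedges l}.Nonempty := Set.nonempty_of_ncard_ne_zero (by omega)
      obtain ⟨c, hc⟩ := hne
      have := (pedges_lev hl.lev hc).2
      simp only at this
      omega
    refine ⟨hj, ?_⟩
    unfold IsTwo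
    have h1 : cross (ring (r ++ l)) j = {c | leg c j ∈ pedges l} := by
      ext c
      exact cross_ring_low hr hl hj
    rw [h1]
    exact h

private theorem isTwo_shift_iff (t : P3) (E : Finset (Sym2 P3)) (j : ℤ) :
    IsTwo (shift t E) j ↔ IsTwo E (j - t.2.2) := by
  unfold IsTwo
  rw [ncard_cross_shift']

/-- The joint is determined by the number of sections below it. -/
private theorem joint_eq {E F : Finset (Sym2 P3)} {s : P3} {n : ℕ} (h : shift s E = F)
    (hE0 : IsTwo E 0) (hF0 : IsTwo F 0) (hE : {j : ℤ | j < 0 ∧ IsTwo E j}.ncard = n)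
    (hF : {j : ℤ | j < 0 ∧ IsTwo F j}.ncard = n) (hfin : {j : ℤ | IsTwo F j}.Finite) :
    s.2.2 = 0 := by
  set m := s.2.2 with hm
  have h1 : ∀ j, IsTwo F j ↔ IsTwo E (j - m) := by
    intro j
    rw [← h]
    exact isTwo_shift_iff s E j
  have h2 : {j : ℤ | j < m ∧ IsTwo F j}.ncard = n := by
    have h3 : {j : ℤ | j < m ∧ IsTwo F j} = (fun j => j + m) '' {j : ℤ | j < 0 ∧ IsTwo E j} := by
      ext j
      rw [Set.mem_image]
      constructor
      · rintro ⟨h4, h5⟩
        exact ⟨j - m, ⟨by omega, (h1 j).1 h5⟩, by ring⟩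
      · rintro ⟨i, ⟨h4, h5⟩, rfl⟩
        exact ⟨by omega, (h1 _).2 (by rwa [add_sub_cancel_right])⟩
    rw [h3, Set.ncard_image_of_injective _ (add_left_injective m), hE]
  have h3 : ∀ a b : ℤ, a < b → IsTwo F a → {j : ℤ | j < a ∧ IsTwo F j}.ncard <
      {j : ℤ | j < b ∧ IsTwo F j}.ncard := by
    intro a b hab ha
    refine Set.ncard_lt_ncard ?_ (hfin.subset fun j hj => hj.2)
    refine ⟨fun j hj => ⟨hj.1.trans hab, hj.2⟩, fun hsub => ?_⟩
    exact lt_irrefl a (hsub ⟨hab, ha⟩).1
  rcases lt_trichotomy m 0 with hlt | heq | hgt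
  · have := h3 m 0 hlt ((h1 m).2 (by rwa [sub_self]))
    omega
  · exact heq
  · have := h3 0 m hgt hF0
    omega

/-- The triples of a displacement and two halves. -/
private abbrev Tr (n : ℕ) : Type := Σ v : ℤ × ℤ, {l // Half n v l} × {l // Half n v l}

private def jn {n : ℕ} (p : Tr n) : Finset (Sym2 P3) := ring (flp p.2.2.1 ++ p.2.1.1)

private theorem jn_ne {n : ℕ} (p : Tr n) : (0 : ℤ × ℤ) ≠ p.1 := p.2.1.2.1.1

private theorem jn_upper {n : ℕ} (p : Tr n) : Upper 0 0 p.1 (flp p.2.2.1) :=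
  upper_flp p.2.2.2.1.2.1

private theorem jn_lower {n : ℕ} (p : Tr n) : Lower 0 0 p.1 p.2.1.1 := p.2.1.2.1.2.1

private theorem jn_poly {n : ℕ} (p : Tr n) : IsPolygon (jn p) :=
  (ring_of (jn_ne p) (jn_upper p) (jn_lower p)).isPolygon

private theorem jn_unk {n : ℕ} (p : Tr n) : Unknotted (jn p) :=
  unknotted_halves (UU_flp p.2.2.2.1) p.2.1.2.1

private theorem jn_two {n : ℕ} (p : Tr n) : {k : ℤ | IsTwo (jn p) k}.ncard = 2 * n + 1 := by
  unfold jn
  rw [ncard_two_ring (jn_ne p) (jn_upper p) (jn_lower p), nsec_flp, p.2.1.2.2, p.2.2.2.2]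
  ring

private theorem jn_wt {n : ℕ} (p : Tr n) : y ^ span (jn p) * z ^ (jn p).card =
    y * (wl y z p.2.1.1 * wl y z p.2.2.1) := by
  unfold jn wl
  rw [span_ring (jn_upper p) (jn_lower p),
    (ring_of (jn_ne p) (jn_upper p) (jn_lower p)).card_eq, List.length_append, lspan_flp,
    length_flp, pow_add, pow_add, pow_add, pow_one]
  ring

private theorem jn_inj {n : ℕ} {p q : Tr n} {s t : P3} (h : shift s (jn p) = shift t (jn q))
    (hb : lx p.1 = lx q.1) : p = q := by
  have h1 : shift (-t + s) (jn p) = jn q := by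
    rw [← shift_shift, h, shift_shift, neg_add_cancel, shift_zero]
  set d := -t + s with hd
  have hfin : {k : ℤ | IsTwo (jn q) k}.Finite :=
    Set.finite_of_ncard_ne_zero (by rw [jn_two]; omega)
  have hz : d.2.2 = 0 := joint_eq (n := n) h1
    (isTwo_ring_of (jn_ne p) (jn_upper p) (jn_lower p))
    (isTwo_ring_of (jn_ne q) (jn_upper q) (jn_lower q))
    ((below_eq (jn_upper p) (jn_lower p)).trans p.2.1.2.2)
    ((below_eq (jn_upper q) (jn_lower q)).trans q.2.1.2.2) hfin
  have hc : ∀ c : ℤ × ℤ, c ∈ cross (jn q) 0 ↔ (c.1 - d.1, c.2 - d.2.1) ∈ cross (jn p) 0 := by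
    intro c
    rw [← h1, cross_shift', hz, sub_zero]
  have hp : cross (jn p) 0 = {0, p.1} := cross_ring_of (jn_upper p) (jn_lower p)
  have hq : cross (jn q) 0 = {0, q.1} := cross_ring_of (jn_upper q) (jn_lower q)
  have e1 : (0 : ℤ × ℤ) = (0 - d.1, 0 - d.2.1) ∨ p.1 = (0 - d.1, 0 - d.2.1) := by
    have := (hc 0).1 (by rw [hq]; exact Set.mem_insert _ _)
    rw [hp, Set.mem_insert_iff, Set.mem_singleton_iff] at this
    exact this.imp Eq.symm Eq.symm
  have e2 : (0 : ℤ × ℤ) = (q.1.1 - d.1, q.1.2 - d.2.1) ∨ p.1 = (q.1.1 - d.1, q.1.2 - d.2.1) := by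
    have := (hc q.1).1 (by rw [hq]; exact Set.mem_insert_of_mem _ rfl)
    rw [hp, Set.mem_insert_iff, Set.mem_singleton_iff] at this
    exact this.imp Eq.symm Eq.symm
  have hq0 := jn_ne q
  have hp0 := jn_ne p
  have hd0 : d = 0 ∧ p.1 = q.1 := by
    rcases e1 with e1 | e1
    · have a1 : d.1 = 0 := by have := congrArg Prod.fst e1; simp only [Prod.fst_zero] at this; omega
      have a2 : d.2.1 = 0 := by
        have := congrArg Prod.snd e1; simp only [Prod.snd_zero] at this; omega
      refine ⟨Prod.ext a1 (Prod.ext a2 hz), ?_⟩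
      rw [a1, a2, sub_zero, sub_zero] at e2
      rcases e2 with e2 | e2
      · exact absurd e2 hq0
      · exact e2
    · exfalso
      rcases e2 with e2 | e2
      · refine lx_neg hp0 (w := q.1) ?_ hb
        rw [e1]
        have b1 := congrArg Prod.fst e2
        have b2 := congrArg Prod.snd e2
        simp only [Prod.fst_zero, Prod.snd_zero] at b1 b2
        refine Prod.ext ?_ ?_
        · simp only [Prod.fst_add, Prod.fst_zero]
          omega
        · simp only [Prod.snd_add, Prod.snd_zero]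
          omega
      · apply hq0
        have b1 := congrArg Prod.fst (e1.symm.trans e2)
        have b2 := congrArg Prod.snd (e1.symm.trans e2)
        simp only at b1 b2
        exact Prod.ext (by simp only [Prod.fst_zero]; omega) (by simp only [Prod.snd_zero]; omega)
  obtain ⟨hd1, hpq⟩ := hd0
  rw [hd1, shift_zero] at h1
  obtain ⟨v, l, l2⟩ := p
  obtain ⟨w, m, m2⟩ := q
  simp only at hpq
  subst hpq
  obtain ⟨-, h2, h3⟩ := halves_unique (jn_ne ⟨v, l, l2⟩) (jn_ne ⟨v, m, m2⟩)
    (jn_upper ⟨v, l, l2⟩) (jn_lower ⟨v, l, l2⟩) (jn_upper ⟨v, m, m2⟩) (jn_lower ⟨v, m, m2⟩) h1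
  have h4 : l = m := Subtype.ext h3
  have h5 : l2 = m2 := by
    apply Subtype.ext
    have := congrArg flp h2
    rwa [flp_flp, flp_flp] at this
  rw [h4, h5]

/-- **Joining two halves.** -/
theorem join_half (n : ℕ) : y * ∑' v, MM y z n v * MM y z n v ≤ 2 * UN y z (2 * n + 1) := by
  classical
  have hex : ∀ p : Tr n, ∃ t : P3, Normed (shift t (jn p)) :=
    fun p => exists_normed (jn_poly p).verts_nonempty
  choose t ht using hex
  let φ : Tr n → PN (2 * n + 1) × Bool := fun p =>
    (⟨shift (t p) (jn p), isPolygon_shift (jn_poly p) _,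
      typeClosed_unknotted _ _ (sameType_shift _ _) (jn_unk p), ht p, by
        have h1 : {k : ℤ | IsTwo (shift (t p) (jn p)) k} =
            (fun j => j + (t p).2.2) '' {k : ℤ | IsTwo (jn p) k} := by
          ext j
          rw [Set.mem_image]
          constructor
          · intro h
            exact ⟨j - (t p).2.2, (isTwo_shift_iff _ _ _).1 h, by ring⟩
          · rintro ⟨i, hi, rfl⟩
            exact (isTwo_shift_iff _ _ _).2 (by rwa [add_sub_cancel_right])
        rw [h1, Set.ncard_image_of_injective _ (add_left_injective _), jn_two]⟩, lx p.1)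
  have hφ : Function.Injective φ := by
    intro p q h
    have h1 := congrArg (fun x : PN (2 * n + 1) × Bool => x.1.1) h
    have h2 := congrArg (fun x : PN (2 * n + 1) × Bool => x.2) h
    exact jn_inj h1 h2
  have hl : y * ∑' v, MM y z n v * MM y z n v =
      ∑' p : Tr n, y ^ span (φ p).1.1 * z ^ (φ p).1.1.card := by
    have h1 : ∀ p : Tr n, y ^ span (φ p).1.1 * z ^ (φ p).1.1.card =
        y * (wl y z p.2.1.1 * wl y z p.2.2.1) := by
      intro p
      rw [← jn_wt p]
      show y ^ span (shift (t p) (jn p)) * z ^ (shift (t p) (jn p)).card = _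
      rw [span_shift', card_shift]
    simp_rw [h1]
    rw [ENNReal.tsum_mul_left, ENNReal.tsum_sigma']
    congr 1
    refine tsum_congr fun v => ?_
    rw [ENNReal.tsum_prod']
    simp_rw [ENNReal.tsum_mul_left, ENNReal.tsum_mul_right]
    rfl
  have hr : 2 * UN y z (2 * n + 1) =
      ∑' q : PN (2 * n + 1) × Bool, y ^ span q.1.1 * z ^ q.1.1.card := by
    rw [ENNReal.tsum_prod']
    unfold UN
    rw [← ENNReal.tsum_mul_left]
    refine tsum_congr fun E => ?_
    rw [tsum_fintype, Fintype.sum_bool, two_mul]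
  rw [hl, hr]
  exact ENNReal.tsum_comp_le_tsum_of_injective hφ
    (fun q : PN (2 * n + 1) × Bool => y ^ span q.1.1 * z ^ q.1.1.card)

end Pool.Agent.KLog
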