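import Pool.Agent.KLog.Defs

/-! KL16: far from the origin the geometric conditions do not depend on the displacement. -/

set_option autoImplicit false

open Pool.Agent.LK

namespace Pool.Agent.KLog

open Pool.Agent.KTube Pool.Agent.KRing
open Pool.Agent.LatticeTube (pedges)

variable {v v' : ℤ × ℤ} {π : PP}

private theorem geoFar_nrm_add (u w : ℤ × ℤ) : nrm (u + w) ≤ nrm u + nrm w := by
  unfold nrm
  have h1 := Int.natAbs_add_le u.1 w.1
  have h2 := Int.natAbs_add_le u.2 w.2
  simp only [Prod.fst_add, Prod.snd_add]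
  omega

private theorem geoFar_nrm_neg (u : ℤ × ℤ) : nrm (-u) = nrm u := by
  unfold nrm
  simp only [Prod.fst_neg, Prod.snd_neg, Int.natAbs_neg]

private theorem geoFar_nrm_sub (u w : ℤ × ℤ) : nrm (u - w) ≤ nrm u + nrm w := by
  rw [sub_eq_add_neg, ← geoFar_nrm_neg w]
  exact geoFar_nrm_add u (-w)

private theorem geoFar_disp (x : List Letter) : nrm (disp x) ≤ stp x := by
  induction x with
  | nil => exact le_rfl
  | cons c x ih =>
    rw [disp_cons]
    refine (geoFar_nrm_add _ _).trans ?_
    cases c with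
    | none =>
      rw [stp_none, lv_none]
      have : nrm (0 : ℤ × ℤ) = 0 := rfl
      omega
    | some d =>
      rw [stp_some]
      have : nrm (lv (some d)) ≤ 1 := by
        fin_cases d <;> decide
      omega

private theorem geoFar_sum {s : List P3} (h : Steps s) : nrm (hz s.sum) ≤ stp (lets s) := by
  obtain ⟨h1, h2⟩ := sum_of_lets h
  have e : hz s.sum = disp (lets s) := Prod.ext h1 h2
  rw [e]
  exact geoFar_disp _

private theorem geoFar_prefix {s A B : List P3} (h : Steps s) (e : s = A ++ B) :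
    nrm (hz A.sum) ≤ stp (lets s) := by
  have hA : Steps A := fun d hd => h d (by rw [e]; exact List.mem_append_left _ hd)
  refine (geoFar_sum hA).trans ?_
  rw [e, lets_append, stp_append]
  exact Nat.le_add_right _ _

/-- The displacement is at most the number of horizontal steps. -/
theorem nrm_dsp_le (hA : Steps π.1) (hB : Steps π.2) : nrm (dsp π) ≤ nh π := by
  unfold dsp nh
  have h1 := geoFar_sum hA
  have h2 := geoFar_sum hB
  have h3 := geoFar_nrm_sub (hz π.2.sum) (hz π.1.sum)
  omega

/-- the strands are separated -/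
private theorem geoFar_sep (hA : Steps π.1) (hB : Steps π.2) (hv : nh π < nrm v) {p q : P3}
    (hp : p ∈ sdA π) (hq : q ∈ sdB v π) : hz p ≠ hz q := by
  intro e
  obtain ⟨A, A', hA', rfl⟩ := mem_wk.1 hp
  rw [sdB, List.mem_reverse] at hq
  obtain ⟨B, B', hB', rfl⟩ := mem_wk.1 hq
  have h1 := geoFar_prefix hA hA'
  have h2 := geoFar_prefix hB hB'
  have h3 := geoFar_nrm_sub (hz A.sum) (hz B.sum)
  have e1 : v = hz A.sum - hz B.sum := by
    have e2 := congrArg Prod.fst e
    have e3 := congrArg Prod.snd e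
    simp only [hz, Prod.fst_add, Prod.snd_add] at e2 e3
    refine Prod.ext ?_ ?_
    · simp only [hz, Prod.fst_sub]
      omega
    · simp only [hz, Prod.snd_sub]
      omega
  rw [← e1] at h3
  unfold nh at hv
  omega

private theorem geoFar_sdB : sdB v' π = (sdB v π).map (· + (v'.1 - v.1, v'.2 - v.2, (0 : ℤ))) := by
  unfold sdB
  rw [List.map_reverse, map_wk]
  congr 2
  refine Prod.ext ?_ (Prod.ext ?_ ?_) <;> simp

private theorem geoFar_leg {j : ℤ} {c : ℤ × ℤ} : leg c j ∈ pedges (sdB v' π) ↔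
    leg (c - (v' - v)) j ∈ pedges (sdB v π) := by
  rw [geoFar_sdB (v := v) (v' := v'), pedges_map]
  have e1 : ∀ i : ℤ, (fun u : P3 => u + (v'.1 - v.1, v'.2 - v.2, (0 : ℤ)))
      ((c - (v' - v)).1, (c - (v' - v)).2, i) = (c.1, c.2, i) := by
    intro i
    refine Prod.ext ?_ (Prod.ext ?_ ?_) <;> simp
  have e : leg c j = s((fun u : P3 => u + (v'.1 - v.1, v'.2 - v.2, (0 : ℤ)))
      ((c - (v' - v)).1, (c - (v' - v)).2, j),
      (fun u : P3 => u + (v'.1 - v.1, v'.2 - v.2, (0 : ℤ)))
      ((c - (v' - v)).1, (c - (v' - v)).2, j + 1)) := by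
    rw [e1, e1]
    rfl
  rw [e, mem_mapE (add_left_injective _)]
  rfl

private theorem geoFar_fin (l : List P3) (j : ℤ) : {c | leg c j ∈ pedges l}.Finite := by
  refine ((pedges l).finite_toSet.preimage (f := fun c : ℤ × ℤ => leg c j) ?_)
  intro a _ b _ h
  exact (leg_inj h).1

private theorem geoFar_hz {l : List P3} {c : ℤ × ℤ} {j : ℤ} (h : leg c j ∈ pedges l) :
    (c.1, c.2, j) ∈ l := (LatticeTube.mem_of_mem_pedges h).1

private theorem geoFar_ncard (hA : Steps π.1) (hB : Steps π.2) (hv : nh π < nrm v) (j : ℤ) :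
    {c | leg c j ∈ pedges (sdA π) ∨ leg c j ∈ pedges (sdB v π)}.ncard =
      {c | leg c j ∈ pedges (sdA π)}.ncard + {c | leg c j ∈ pedges (sdB v π)}.ncard := by
  refine Set.ncard_union_eq (s := {c | leg c j ∈ pedges (sdA π)})
    (t := {c | leg c j ∈ pedges (sdB v π)}) ?_ (geoFar_fin _ _) (geoFar_fin _ _)
  rw [Set.disjoint_left]
  intro c h1 h2
  exact geoFar_sep hA hB hv (geoFar_hz h1) (geoFar_hz h2) rfl

private theorem geoFar_ncard' (j : ℤ) : {c | leg c j ∈ pedges (sdB v' π)}.ncard =
    {c | leg c j ∈ pedges (sdB v π)}.ncard := by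
  have e : {c | leg c j ∈ pedges (sdB v' π)} =
      (fun c => c + (v' - v)) '' {c | leg c j ∈ pedges (sdB v π)} := by
    ext c
    rw [Set.mem_image]
    constructor
    · intro h
      exact ⟨c - (v' - v), (geoFar_leg (v := v)).1 h, sub_add_cancel _ _⟩
    · rintro ⟨d, hd, rfl⟩
      refine (geoFar_leg (v := v)).2 ?_
      rw [add_sub_cancel_right]
      exact hd
  rw [e, Set.ncard_image_of_injective _ (add_left_injective _)]

theorem geo_far (hg : Geo v π) (hv : nh π < nrm v) (hv' : nh π < nrm v') : Geo v' π := by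
  have hb := hg.block
  refine ⟨?_, hg.stA, hg.stB, ?_, ?_⟩
  · rintro rfl
    exact absurd hv' (Nat.not_lt_zero _)
  · refine ⟨hb.lt, hb.nodupA, ?_, ?_, hb.chainA, ?_, hb.headA, hb.lastA, ?_, ?_, hb.levA, ?_⟩
    · rw [geoFar_sdB (v := v)]
      exact hb.nodupB.map (add_left_injective _)
    · intro u h1 h2
      exact geoFar_sep hg.stA hg.stB hv' h1 h2 rfl
    · rw [geoFar_sdB (v := v), List.isChain_map]
      refine hb.chainB.imp fun p q hpq => ?_
      simpa [Adj] using hpq
    · rw [geoFar_sdB (v := v), List.head?_map, hb.headB]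
      simp only [Option.map_some, Option.some.injEq]
      refine Prod.ext ?_ (Prod.ext ?_ ?_) <;> simp only [Prod.mk_add_mk, Prod.fst_add,
        Prod.snd_add, add_zero] <;> ring
    · rw [geoFar_sdB (v := v), List.getLast?_map, hb.lastB]
      simp only [Option.map_some, Option.some.injEq]
      refine Prod.ext ?_ (Prod.ext ?_ ?_) <;> simp only [Prod.mk_add_mk, add_zero] <;> ring
    · intro u hu
      rw [geoFar_sdB (v := v)] at hu
      obtain ⟨w, hw, rfl⟩ := List.mem_map.1 hu
      have := hb.levB w hw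
      simpa using this
  · intro j h1 h2
    have h3 := hg.thick j h1 h2
    rw [geoFar_ncard hg.stA hg.stB hv] at h3
    rw [geoFar_ncard hg.stA hg.stB hv', geoFar_ncard' (v := v)]
    exact h3

end Pool.Agent.KLog
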