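import Pool.Agent.KLog.Caps

/-! KL15: rotation by a quarter turn about the vertical axis. -/

set_option autoImplicit false

open Pool.Agent.LK
open scoped ENNReal

namespace Pool.Agent.KLog

open Pool.Agent.KTube Pool.Agent.KRing
open Pool.Agent.LatticeTube (pedges mem_pedges mem_of_mem_pedges)

variable {v : ℤ × ℤ} {π : PP}

/-- Rotation of a vector. -/
def rt3 (u : P3) : P3 := (-u.2.1, u.1, u.2.2)

/-- Rotation of a pair of words. -/
def rotP (π : PP) : PP := (π.1.map rt3, π.2.map rt3)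

/-! ### The rotation of lattice points -/

/-- The inverse rotation of a vector. -/
private def ri3 (u : P3) : P3 := (u.2.1, -u.1, u.2.2)

/-- The inverse rotation of a column. -/
private def ri (c : ℤ × ℤ) : ℤ × ℤ := (c.2, -c.1)

private theorem ri3_rt3 (u : P3) : ri3 (rt3 u) = u := by
  refine Prod.ext rfl (Prod.ext ?_ rfl)
  simp [ri3, rt3]

private theorem rt3_ri3 (u : P3) : rt3 (ri3 u) = u := by
  refine Prod.ext ?_ (Prod.ext rfl rfl)
  simp [ri3, rt3]

private theorem ri_rt (c : ℤ × ℤ) : ri (rt c) = c := by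
  refine Prod.ext rfl ?_
  simp [ri, rt]

private theorem rt_ri (c : ℤ × ℤ) : rt (ri c) = c := by
  refine Prod.ext ?_ rfl
  simp [ri, rt]

private theorem rt3_inj : Function.Injective rt3 := fun u w h => by
  have := congrArg ri3 h
  rwa [ri3_rt3, ri3_rt3] at this

private theorem rt_inj : Function.Injective rt := fun u w h => by
  have := congrArg ri h
  rwa [ri_rt, ri_rt] at this

private theorem frame_rt : Frame (0, 1, 0) (-1, 0, 0) (0, 0, 1) :=
  ⟨by simp [dot3], by simp [dot3], by simp [dot3], by simp [dot3], by simp [dot3], by simp [dot3]⟩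

private theorem rt3_eq : rt3 = latIso (0, 0, 0) (0, 1, 0) (-1, 0, 0) (0, 0, 1) := by
  funext u
  refine Prod.ext ?_ (Prod.ext ?_ ?_) <;> simp [latIso, rt3]

private theorem rt3_add (u w : P3) : rt3 (u + w) = rt3 u + rt3 w := by
  refine Prod.ext ?_ (Prod.ext ?_ ?_)
  · simp only [rt3, Prod.fst_add, Prod.snd_add]; ring
  · simp only [rt3, Prod.fst_add, Prod.snd_add]
  · simp only [rt3, Prod.snd_add]

private theorem rt3_zero : rt3 0 = 0 := by
  refine Prod.ext ?_ (Prod.ext ?_ ?_) <;> simp [rt3]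

private theorem sum_rt3 (s : List P3) : (s.map rt3).sum = rt3 s.sum := by
  induction s with
  | nil => simp [rt3_zero]
  | cons d s ih => rw [List.map_cons, List.sum_cons, List.sum_cons, ih, rt3_add]

private theorem wk_rt3 (p : P3) (s : List P3) : (wk p s).map rt3 = wk (rt3 p) (s.map rt3) := by
  induction s generalizing p with
  | nil => rfl
  | cons d s ih =>
    rw [wk_cons, List.map_cons, List.map_cons, wk_cons, ih, rt3_add]

private theorem hz_rt3 (u : P3) : hz (rt3 u) = rt (hz u) := rfl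

private theorem rt_sub (a b : ℤ × ℤ) : rt (a - b) = rt a - rt b := by
  refine Prod.ext ?_ rfl
  simp only [rt, Prod.fst_sub, Prod.snd_sub]; ring

private theorem rt_add (a b : ℤ × ℤ) : rt (a + b) = rt a + rt b := by
  refine Prod.ext ?_ rfl
  simp only [rt, Prod.fst_add, Prod.snd_add]; ring

private theorem rt_zero : rt 0 = 0 := by
  refine Prod.ext ?_ rfl
  simp [rt]

private theorem rt3_col (c : ℤ × ℤ) (j : ℤ) : rt3 (c.1, c.2, j) = ((rt c).1, (rt c).2, j) := rfl

private theorem ri3_col (c : ℤ × ℤ) (j : ℤ) : ri3 (c.1, c.2, j) = ((ri c).1, (ri c).2, j) := rfl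

private theorem adj_rt3 {u w : P3} (h : Adj u w) : Adj (rt3 u) (rt3 w) := by
  rw [rt3_eq]
  exact (latIso_adj frame_rt _ u w).2 h

/-! ### Polygons -/

private theorem mem_rot {E : Finset (Sym2 P3)} {u w : P3} :
    s(u, w) ∈ mapE rt3 E ↔ s(ri3 u, ri3 w) ∈ E := by
  have := mem_mapE rt3_inj (E := E) (u := ri3 u) (v := ri3 w)
  rwa [rt3_ri3, rt3_ri3] at this

private theorem isPolygon_rot {E : Finset (Sym2 P3)} (hE : IsPolygon E) :
    IsPolygon (mapE rt3 E) := by
  rw [rt3_eq]
  exact isPolygon_latIso frame_rt _ hE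

private theorem sameType_rot (E : Finset (Sym2 P3)) : SameType E (mapE rt3 E) := by
  rw [rt3_eq]
  obtain ⟨G, -, hG, hseg⟩ := exists_latHomeo frame_rt (0, 0, 0)
  exact ⟨G, (body_mapE G _ hG hseg E).symm⟩

private theorem ring_rot (c : List P3) : ring (c.map rt3) = mapE rt3 (ring c) := by
  unfold ring
  rw [← pedges_map, List.map_append, List.getLast?_map]
  congr 2
  cases c.getLast? <;> rfl

private theorem cross_rot {E : Finset (Sym2 P3)} (j : ℤ) :
    cross (mapE rt3 E) j = rt '' cross E j := by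
  ext c
  rw [mem_cross, mem_rot, Set.mem_image]
  constructor
  · intro h
    exact ⟨ri c, h, rt_ri c⟩
  · rintro ⟨d, hd, rfl⟩
    have h1 := mem_cross.1 hd
    rw [← rt3_col, ← rt3_col, ri3_rt3, ri3_rt3]
    exact h1

private theorem lowClose_rot {E A : Finset (Sym2 P3)} {k : ℤ} (h : LowClose E k A) :
    LowClose (mapE rt3 E) k (mapE rt3 A) := by
  refine ⟨isPolygon_rot h.1, ?_, ?_⟩
  · intro u w hu
    rw [mem_rot, mem_rot]
    exact h.2.1 _ _ hu
  · intro j hj h1
    rw [cross_rot] at h1 ⊢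
    rw [Set.ncard_image_of_injective _ rt_inj]
    exact h.2.2 j hj (Set.image_nonempty.1 h1)

private theorem lowU_rot {E : Finset (Sym2 P3)} {k : ℤ} (h : LowU E k) :
    LowU (mapE rt3 E) k := by
  obtain ⟨A, hA, hU⟩ := h
  exact ⟨_, lowClose_rot hA, (sameType_rot A).symm.unknotted hU⟩

/-! ### Halves and blocks -/

private theorem chain_rot {l : List P3} (h : l.IsChain Adj) : (l.map rt3).IsChain Adj := by
  rw [List.isChain_map]
  exact h.imp fun u w huw => adj_rt3 huw

private theorem head_rot {l : List P3} {c : ℤ × ℤ} {j : ℤ} (h : l.head? = some (c.1, c.2, j)) :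
    (l.map rt3).head? = some ((rt c).1, (rt c).2, j) := by
  rw [List.head?_map, h]
  rfl

private theorem last_rot {l : List P3} {c : ℤ × ℤ} {j : ℤ}
    (h : l.getLast? = some (c.1, c.2, j)) :
    (l.map rt3).getLast? = some ((rt c).1, (rt c).2, j) := by
  rw [List.getLast?_map, h]
  rfl

private theorem upper_rot {k : ℤ} {a b : ℤ × ℤ} {r : List P3} (h : Upper k a b r) :
    Upper k (rt a) (rt b) (r.map rt3) := by
  refine ⟨h.nodup.map rt3_inj, chain_rot h.chain, head_rot h.head, last_rot h.last, ?_⟩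
  intro u hu
  obtain ⟨w, hw, rfl⟩ := List.mem_map.1 hu
  exact h.lev w hw

private theorem lower_rot {k : ℤ} {a b : ℤ × ℤ} {l : List P3} (h : Lower k a b l) :
    Lower k (rt a) (rt b) (l.map rt3) := by
  refine ⟨h.nodup.map rt3_inj, chain_rot h.chain, head_rot h.head, last_rot h.last, ?_⟩
  intro u hu
  obtain ⟨w, hw, rfl⟩ := List.mem_map.1 hu
  exact h.lev w hw


private theorem lu_rot {k : ℤ} {a b : ℤ × ℤ} {l : List P3} (h : LU k a b l) :
    LU k (rt a) (rt b) (l.map rt3) := by
  obtain ⟨hab, hl, r, hr, hU⟩ := h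
  refine ⟨fun h1 => hab (rt_inj h1), lower_rot hl, r.map rt3, upper_rot hr, ?_⟩
  rw [← List.map_append, ring_rot]
  exact lowU_rot hU

private theorem block_rot {k k' : ℤ} {a b a' b' : ℤ × ℤ} {A B : List P3}
    (h : Block k k' a b a' b' A B) :
    Block k k' (rt a) (rt b) (rt a') (rt b') (A.map rt3) (B.map rt3) := by
  refine ⟨h.lt, h.nodupA.map rt3_inj, h.nodupB.map rt3_inj, ?_, chain_rot h.chainA,
    chain_rot h.chainB, head_rot h.headA, last_rot h.lastA, head_rot h.headB, last_rot h.lastB,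
    ?_, ?_⟩
  · intro u hu hu'
    obtain ⟨w, hw, rfl⟩ := List.mem_map.1 hu
    obtain ⟨w', hw', he⟩ := List.mem_map.1 hu'
    rw [rt3_inj he] at hw'
    exact h.disj w hw hw'
  · intro u hu
    obtain ⟨w, hw, rfl⟩ := List.mem_map.1 hu
    exact h.levA w hw
  · intro u hu
    obtain ⟨w, hw, rfl⟩ := List.mem_map.1 hu
    exact h.levB w hw

private theorem leg_rot {l : List P3} {c : ℤ × ℤ} {j : ℤ} :
    leg (rt c) j ∈ pedges (l.map rt3) ↔ leg c j ∈ pedges l := by
  rw [pedges_map]
  unfold leg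
  rw [← rt3_col, ← rt3_col, mem_mapE rt3_inj]

private theorem sdA_rot (π : PP) : sdA (rotP π) = (sdA π).map rt3 := by
  unfold sdA
  rw [wk_rt3]
  rfl

private theorem sdB_rot (v : ℤ × ℤ) (π : PP) : sdB (rt v) (rotP π) = (sdB v π).map rt3 := by
  unfold sdB
  rw [List.map_reverse, wk_rt3]
  rfl

private theorem hgt_rot (π : PP) : hgt (rotP π) = hgt π := by
  unfold hgt rotP
  rw [sum_rt3]
  rfl

private theorem hz_sum (s : List P3) : hz (s.map rt3).sum = rt (hz s.sum) := by
  rw [sum_rt3, hz_rt3]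

private theorem steps_rot {s : List P3} (h : Steps s) : Steps (s.map rt3) := by
  intro d hd
  obtain ⟨e, he, rfl⟩ := List.mem_map.1 hd
  rcases step_cases (h e he) with rfl | rfl | rfl | rfl | rfl | rfl <;> simp [rt3, IsStep]

private theorem stp_rot {s : List P3} (h : Steps s) : stp (lets (s.map rt3)) = stp (lets s) := by
  induction s with
  | nil => rfl
  | cons d s ih =>
    have h1 := ih h.cons.2
    have h2 : (hlet (rt3 d)).isSome = (hlet d).isSome := by
      rcases step_cases h.cons.1 with rfl | rfl | rfl | rfl | rfl | rfl <;> decide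
    unfold stp at h1 ⊢
    rw [List.map_cons, lets_cons, lets_cons, List.countP_cons, List.countP_cons, h1, h2]

theorem nrm_rt (v : ℤ × ℤ) : nrm (rt v) = nrm v := by
  unfold nrm rt
  simp only [Int.natAbs_neg]
  exact Nat.add_comm _ _

theorem wt_rotP (y z : ℝ≥0∞) (π : PP) : wt y z (rotP π) = wt y z π := by
  unfold wt
  rw [hgt_rot]
  simp only [rotP, List.length_map]

theorem dsp_rotP (π : PP) : dsp (rotP π) = rt (dsp π) := by
  unfold dsp
  rw [rt_sub, ← hz_sum, ← hz_sum]
  rfl

theorem nh_rotP (hA : Steps π.1) (hB : Steps π.2) : nh (rotP π) = nh π := by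
  unfold nh rotP
  simp only
  rw [stp_rot hA, stp_rot hB]

theorem rotP_rotP (π : PP) : rotP (rotP (rotP (rotP π))) = π := by
  have h1 : ∀ u, rt3 (rt3 (rt3 (rt3 u))) = u := by
    intro u
    refine Prod.ext ?_ (Prod.ext ?_ rfl) <;> simp [rt3]
  have h2 : ∀ s : List P3, (((s.map rt3).map rt3).map rt3).map rt3 = s := by
    intro s
    simp only [List.map_map]
    conv_rhs => rw [← List.map_id s]
    refine List.map_congr_left fun u _ => ?_
    exact h1 u
  exact Prod.ext (h2 π.1) (h2 π.2)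

theorem geo_rotP (h : Geo v π) : Geo (rt v) (rotP π) := by
  refine ⟨?_, steps_rot h.stA, steps_rot h.stB, ?_, ?_⟩
  · intro h1
    rw [← rt_zero] at h1
    exact h.ne (rt_inj h1)
  · have h1 := block_rot h.block
    rw [rt_zero, rt_add, ← hz_sum, ← hz_sum, ← sdA_rot, ← sdB_rot, ← hgt_rot] at h1
    exact h1
  · intro j hj hj'
    rw [hgt_rot] at hj'
    rw [sdA_rot, sdB_rot]
    have h1 : {c | leg c j ∈ pedges ((sdA π).map rt3) ∨ leg c j ∈ pedges ((sdB v π).map rt3)} =
        rt '' {c | leg c j ∈ pedges (sdA π) ∨ leg c j ∈ pedges (sdB v π)} := by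
      ext c
      rw [Set.mem_image]
      constructor
      · intro hc
        refine ⟨ri c, ?_, rt_ri c⟩
        rw [← rt_ri c] at hc
        rcases hc with hc | hc
        · exact Or.inl (leg_rot.1 hc)
        · exact Or.inr (leg_rot.1 hc)
      · rintro ⟨d, hd | hd, rfl⟩
        · exact Or.inl (leg_rot.2 hd)
        · exact Or.inr (leg_rot.2 hd)
    rw [h1, Set.ncard_image_of_injective _ rt_inj]
    exact h.thick j hj hj'

theorem valid_rotP (h : Valid v π) : Valid (rt v) (rotP π) := by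
  refine ⟨geo_rotP h.1, ?_⟩
  obtain ⟨l, hl, hU⟩ := h.2
  refine ⟨l.map rt3, ?_, ?_⟩
  · have h1 := lu_rot hl
    rwa [rt_zero] at h1
  · have h1 := lu_rot hU
    rw [rt_add, ← hz_sum, ← hz_sum, List.map_append, List.map_append, ← sdA_rot, ← sdB_rot,
      ← hgt_rot] at h1
    exact h1

end Pool.Agent.KLog
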