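import Pool.Agent.KLog.NoForm

/-! KL28: sequences without a power law. -/

set_option autoImplicit false

open Filter Topology

namespace Pool.Agent.KLog

variable {U Z : ℕ → ℝ} {z μ c C : ℝ}

private theorem power_inj : Function.Injective fun k : ℕ => 2 * k := fun a b h => by
  simpa using h

/-- A function that vanishes at the odd numbers. -/
private theorem summable_even {f : ℕ → ℝ} (hodd : ∀ n, ¬ Even n → f n = 0)
    (h : Summable fun k : ℕ => f (2 * k)) : Summable f := by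
  refine (power_inj.summable_iff ?_).1 h
  intro n hn
  refine hodd n fun he => hn ?_
  obtain ⟨m, hm⟩ := he
  exact ⟨m, by simp only; omega⟩

/-- The growth rate is the inverse of the critical point. -/
theorem mu_eq (hz : 0 < z) (hμ : 0 < μ) (hU : ∀ n, 0 ≤ U n) (hodd : ∀ n, ¬ Even n → U n = 0)
    (hlim : Tendsto (fun k : ℕ => U (2 * k) ^ (((2 * k : ℕ) : ℝ)⁻¹)) atTop (𝓝 μ))
    (h1 : Summable fun n : ℕ => U n * z ^ n)
    (h2 : ¬ Summable fun n : ℕ => Real.log n ^ 2 * (U n * z ^ n)) : μ = z⁻¹ := by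
  have key : ∀ k : ℕ, 1 ≤ k → (U (2 * k) ^ (((2 * k : ℕ) : ℝ)⁻¹) * z) ^ (2 * k) =
      U (2 * k) * z ^ (2 * k) := by
    intro k hk
    rw [mul_pow, ← Real.rpow_natCast (U (2 * k) ^ (((2 * k : ℕ) : ℝ)⁻¹)),
      ← Real.rpow_mul (hU _), inv_mul_cancel₀, Real.rpow_one]
    exact_mod_cast (by omega : 2 * k ≠ 0)
  have hlim' := hlim.mul_const z
  have hn : ∀ k : ℕ, 0 ≤ U (2 * k) ^ (((2 * k : ℕ) : ℝ)⁻¹) * z := fun k =>
    mul_nonneg (Real.rpow_nonneg (hU _) _) hz.le
  rcases lt_trichotomy (μ * z) 1 with h | h | h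
  · exfalso
    obtain ⟨θ, hθ1, hθ2⟩ := exists_between h
    have hθ0 : 0 < θ := (mul_pos hμ hz).trans hθ1
    apply h2
    refine summable_even (fun n hn => by rw [hodd n hn]; ring) ?_
    have h3 : Summable fun k : ℕ => ((2 * k : ℕ) : ℝ) ^ (0 : ℝ) * (θ ^ 2) ^ k := by
      simp only [Real.rpow_zero, one_mul]
      exact summable_geometric_of_lt_one (by positivity) (by nlinarith)
    have h4 := summable_log (by positivity) h3
    refine Summable.of_norm_bounded_eventually_nat h4 ?_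
    filter_upwards [hlim'.eventually (gt_mem_nhds hθ1), eventually_ge_atTop 1] with k hk hk1
    have h5 : U (2 * k) * z ^ (2 * k) ≤ (θ ^ 2) ^ k := by
      rw [← key k hk1, ← pow_mul]
      exact pow_le_pow_left₀ (hn k) hk.le _
    have h6 : 0 ≤ U (2 * k) * z ^ (2 * k) := mul_nonneg (hU _) (by positivity)
    rw [Real.norm_of_nonneg (by positivity), Real.rpow_zero, one_mul]
    exact mul_le_mul_of_nonneg_left h5 (by positivity)
  · exact eq_inv_of_mul_eq_one_left h
  · exfalso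
    have h3 := (h1.comp_injective power_inj).tendsto_atTop_zero
    have h4 : ∀ᶠ k : ℕ in atTop, U (2 * k) * z ^ (2 * k) < 1 :=
      h3.eventually (gt_mem_nhds one_pos)
    obtain ⟨k, hk1, hk2, hk3⟩ := (h4.and ((hlim'.eventually (lt_mem_nhds h)).and
      (eventually_ge_atTop 1))).exists
    rw [← key k hk3] at hk1
    exact absurd hk1 (not_lt.2 (one_le_pow₀ hk2.le))

/-- **No power law.** -/
theorem no_power (hz : 0 < z) (hU : ∀ n, 0 ≤ U n) (hodd : ∀ n, ¬ Even n → U n = 0)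
    (h1 : Summable fun n : ℕ => U n * z ^ n)
    (h2 : ¬ Summable fun n : ℕ => Real.log n ^ 2 * (U n * z ^ n)) (N : ℕ) (hc : 0 < c)
    (hlo : ∀ᶠ n : ℕ in atTop, Even n → c * (n : ℝ) ^ N * U n ≤ Z n)
    (hup : ∀ᶠ n : ℕ in atTop, Even n → Z n ≤ C * (n : ℝ) ^ N * U n)
    {A ν β : ℝ} (hA : 0 < A) (hν : 0 < ν) :
    ¬ Tendsto (fun k : ℕ => Z (2 * k) / (((2 * k : ℕ) : ℝ) ^ β * ν ^ (2 * k))) atTop (𝓝 A) := by
  intro hlim
  set Z' : ℕ → ℝ := fun n => if Even n then Z n else 0 with hZ'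
  have hev : ∀ k : ℕ, Z' (2 * k) = Z (2 * k) := fun k => by
    rw [hZ']
    exact if_pos (even_two_mul k)
  obtain ⟨n0, hn0⟩ := (hlo.and hup).exists_forall_of_atTop
  refine no_form (U := U) (Z := Z') hz hU hodd h1 (by simpa only [mul_assoc] using h2) (N := N)
    (n0 := n0) (C := C) hc (fun n hn => ?_) (fun n hn => ?_)
    ⟨A, β + 3, ν, hA, hν, ?_⟩
  · by_cases he : Even n
    · rw [hZ']
      simp only [if_pos he]
      exact (hn0 n hn).1 he
    · rw [hZ', hodd n he]
      simp [he]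
  · by_cases he : Even n
    · rw [hZ']
      simp only [if_pos he]
      exact (hn0 n hn).2 he
    · rw [hZ', hodd n he]
      simp [he]
  · simp only [hev, add_sub_cancel_right]
    exact hlim

end Pool.Agent.KLog
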