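import Pool.Agent.KLog.Sums
import Pool.Agent.KLog.Power

/-! KL29: the theorem. -/

set_option autoImplicit false

open Pool.Agent.LK Filter Topology

namespace Pool.Agent.KLog

open Pool.Agent.KTube Pool.Agent.KRing
open Pool.Agent.KTen (Zt)

/-- **Stretched polygons have no power law.** -/
theorem main {y : ℝ} (hy : 10 ^ 8 ≤ y) :
    (∃ μ : ℝ, 0 < μ ∧
      Tendsto (fun k : ℕ => Zt y UClass (2 * k) ^ (((2 * k : ℕ) : ℝ)⁻¹)) atTop (𝓝 μ) ∧
      Summable (fun n : ℕ => Zt y UClass n / μ ^ n) ∧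
      ¬ Summable (fun n : ℕ => Real.log n ^ 2 * (Zt y UClass n / μ ^ n))) ∧
    ∀ K : Finset (Sym2 P3), IsPolygon K → (Unknotted K ∨ PrimeKnot K) →
      ∀ A α ν : ℝ, 0 < A → 0 < ν →
        ¬ Tendsto (fun k : ℕ => Zt y (KClass K) (2 * k) /
          (((2 * k : ℕ) : ℝ) ^ (α - 3) * ν ^ (2 * k))) atTop (𝓝 A) := by
  have hy0 : (0 : ℝ) ≤ y := le_trans (by norm_num) hy
  have hy1 : (4096 : ℝ) ≤ y := le_trans (by norm_num) hy
  obtain ⟨⟨μ, hμ, hlim, -⟩, hfew, hlow⟩ := KRing.main hy1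
  obtain ⟨z, hz, h1, h2⟩ := main_sums hy
  have hU : ∀ n, 0 ≤ Zt y UClass n := fun n => KTen.zt_nonneg hy0 _ n
  have hodd : ∀ n, ¬ Even n → Zt y UClass n = 0 := fun n hn => KTen.u_odd hn _ _
  have hμz : μ = z⁻¹ := mu_eq hz hμ hU hodd hlim h1 h2
  have hdiv : ∀ n : ℕ, Zt y UClass n / μ ^ n = Zt y UClass n * z ^ n := fun n => by
    rw [hμz, inv_pow, div_inv_eq_mul]
  refine ⟨⟨μ, hμ, hlim, ?_, ?_⟩, fun K hK hC A α ν hA hν => ?_⟩
  · simpa only [hdiv] using h1
  · simpa only [hdiv] using h2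
  · by_cases uK : Unknotted K
    · simp only [zt_kclass_unknotted uK]
      refine no_power (U := fun n => Zt y UClass n) (Z := fun n => Zt y UClass n) (c := 1) (C := 1)
        hz hU hodd h1 h2 0 one_pos ?_ ?_ hA hν
      · exact Eventually.of_forall fun n _ => by simp
      · exact Eventually.of_forall fun n _ => by simp
    · have hF : KTen.Few 1 K := (KTen.primeKnot_iff.1 (hC.resolve_left uK)).2.2
      obtain ⟨D, hD⟩ := hfew 1
      obtain ⟨δ, hδ, n0, hn0⟩ := hlow K hK uK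
      refine no_power (U := fun n => Zt y UClass n) (Z := fun n => Zt y (KClass K) n) (c := δ)
        (C := D) hz hU hodd h1 h2 1 hδ ?_ ?_ hA hν
      · filter_upwards [eventually_ge_atTop n0] with n hn _
        rw [pow_one]
        exact hn0 n hn
      · exact Eventually.of_forall fun n _ =>
          (KTen.zt_mono hy0 (fun E _ hE => KTen.hinv_few 1 K E hE.2 hF) n).trans (hD n)

end Pool.Agent.KLog
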