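import Mathlib

/-! Kernels on `ℤ² \ 0` that are translation invariant far from the origin. -/

set_option autoImplicit false

open scoped ENNReal

namespace Pool.Agent.KLog

/-- The `l¹` norm. -/
def nrm (v : ℤ × ℤ) : ℕ := v.1.natAbs + v.2.natAbs

/-- The square of the Euclidean norm. -/
def nsq (v : ℤ × ℤ) : ℤ := v.1 ^ 2 + v.2 ^ 2

/-- Rotation by a quarter turn. -/
def rt (v : ℤ × ℤ) : ℤ × ℤ := (-v.2, v.1)

/-- A kernel on `ℤ² \ 0`: the elements `p` with `V v p` lead from `v` to `v + u p` and have the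
weight `wt p`; `l p` is the size, `Fr` are the elements that are allowed far from the origin, `Bas`
are the basic elements. -/
structure Ker (P : Type) where
  wt : P → ℝ≥0∞
  l : P → ℕ
  u : P → ℤ × ℤ
  V : ℤ × ℤ → P → Prop
  Fr : P → Prop
  Bas : P → Prop
  q : ℝ
  z : ℝ

/-- The operator of the kernel. -/
noncomputable def Ker.B {P : Type} (κ : Ker P) (f : ℤ × ℤ → ℝ≥0∞) (v : ℤ × ℤ) : ℝ≥0∞ :=
  ∑' p : {p // κ.V v p}, κ.wt p.1 * f (v + κ.u p.1)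

/-- `f` killed at the origin. -/
noncomputable def kill (f : ℤ × ℤ → ℝ≥0∞) (v : ℤ × ℤ) : ℝ≥0∞ := if v = 0 then 0 else f v

/-- The sum over the four neighbours. -/
noncomputable def nb (f : ℤ × ℤ → ℝ≥0∞) (v : ℤ × ℤ) : ℝ≥0∞ :=
  f (v + (1, 0)) + f (v + (-1, 0)) + f (v + (0, 1)) + f (v + (0, -1))

/-- The hypotheses on the kernel. -/
structure Ker.Ok {P : Type} (κ : Ker P) : Prop where
  z_pos : 0 < κ.z
  z_le : κ.z ≤ 1 / 10 ^ 4
  q_pos : 0 < κ.q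
  /-- The displacement is at most the size. -/
  u_le : ∀ p, (κ.Fr p ∨ ∃ v, κ.V v p) → nrm (κ.u p) ≤ κ.l p
  /-- Far from the origin an element is allowed iff it is free. -/
  far : ∀ v p, κ.l p < nrm v → (κ.V v p ↔ κ.Fr p)
  /-- The basic elements at `v`: no step (weight `q`), two for each unit step that does not lead to
  the origin (weight `q z`). -/
  bas_V : ∀ v, v ≠ 0 → ∀ f : ℤ × ℤ → ℝ≥0∞,
    ∑' p : {p // κ.Bas p ∧ κ.V v p}, κ.wt p.1 * f (v + κ.u p.1) =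
      ENNReal.ofReal κ.q * f v + ENNReal.ofReal (2 * κ.q * κ.z) * nb (kill f) v
  /-- The free basic elements. -/
  bas_F : ∀ f : ℤ × ℤ → ℝ≥0∞,
    ∑' p : {p // κ.Bas p ∧ κ.Fr p}, κ.wt p.1 * f (κ.u p.1) =
      ENNReal.ofReal κ.q * f 0 + ENNReal.ofReal (2 * κ.q * κ.z) * nb f 0
  bas_l : ∀ p, κ.Bas p → κ.l p ≤ 1
  /-- All the other elements together are small. -/
  rest : ∑' p : {p // ¬ κ.Bas p ∧ (κ.Fr p ∨ ∃ v, κ.V v p)}, κ.wt p.1 * 4 ^ κ.l p.1 ≤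
    ENNReal.ofReal (κ.z / 4)
  /-- Criticality. -/
  one : ∑' p : {p // κ.Fr p}, κ.wt p.1 = 1
  /-- The free elements are invariant under rotation. -/
  rot : ∃ σ : {p // κ.Fr p} ≃ {p // κ.Fr p}, ∀ p, κ.wt (σ p).1 = κ.wt p.1 ∧
    κ.l (σ p).1 = κ.l p.1 ∧ κ.u (σ p).1 = rt (κ.u p.1)

/-- A sequence of measures on `ℤ² \ 0` driven by the kernel. -/
structure Seq {P : Type} (κ : Ker P) (M : ℕ → ℤ × ℤ → ℝ≥0∞) : Prop where
  zero : ∀ n, M n 0 = 0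
  step : ∀ n (f : ℤ × ℤ → ℝ≥0∞), ∑' v, M (n + 1) v * f v = ∑' v, M n v * κ.B f v
  fin : ∑' v, M 0 v * 4 ^ nrm v ≠ ⊤
  pos : ∀ v, v ≠ 0 → M 0 v ≠ 0

/-- The superharmonic function. -/
noncomputable def hh (v : ℤ × ℤ) : ℝ≥0∞ := ENNReal.ofReal (1 - (1 / 4) ^ nrm v)

/-- The subharmonic function. -/
noncomputable def gg (K : ℝ) (v : ℤ × ℤ) : ℝ≥0∞ := ENNReal.ofReal (Real.log (nsq v + 1) - K)

/-- The square of the norm. -/
noncomputable def sq (v : ℤ × ℤ) : ℝ≥0∞ := ENNReal.ofReal (nsq v)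

end Pool.Agent.KLog
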