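import Pool.Agent.KLog.WordSum

/-! KL23: the sum over the lower halves without sections with two edges. -/

set_option autoImplicit false

open Pool.Agent.LK
open scoped ENNReal

namespace Pool.Agent.KLog

open Pool.Agent.KTube Pool.Agent.KRing

variable {y z : ℝ}

private theorem nrm_add (u v : ℤ × ℤ) : nrm (u + v) ≤ nrm u + nrm v := by
  unfold nrm
  have h1 := Int.natAbs_add_le u.1 v.1
  have h2 := Int.natAbs_add_le u.2 v.2
  simp only [Prod.fst_add, Prod.snd_add]
  omega

private theorem nrm_disp (x : List Letter) : nrm (disp x) ≤ stp x := by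
  induction x with
  | nil => simp [nrm]
  | cons c x ih =>
    rw [disp_cons]
    refine (nrm_add _ _).trans ?_
    cases c with
    | none => simpa [nrm] using ih
    | some d =>
      rw [stp_some]
      have : nrm (lv (some d)) = 1 := by
        fin_cases d <;> rfl
      omega

/-- The word of a half. -/
private theorem exists_word {v : ℤ × ℤ} {l : List P3} (h : Half 0 v l) :
    ∃ s : List P3, NR s ∧ l = (wk (0, 0, 0) s).reverse ∧ nrm v ≤ stp (lets s) ∧
      4 * lspan l ≤ brk (lets s) ∧ l.length = brk (lets s) + stp (lets s) + 1 := by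
  obtain ⟨⟨hne, hl, r, hr, -⟩, hn⟩ := h
  have hhead : l.reverse.head? = some ((0, 0, 0) : P3) := by
    rw [List.head?_reverse]
    exact hl.last
  obtain ⟨s, hs⟩ := exists_wk l.reverse _ hhead
  have hsteps : Steps s := by
    have h1 : l.reverse.IsChain Adj := by
      rw [List.isChain_reverse]
      exact hl.chain.imp fun _ _ h => h.symm
    rw [hs, chain_wk] at h1
    exact h1
  have hnd : (wk (0, 0, 0) s).Nodup := by
    rw [← hs, List.nodup_reverse]
    exact hl.nodup
  have hlast : ((0, 0, 0) : P3) + s.sum = (v.1, v.2, 0) := by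
    have h1 : l.reverse.getLast? = some (v.1, v.2, 0) := by
      rw [List.getLast?_reverse]
      exact hl.head
    rw [hs, last_wk] at h1
    exact Option.some.inj h1
  have hsum := sum_of_lets hsteps
  have hv : v = disp (lets s) := by
    refine Prod.ext ?_ ?_
    · rw [← hsum.1]
      have := congrArg Prod.fst hlast
      simpa using this.symm
    · rw [← hsum.2]
      have := congrArg (fun p : P3 => p.2.1) hlast
      simpa using this.symm
  refine ⟨s, nr_of_nodup hsteps hnd, ?_, ?_, ?_, ?_⟩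
  · rw [← hs, List.reverse_reverse]
  · rw [hv]
    exact nrm_disp _
  · refine lower_height hne hr hl hs hsteps ?_
    intro j hj h2
    have h3 : {c | leg c j ∈ LatticeTube.pedges l}.ncard = 2 := by
      have h4 : {c | leg c j ∈ LatticeTube.pedges l} = cross (ring (r ++ l)) j := by
        ext c
        exact (cross_ring_low hr hl hj).symm
      rw [h4]
      exact h2
    have h5 : {j : ℤ | {c | leg c j ∈ LatticeTube.pedges l}.ncard = 2}.Finite := by
      refine (planes_finite' l).subset ?_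
      intro i hi
      have h6 : {c | leg c i ∈ LatticeTube.pedges l}.Nonempty := by
        refine Set.nonempty_of_ncard_ne_zero ?_
        rw [hi]
        norm_num
      exact h6
    have h7 : {j : ℤ | {c | leg c j ∈ LatticeTube.pedges l}.ncard = 2} = ∅ :=
      (Set.ncard_eq_zero h5).1 hn
    have h8 : j ∈ {j : ℤ | {c | leg c j ∈ LatticeTube.pedges l}.ncard = 2} := h3
    rw [h7] at h8
    exact h8
  · have h1 : l.length = l.reverse.length := (List.length_reverse).symm
    rw [h1, hs, length_wk, ← length_lets s, length_eq]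

/-- The weight of a half. -/
private theorem weight_le (hy : 0 < y) (hz : 0 < z) (hz1 : z ≤ 1 / 10 ^ 4) (hq : y * z ^ 2 ≤ 1)
    {L b n m : ℕ} (hL : 4 * L ≤ b) (hm : m ≤ n) :
    (ENNReal.ofReal y ^ L * ENNReal.ofReal z ^ (b + n + 1)) * 4 ^ m ≤
      ENNReal.ofReal (Real.sqrt z) ^ b * (4 * ENNReal.ofReal z) ^ n := by
  have hz2 : z ≤ 1 := hz1.trans (by norm_num)
  have hs0 : 0 < Real.sqrt z := Real.sqrt_pos.2 hz
  have hs1 : Real.sqrt z ≤ 1 := by
    rw [Real.sqrt_le_left (by norm_num)]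
    simpa using hz2
  have hss : Real.sqrt z ^ 2 = z := Real.sq_sqrt hz.le
  have key : y ^ L * z ^ b ≤ Real.sqrt z ^ b := by
    obtain ⟨c, rfl⟩ : ∃ c, b = 4 * L + c := ⟨b - 4 * L, by omega⟩
    have h1 : y ^ L * z ^ (4 * L + c) = (y * z ^ 2) ^ L * (z ^ (2 * L) * z ^ c) := by
      rw [mul_pow, ← pow_mul, pow_add]
      have : z ^ (4 * L) = z ^ (2 * L) * z ^ (2 * L) := by
        rw [← pow_add]
        congr 1
        omega
      rw [this]
      ring
    have h2 : z ^ (2 * L) * z ^ c ≤ Real.sqrt z ^ (4 * L + c) := by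
      rw [pow_add]
      have h3 : z ^ (2 * L) = Real.sqrt z ^ (4 * L) := by
        rw [show 4 * L = 2 * (2 * L) by omega, pow_mul (Real.sqrt z), hss]
      rw [h3]
      refine mul_le_mul_of_nonneg_left ?_ (by positivity)
      refine pow_le_pow_left₀ hz.le ?_ c
      calc z = Real.sqrt z * Real.sqrt z := (Real.mul_self_sqrt hz.le).symm
        _ ≤ Real.sqrt z * 1 := mul_le_mul_of_nonneg_left hs1 hs0.le
        _ = _ := mul_one _
    rw [h1]
    calc (y * z ^ 2) ^ L * (z ^ (2 * L) * z ^ c) ≤ 1 * (z ^ (2 * L) * z ^ c) := by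
          refine mul_le_mul_of_nonneg_right ?_ (by positivity)
          exact pow_le_one₀ (by positivity) hq
      _ ≤ _ := by rw [one_mul]; exact h2
  have h4 : (4 : ℝ≥0∞) = ENNReal.ofReal 4 := by
    rw [show (4 : ℝ) = ((4 : ℕ) : ℝ) by norm_num, ENNReal.ofReal_natCast]
    norm_num
  rw [h4, ← ENNReal.ofReal_pow hy.le, ← ENNReal.ofReal_pow hz.le,
    ← ENNReal.ofReal_mul (by positivity), ← ENNReal.ofReal_pow (by norm_num), ← ENNReal.ofReal_mul (by positivity),
    ← ENNReal.ofReal_pow hs0.le, ← ENNReal.ofReal_mul (by norm_num),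
    ← ENNReal.ofReal_pow (by positivity), ← ENNReal.ofReal_mul (by positivity)]
  refine ENNReal.ofReal_le_ofReal ?_
  have h5 : (4 : ℝ) ^ m ≤ 4 ^ n := pow_le_pow_right₀ (by norm_num) hm
  calc y ^ L * z ^ (b + n + 1) * 4 ^ m = (y ^ L * z ^ b) * z ^ n * z * 4 ^ m := by ring
    _ ≤ Real.sqrt z ^ b * z ^ n * 1 * 4 ^ n := by gcongr
    _ = _ := by rw [mul_pow]; ring

theorem cap_sum (hy : 0 < y) (hz : 0 < z) (hz1 : z ≤ 1 / 10 ^ 4) (hq : y * z ^ 2 ≤ 1) :
    ∑' v, MM (ENNReal.ofReal y) (ENNReal.ofReal z) 0 v * 4 ^ nrm v ≠ ⊤ := by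
  classical
  choose! W hW1 hW2 hW3 hW4 hW5 using fun (p : Σ v : ℤ × ℤ, {l // Half 0 v l}) =>
    exists_word p.2.2
  let F : (Σ n : ℕ, {s : List P3 // NR s ∧ s.length = n}) → ℝ≥0∞ := fun q =>
    ENNReal.ofReal (Real.sqrt z) ^ brk (lets q.2.1) * (4 * ENNReal.ofReal z) ^ stp (lets q.2.1)
  let φ : (Σ v : ℤ × ℤ, {l // Half 0 v l}) → (Σ n : ℕ, {s : List P3 // NR s ∧ s.length = n}) :=
    fun p => ⟨(W p).length, ⟨W p, hW1 p, rfl⟩⟩
  have hφ : Function.Injective φ := by
    intro p p' h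
    have h1 : W p = W p' := by
      have : ∀ q q' : (Σ n : ℕ, {s : List P3 // NR s ∧ s.length = n}), q = q' → q.2.1 = q'.2.1 := by
        rintro q _ rfl
        rfl
      exact this _ _ h
    have h2 : p.2.1 = p'.2.1 := by rw [hW2 p, hW2 p', h1]
    obtain ⟨v, l, hl⟩ := p
    obtain ⟨v', l', hl'⟩ := p'
    simp only at h2
    subst h2
    have h3 := hl.1.2.1.head
    rw [hl'.1.2.1.head] at h3
    have h4 := Option.some.inj h3
    simp only [Prod.mk.injEq, and_true] at h4
    have h5 : v = v' := Prod.ext h4.1.symm h4.2.symm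
    subst h5
    rfl
  have h1 : ∑' v, MM (ENNReal.ofReal y) (ENNReal.ofReal z) 0 v * 4 ^ nrm v =
      ∑' p : (Σ v : ℤ × ℤ, {l // Half 0 v l}),
        wl (ENNReal.ofReal y) (ENNReal.ofReal z) p.2.1 * 4 ^ nrm p.1 := by
    rw [ENNReal.tsum_sigma']
    refine tsum_congr fun v => ?_
    unfold MM
    exact ENNReal.tsum_mul_right.symm
  have h2 : ∑' p : (Σ v : ℤ × ℤ, {l // Half 0 v l}),
      wl (ENNReal.ofReal y) (ENNReal.ofReal z) p.2.1 * 4 ^ nrm p.1 ≤ ∑' p, F (φ p) := by
    refine ENNReal.tsum_le_tsum fun p => ?_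
    unfold wl
    rw [hW5 p]
    exact weight_le hy hz hz1 hq (hW4 p) (hW3 p)
  have h3 : ∑' p, F (φ p) ≤ ∑' q, F q := ENNReal.tsum_comp_le_tsum_of_injective hφ F
  have h4 : ∑' q, F q ≤
      ∑' n : ℕ, 2 * (ENNReal.ofReal (Real.sqrt z) + 16 * (4 * ENNReal.ofReal z)) ^ n := by
    rw [ENNReal.tsum_sigma']
    exact ENNReal.tsum_le_tsum fun n => word_sum _ _ n
  rw [h1]
  refine ne_top_of_le_ne_top ?_ (h2.trans (h3.trans h4))
  rw [ENNReal.tsum_mul_left, ENNReal.tsum_geometric]
  refine ENNReal.mul_ne_top (by norm_num) ?_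
  rw [ENNReal.inv_ne_top]
  have h5 : Real.sqrt z ≤ 1 / 100 := by
    rw [Real.sqrt_le_left (by norm_num)]
    refine hz1.trans (le_of_eq ?_)
    norm_num
  have h6 : ENNReal.ofReal (Real.sqrt z) + 16 * (4 * ENNReal.ofReal z) < 1 := by
    have e4 : (4 : ℝ≥0∞) = ENNReal.ofReal 4 := by
      rw [show (4 : ℝ) = ((4 : ℕ) : ℝ) by norm_num, ENNReal.ofReal_natCast]
      norm_num
    have e16 : (16 : ℝ≥0∞) = ENNReal.ofReal 16 := by
      rw [show (16 : ℝ) = ((16 : ℕ) : ℝ) by norm_num, ENNReal.ofReal_natCast]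
      norm_num
    rw [e4, e16, ← ENNReal.ofReal_mul (by norm_num), ← ENNReal.ofReal_mul (by norm_num),
      ← ENNReal.ofReal_add (Real.sqrt_nonneg z) (by positivity), ← ENNReal.ofReal_one]
    rw [ENNReal.ofReal_lt_ofReal_iff (by norm_num)]
    nlinarith
  exact (tsub_pos_of_lt h6).ne'

end Pool.Agent.KLog
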