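import Pool.Agent.KLog.Defs

/-! KL26: the generating function in terms of the numbers of sections. -/

set_option autoImplicit false

open Pool.Agent.LK
open scoped ENNReal

namespace Pool.Agent.KLog

open Pool.Agent.KTube Pool.Agent.KRing
open Pool.Agent.KTen (Zt)

variable {y z : ℝ}

private theorem tsum_classes {α : Type} (P : α → Prop) (k : α → ℕ) (f : α → ℝ≥0∞) :
    ∑' n : ℕ, ∑' E : {E | P E ∧ k E = n}, f E.1 = ∑' E : {E | P E}, f E.1 := by
  rw [← ENNReal.tsum_fiberwise (fun E : {E | P E} => f E.1) (fun E => k E.1)]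
  refine tsum_congr fun n => ?_
  let e : {E | P E ∧ k E = n} ≃ ((fun E : {E | P E} => k E.1) ⁻¹' {n}) :=
    { toFun := fun E => ⟨⟨E.1, E.2.1⟩, E.2.2⟩
      invFun := fun E => ⟨E.1.1, E.1.2, E.2⟩
      left_inv := fun E => rfl
      right_inv := fun E => rfl }
  exact e.tsum_eq (fun E : ((fun E : {E | P E} => k E.1) ⁻¹' {n}) => f E.1.1)

private theorem zt_tsum (hy : 0 ≤ y) (hz : 0 ≤ z) (n : ℕ) :
    ENNReal.ofReal (Zt y UClass n * z ^ n) =
      ∑' E : KTen.NSet UClass n, ENNReal.ofReal y ^ span E.1 * ENNReal.ofReal z ^ E.1.card := by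
  classical
  set X := (KTen.nset_finite UClass n).toFinset with hX
  have hset : KTen.NSet UClass n = ↑X := by rw [hX, Set.Finite.coe_toFinset]
  rw [zt_sum, ← hX, Finset.sum_mul,
    ENNReal.ofReal_sum_of_nonneg fun E _ => mul_nonneg (pow_nonneg hy _) (pow_nonneg hz _)]
  rw [tsum_congr_set_coe (fun E : Finset (Sym2 P3) => ENNReal.ofReal y ^ span E *
    ENNReal.ofReal z ^ E.card) hset]
  have h := Finset.tsum_subtype X (fun E : Finset (Sym2 P3) => ENNReal.ofReal y ^ span E *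
    ENNReal.ofReal z ^ E.card)
  refine Eq.trans ?_ h.symm
  refine Finset.sum_congr rfl fun E hE => ?_
  have hE' : E ∈ KTen.NSet UClass n := by
    rw [hX, Set.Finite.mem_toFinset] at hE
    exact hE
  rw [ENNReal.ofReal_mul (pow_nonneg hy _), ENNReal.ofReal_pow hy, ENNReal.ofReal_pow hz,
    hE'.2.2.2]

/-- With an arbitrary weight for the number of edges. -/
theorem gen_eq (hy : 0 ≤ y) (hz : 0 ≤ z) (g : ℕ → ℝ≥0∞) :
    ∑' n : ℕ, g n * ENNReal.ofReal (Zt y UClass n * z ^ n) =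
      ∑' N, ∑' E : PN N, g E.1.card * (ENNReal.ofReal y ^ span E.1 *
        ENNReal.ofReal z ^ E.1.card) := by
  set f : Finset (Sym2 P3) → ℝ≥0∞ := fun E => g E.card * (ENNReal.ofReal y ^ span E *
    ENNReal.ofReal z ^ E.card) with hf
  set P : Finset (Sym2 P3) → Prop := fun E => IsPolygon E ∧ Unknotted E ∧ Normed E with hP
  have h1 : ∀ n : ℕ, g n * ENNReal.ofReal (Zt y UClass n * z ^ n) =
      ∑' E : {E | P E ∧ E.card = n}, f E.1 := by
    intro n
    rw [zt_tsum hy hz, ← ENNReal.tsum_mul_left]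
    have hset : KTen.NSet UClass n = {E | P E ∧ E.card = n} := by
      ext E
      constructor
      · rintro ⟨a, b, c, d⟩
        exact ⟨⟨a, b.2, c⟩, d⟩
      · rintro ⟨⟨a, b, c⟩, d⟩
        exact ⟨a, ⟨a, b⟩, c, d⟩
    rw [← tsum_congr_set_coe f hset]
    refine tsum_congr fun E => ?_
    rw [hf]
    simp only
    rw [E.2.2.2.2]
  have h2 : ∀ N : ℕ, ∑' E : PN N, g E.1.card * (ENNReal.ofReal y ^ span E.1 *
      ENNReal.ofReal z ^ E.1.card) = ∑' E : {E | P E ∧ {k : ℤ | IsTwo E k}.ncard = N}, f E.1 := by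
    intro N
    have hset : PN N = {E | P E ∧ {k : ℤ | IsTwo E k}.ncard = N} := by
      ext E
      constructor
      · rintro ⟨a, b, c, d⟩
        exact ⟨⟨a, b, c⟩, d⟩
      · rintro ⟨⟨a, b, c⟩, d⟩
        exact ⟨a, b, c, d⟩
    rw [← tsum_congr_set_coe f hset]
  rw [tsum_congr h1, tsum_congr h2, tsum_classes P (fun E => E.card) f,
    tsum_classes P (fun E => {k : ℤ | IsTwo E k}.ncard) f]

/-- The polygons without two-sections. -/
theorem un_zero (hy : 0 < y) (hz : 0 < z) (hz1 : z ≤ 1 / 10 ^ 4) (hq : y * z ^ 2 ≤ 1) :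
    UN (ENNReal.ofReal y) (ENNReal.ofReal z) 0 ≠ ⊤ := by
  classical
  obtain ⟨x, hx1, hxy, hxz⟩ : ∃ x : ℝ, 1 ≤ x ∧ y ≤ x ^ 4 ∧ x ^ 4 * z ^ 2 ≤ 1 := by
    have hm : (1 : ℝ) ≤ max 1 y := le_max_left _ _
    have e4 : (max 1 y ^ (1 / 4 : ℝ)) ^ 4 = max 1 y := by
      rw [← Real.rpow_natCast, ← Real.rpow_mul (by linarith)]
      norm_num
    refine ⟨max 1 y ^ (1 / 4 : ℝ), Real.one_le_rpow hm (by norm_num), ?_, ?_⟩
    · rw [e4]
      exact le_max_right _ _
    · rw [e4]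
      rcases max_choice 1 y with h | h
      · rw [h, one_mul]
        nlinarith
      · rw [h]
        exact hq
  have hx0 : 0 < x := by linarith
  have h2 : x ^ 2 * z ≤ 1 := by
    by_contra h
    push Not at h
    nlinarith
  have h3 : x * z ≤ 1 / 10 ^ 2 := by
    by_contra h
    push Not at h
    have h4 : (x * z) ^ 2 ≤ z := by
      have : (x * z) ^ 2 = x ^ 2 * z * z := by ring
      rw [this]
      nlinarith
    nlinarith
  have hw : (x + 3) * z + 5 * x * z ^ 2 < 1 := by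
    have e : (x + 3) * z + 5 * x * z ^ 2 = x * z + 3 * z + 5 * (x * z) * z := by ring
    rw [e]
    have h5 : (x * z) * z ≤ 1 / 10 ^ 2 * (1 / 10 ^ 4) :=
      mul_le_mul h3 hz1 hz.le (by norm_num)
    nlinarith
  have hsum := KTen.words_Z3 hx1 hz hw
  refine ne_top_of_le_ne_top hsum.tsum_ofReal_ne_top ?_
  have hmem : ∀ E : PN 0, (IsPolygon E.1 ∧ Normed E.1) := fun E => ⟨E.2.1, E.2.2.2.1⟩
  let φ : PN 0 → KTen.NPoly := fun E => ⟨E.1, hmem E⟩
  have hφ : Function.Injective φ := by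
    intro E F h
    exact Subtype.ext (congrArg (fun x : KTen.NPoly => x.1) h)
  refine le_trans ?_ (ENNReal.tsum_comp_le_tsum_of_injective hφ
    (fun E : KTen.NPoly => ENNReal.ofReal (z ^ E.1.card * x ^ LatticeTube.vert E.1)))
  unfold UN
  refine ENNReal.tsum_le_tsum fun E => ?_
  rw [← ENNReal.ofReal_pow hy.le, ← ENNReal.ofReal_pow hz.le,
    ← ENNReal.ofReal_mul (pow_nonneg hy.le _)]
  refine ENNReal.ofReal_le_ofReal ?_
  have hE := E.2
  have h5 : 4 * span E.1 ≤ LatticeTube.vert E.1 + 2 * {k : ℤ | IsTwo E.1 k}.ncard :=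
    LatticeTube.sectionStatement.1 E.1 hE.1
  rw [hE.2.2.2, mul_zero, add_zero] at h5
  have h6 : y ^ span E.1 ≤ x ^ LatticeTube.vert E.1 :=
    calc y ^ span E.1 ≤ (x ^ 4) ^ span E.1 := pow_le_pow_left₀ hy.le hxy _
      _ = x ^ (4 * span E.1) := by rw [← pow_mul]
      _ ≤ x ^ LatticeTube.vert E.1 := pow_le_pow_right₀ hx1 h5
  calc y ^ span E.1 * z ^ E.1.card ≤ x ^ LatticeTube.vert E.1 * z ^ E.1.card :=
        mul_le_mul_of_nonneg_right h6 (pow_nonneg hz.le _)
    _ = z ^ (φ E).1.card * x ^ LatticeTube.vert (φ E).1 := by rw [mul_comm]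

/-- A polygon with `N` sections with two edges has at least `2 N` edges. -/
theorem card_ge {N : ℕ} {E : Finset (Sym2 P3)} (hE : E ∈ PN N) : 2 * N ≤ E.card := by
  have h1 := KTen.numTwo_le hE.1
  have h2 := KTen.two_span_le hE.1
  have h3 := KTen.card_eq hE.1
  have h4 : KTen.numTwo E = N := hE.2.2.2
  omega

end Pool.Agent.KLog
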