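import Pool.Agent.KLog.GeoFar
import Pool.Agent.KLog.Caps

/-! KL20: the basic pairs. -/

set_option autoImplicit false

open Pool.Agent.LK
open scoped ENNReal

namespace Pool.Agent.KLog

open Pool.Agent.KTube Pool.Agent.KRing

variable {v : ℤ × ℤ} {π : PP} {y z : ℝ}

/-- The unit vectors. -/
def e4 : Fin 4 → ℤ × ℤ := ![(1, 0), (-1, 0), (0, 1), (0, -1)]

/-- The horizontal steps. -/
def st4 (i : Fin 4) : P3 := ((e4 i).1, (e4 i).2, 0)

private theorem hgt_nil : hgt ([], []) = 1 := rfl

private theorem hgt_left (i : Fin 4) : hgt ([st4 i], []) = 1 := by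
  simp [hgt, st4]

private theorem hgt_right (i : Fin 4) : hgt ([], [st4 i]) = 1 := by
  simp [hgt]

private theorem hz_left (i : Fin 4) : hz [st4 i].sum = e4 i := by
  simp [hz, st4]

private theorem hz_nil : hz ([] : List P3).sum = 0 := rfl

private theorem isStep_st4 (i : Fin 4) : IsStep (st4 i) := by
  fin_cases i <;> simp [st4, e4, IsStep]

private theorem e4_ne (i : Fin 4) : e4 i ≠ 0 := by
  fin_cases i <;> simp [e4]

/-- A block with one level is unknotted. -/
private theorem unk_of_one (hg : Geo v π) (h1 : hgt π = 1) : Unk v π := by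
  obtain ⟨l, hl, -⟩ := exists_flat hg.ne
  have hb := hg.block
  have hne : hz π.1.sum ≠ v + hz π.2.sum := by
    intro h
    have hA := List.mem_of_getLast? hb.lastA
    have hB := List.mem_of_head? hb.headB
    rw [h] at hA
    exact hb.disj _ hA hB
  obtain ⟨r, hr⟩ := exists_UU' (k := hgt π) hne
  rw [unk_iff hg hl hr, ← hb.ring_rotate hr.2.1 hl.2.1]
  refine hb.unknotted hr hl fun j hj hj' => ?_
  rw [h1] at hj'
  omega

theorem valid_nil : Valid v ([], []) ↔ v ≠ 0 := by
  refine ⟨fun h => h.1.ne, fun h => ?_⟩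
  have hg : Geo v ([], []) := by
    refine ⟨h, fun d hd => by simp at hd, fun d hd => by simp at hd, ?_, ?_⟩
    · rw [hgt_nil]
      refine ⟨by norm_num, by simp [sdA], by simp [sdB], ?_, by simp [sdA], by simp [sdB], ?_, ?_,
        ?_, ?_, ?_, ?_⟩
      · intro u hu hu'
        simp only [sdA, wk_nil, List.mem_singleton] at hu
        simp only [sdB, wk_nil, List.reverse_singleton, List.mem_singleton] at hu'
        subst hu
        simp only [Prod.mk.injEq] at hu'
        exact h (Prod.ext hu'.1.symm hu'.2.1.symm)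
      · simp [sdA]
      · simp [sdA, hz]
      · simp [sdB, hz]
      · simp [sdB]
      · intro u hu
        simp only [sdA, wk_nil, List.mem_singleton] at hu
        subst hu
        simp
      · intro u hu
        simp only [sdB, wk_nil, List.reverse_singleton, List.mem_singleton] at hu
        subst hu
        simp
    · intro j hj hj'
      rw [hgt_nil] at hj'
      omega
  exact ⟨hg, unk_of_one hg hgt_nil⟩

theorem valid_left (i : Fin 4) : Valid v ([st4 i], []) ↔ v ≠ 0 ∧ v ≠ e4 i := by
  constructor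
  · intro h
    refine ⟨h.1.ne, ?_⟩
    rintro rfl
    have hb := h.1.block
    have hA := List.mem_of_getLast? hb.lastA
    have hB := List.mem_of_head? hb.headB
    simp only [hz_left] at hA
    simp only [hz_nil, add_zero] at hB
    exact hb.disj _ hA hB
  · rintro ⟨h, h'⟩
    have hg : Geo v ([st4 i], []) := by
      refine ⟨h, fun d hd => ?_, fun d hd => by simp at hd, ?_, ?_⟩
      · simp only [List.mem_singleton] at hd
        rw [hd]
        exact isStep_st4 i
      · rw [hgt_left]
        have hs : sdA ([st4 i], []) = [(0, 0, 1), ((e4 i).1, (e4 i).2, 1)] := by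
          simp [sdA, st4]
        have hs' : sdB v ([st4 i], []) = [(v.1, v.2, 1)] := by simp [sdB]
        rw [hs, hs']
        refine ⟨by norm_num, ?_, by simp, ?_, ?_, by simp, ?_, ?_, ?_, ?_, ?_, ?_⟩
        · simp only [List.nodup_cons, List.mem_singleton, List.not_mem_nil, not_false_eq_true,
            List.nodup_nil, and_true, Prod.mk.injEq, not_and]
          intro h1 h2
          exact absurd (Prod.ext h1.symm h2.symm) (e4_ne i)
        · intro u hu hu'
          simp only [List.mem_singleton] at hu'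
          subst hu'
          simp only [List.mem_cons, Prod.mk.injEq, List.not_mem_nil, or_false, and_true] at hu
          rcases hu with ⟨h1, h2⟩ | ⟨h1, h2⟩
          · exact h (Prod.ext h1 h2)
          · exact h' (Prod.ext h1 h2)
        · have h1 : ((e4 i).1, (e4 i).2, (1 : ℤ)) = (0, 0, 1) + st4 i := by simp [st4]
          rw [h1]
          simp only [List.isChain_cons_cons, List.isChain_singleton, and_true]
          exact adj_add.2 (isStep_st4 i)
        · simp
        · simp only [hz_left]
          rfl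
        · simp [hz]
        · simp
        · intro u hu
          simp only [List.mem_cons, List.not_mem_nil, or_false] at hu
          rcases hu with rfl | rfl <;> simp
        · intro u hu
          simp only [List.mem_singleton] at hu
          subst hu
          simp
      · intro j hj hj'
        rw [hgt_left] at hj'
        omega
    exact ⟨hg, unk_of_one hg (hgt_left i)⟩

theorem valid_right (i : Fin 4) : Valid v ([], [st4 i]) ↔ v ≠ 0 ∧ v + e4 i ≠ 0 := by
  constructor
  · intro h
    refine ⟨h.1.ne, fun h' => ?_⟩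
    have hb := h.1.block
    have hA := List.mem_of_getLast? hb.lastA
    have hB := List.mem_of_head? hb.headB
    simp only [hz_left] at hB
    simp only [hz_nil] at hA
    rw [h'] at hB
    exact hb.disj _ hA hB
  · rintro ⟨h, h'⟩
    have hg : Geo v ([], [st4 i]) := by
      refine ⟨h, fun d hd => by simp at hd, fun d hd => ?_, ?_, ?_⟩
      · simp only [List.mem_singleton] at hd
        rw [hd]
        exact isStep_st4 i
      · rw [hgt_right]
        have hs : sdA ([], [st4 i]) = [(0, 0, 1)] := by simp [sdA]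
        have hs' : sdB v ([], [st4 i]) =
            [(v.1 + (e4 i).1, v.2 + (e4 i).2, 1), (v.1, v.2, 1)] := by simp [sdB, st4]
        rw [hs, hs']
        refine ⟨by norm_num, by simp, ?_, ?_, by simp, ?_, ?_, ?_, ?_, ?_, ?_, ?_⟩
        · simp only [List.nodup_cons, List.mem_singleton, List.not_mem_nil, not_false_eq_true,
            List.nodup_nil, and_true, Prod.mk.injEq, not_and]
          intro h1 h2
          exact absurd (Prod.ext (by simpa using h1) (by simpa using h2)) (e4_ne i)
        · intro u hu hu'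
          simp only [List.mem_singleton] at hu
          subst hu
          simp only [List.mem_cons, Prod.mk.injEq, List.not_mem_nil, or_false, and_true] at hu'
          rcases hu' with ⟨h1, h2⟩ | ⟨h1, h2⟩
          · exact h' (Prod.ext h1.symm h2.symm)
          · exact h (Prod.ext h1.symm h2.symm)
        · have h1 : (v.1 + (e4 i).1, v.2 + (e4 i).2, (1 : ℤ)) = (v.1, v.2, 1) + st4 i := by
            simp [st4]
          rw [h1]
          simp only [List.isChain_cons_cons, List.isChain_singleton, and_true]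
          exact (adj_add.2 (isStep_st4 i)).symm
        · simp
        · simp [hz]
        · simp only [hz_left]
          rfl
        · simp
        · intro u hu
          simp only [List.mem_singleton] at hu
          subst hu
          simp
        · intro u hu
          simp only [List.mem_cons, List.not_mem_nil, or_false] at hu
          rcases hu with rfl | rfl <;> simp
      · intro j hj hj'
        rw [hgt_right] at hj'
        omega
    exact ⟨hg, unk_of_one hg (hgt_right i)⟩

private theorem st4_of {d : P3} (hd : IsStep d) (h : brk (lets [d]) = 0) : ∃ i, d = st4 i := by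
  rcases hlet_cases hd with ⟨i, hi, hd', -⟩ | ⟨hi, -⟩
  · exact ⟨i, hd'⟩
  · simp [brk, hi] at h

private theorem len_eq (s : List P3) : s.length = brk (lets s) + stp (lets s) := by
  induction s with
  | nil => rfl
  | cons d s ih =>
    rw [List.length_cons, ih, lets_cons]
    cases h : hlet d with
    | none => rw [brk_none, stp_none]; omega
    | some i => rw [brk_some, stp_some]; omega

private theorem bas_cases (hA : Steps π.1) (hB : Steps π.2) (h : Bas π) : π = ([], []) ∨
    (∃ i, π = ([st4 i], [])) ∨ ∃ i, π = ([], [st4 i]) := by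
  obtain ⟨s, t⟩ := π
  obtain ⟨h1, h2⟩ := h
  simp only [nv, nh] at h1 h2 hA hB
  have hs := len_eq s
  have ht := len_eq t
  match s, t, hA, hB, hs, ht, h1, h2 with
  | [], [], _, _, _, _, _, _ => exact Or.inl rfl
  | [d], [], hA, _, _, _, h1, _ =>
    obtain ⟨i, hi⟩ := st4_of (hA d (by simp)) (by omega)
    exact Or.inr (Or.inl ⟨i, by rw [hi]⟩)
  | [], [d], _, hB, _, _, h1, _ =>
    obtain ⟨i, hi⟩ := st4_of (hB d (by simp)) (by omega)
    exact Or.inr (Or.inr ⟨i, by rw [hi]⟩)
  | d :: d' :: s, t, _, _, hs, ht, h1, h2 =>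
    simp only [List.length_cons] at hs
    omega
  | s, d :: d' :: t, _, _, hs, ht, h1, h2 =>
    simp only [List.length_cons] at ht
    omega
  | d :: s, d' :: t, _, _, hs, ht, h1, h2 =>
    simp only [List.length_cons] at hs ht
    omega

private theorem bas_nil : Bas ([], []) := ⟨rfl, by simp [nh, stp]⟩

private theorem lets_st4 (i : Fin 4) : lets [st4 i] = [some i] := by
  fin_cases i <;> decide

private theorem bas_left (i : Fin 4) : Bas ([st4 i], []) := by
  refine ⟨?_, ?_⟩
  · simp only [nv, lets_st4, lets_nil]; rfl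
  · simp only [nh, lets_st4, lets_nil]; exact le_refl _

private theorem bas_right (i : Fin 4) : Bas ([], [st4 i]) := by
  refine ⟨?_, ?_⟩
  · simp only [nv, lets_st4, lets_nil]; rfl
  · simp only [nh, lets_st4, lets_nil]; exact le_refl _

/-- The basic valid pairs. -/
theorem bas_valid_iff : Bas π ∧ Valid v π ↔ (π = ([], []) ∧ v ≠ 0) ∨
    (∃ i, π = ([st4 i], []) ∧ v ≠ 0 ∧ v ≠ e4 i) ∨ ∃ i, π = ([], [st4 i]) ∧ v ≠ 0 ∧ v + e4 i ≠ 0 := by
  constructor
  · rintro ⟨h, hv⟩
    rcases bas_cases hv.1.stA hv.1.stB h with rfl | ⟨i, rfl⟩ | ⟨i, rfl⟩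
    · exact Or.inl ⟨rfl, valid_nil.1 hv⟩
    · exact Or.inr (Or.inl ⟨i, rfl, (valid_left i).1 hv⟩)
    · exact Or.inr (Or.inr ⟨i, rfl, (valid_right i).1 hv⟩)
  · rintro (⟨rfl, h⟩ | ⟨i, rfl, h⟩ | ⟨i, rfl, h⟩)
    · exact ⟨bas_nil, valid_nil.2 h⟩
    · exact ⟨bas_left i, (valid_left i).2 h⟩
    · exact ⟨bas_right i, (valid_right i).2 h⟩

private theorem far_left (i : Fin 4) : ((2, 2) : ℤ × ℤ) ≠ e4 i := by
  fin_cases i <;> simp [e4]

private theorem far_right (i : Fin 4) : ((2, 2) : ℤ × ℤ) + e4 i ≠ 0 := by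
  fin_cases i <;> simp [e4]

private theorem free_nil : Free ([], []) :=
  ⟨(2, 2), by simp [nh, stp, nrm], valid_nil.2 (by simp)⟩

private theorem free_left (i : Fin 4) : Free ([st4 i], []) :=
  ⟨(2, 2), lt_of_le_of_lt (bas_left i).2 (by simp [nrm]), (valid_left i).2
    ⟨by simp, far_left i⟩⟩

private theorem free_right (i : Fin 4) : Free ([], [st4 i]) :=
  ⟨(2, 2), lt_of_le_of_lt (bas_right i).2 (by simp [nrm]), (valid_right i).2
    ⟨by simp, far_right i⟩⟩

/-- The basic free pairs. -/
theorem bas_free_iff : Bas π ∧ Free π ↔ π = ([], []) ∨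
    (∃ i, π = ([st4 i], [])) ∨ ∃ i, π = ([], [st4 i]) := by
  constructor
  · rintro ⟨h, v, -, hv⟩
    exact bas_cases hv.1.stA hv.1.stB h
  · rintro (rfl | ⟨i, rfl⟩ | ⟨i, rfl⟩)
    · exact ⟨bas_nil, free_nil⟩
    · exact ⟨bas_left i, free_left i⟩
    · exact ⟨bas_right i, free_right i⟩

/-- The nine basic pairs. -/
private def nine : Option (Fin 4 ⊕ Fin 4) → PP
  | none => ([], [])
  | some (Sum.inl i) => ([st4 i], [])
  | some (Sum.inr i) => ([], [st4 i])

private theorem st4_inj : Function.Injective st4 := by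
  intro i j h
  revert h
  revert i j
  decide

private theorem nine_inj : Function.Injective nine := by
  rintro (_ | i | i) (_ | j | j) h <;> simp only [nine, Prod.mk.injEq, List.cons.injEq, and_true,
    reduceCtorEq, and_false, true_and] at h ⊢
  · rw [st4_inj h]
  · rw [st4_inj h]

private theorem sum_nine (g : PP → ℝ≥0∞) (S : PP → Prop) (hS : ∀ p, S p → p ∈ Set.range nine) :
    ∑' p : {p // S p}, g p.1 = {p | S p}.indicator g ([], []) +
      (∑ i, {p | S p}.indicator g ([st4 i], []) + ∑ i, {p | S p}.indicator g ([], [st4 i])) := by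
  have h1 : ∑' p : {p // S p}, g p.1 = ∑' p, {p | S p}.indicator g p :=
    tsum_subtype {p | S p} g
  have h2 : Function.support ({p | S p}.indicator g) ⊆ Set.range nine := by
    intro p hp
    refine hS p ?_
    by_contra hn
    exact hp (Set.indicator_of_notMem hn g)
  rw [h1, ← nine_inj.tsum_eq h2, tsum_fintype, Fintype.sum_option, Fintype.sum_sum_type]
  rfl

private theorem dsp_nil : dsp ([], []) = 0 := by simp [dsp]

private theorem dsp_left (i : Fin 4) : dsp ([st4 i], []) = -e4 i := by
  simp only [dsp, hz_left, hz_nil, zero_sub]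

private theorem dsp_right (i : Fin 4) : dsp ([], [st4 i]) = e4 i := by
  simp only [dsp, hz_left, hz_nil, sub_zero]

private theorem wt_nil (hy : 0 < y) (hz : 0 < z) :
    wt (ENNReal.ofReal y) (ENNReal.ofReal z) ([], []) = ENNReal.ofReal (y * z ^ 2) := by
  rw [wt, hgt_nil, ENNReal.ofReal_mul hy.le, ENNReal.ofReal_pow hz.le]
  simp

private theorem wt_left (hy : 0 < y) (hz : 0 < z) (i : Fin 4) :
    wt (ENNReal.ofReal y) (ENNReal.ofReal z) ([st4 i], []) = ENNReal.ofReal (y * z ^ 2 * z) := by
  rw [wt, hgt_left, mul_assoc, ← pow_succ, ENNReal.ofReal_mul hy.le, ENNReal.ofReal_pow hz.le]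
  simp

private theorem wt_right (hy : 0 < y) (hz : 0 < z) (i : Fin 4) :
    wt (ENNReal.ofReal y) (ENNReal.ofReal z) ([], [st4 i]) = ENNReal.ofReal (y * z ^ 2 * z) := by
  rw [wt, hgt_right, mul_assoc, ← pow_succ, ENNReal.ofReal_mul hy.le, ENNReal.ofReal_pow hz.le]
  simp

private theorem nb_eq (f : ℤ × ℤ → ℝ≥0∞) (v : ℤ × ℤ) : ∑ i, f (v + e4 i) = nb f v := by
  rw [Fin.sum_univ_four]
  rfl

private theorem nb_eq' (f : ℤ × ℤ → ℝ≥0∞) (v : ℤ × ℤ) : ∑ i, f (v + -e4 i) = nb f v := by
  rw [Fin.sum_univ_four]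
  have h0 : -e4 0 = (-1, 0) := by decide
  have h1 : -e4 1 = (1, 0) := by decide
  have h2 : -e4 2 = (0, -1) := by decide
  have h3 : -e4 3 = (0, 1) := by decide
  rw [h0, h1, h2, h3, nb]
  ring

private theorem two_mul' (hy : 0 < y) (hz : 0 < z) (x : ℝ≥0∞) :
    ENNReal.ofReal (y * z ^ 2 * z) * x + ENNReal.ofReal (y * z ^ 2 * z) * x =
      ENNReal.ofReal (2 * (y * z ^ 2) * z) * x := by
  have h1 : 0 ≤ y * z ^ 2 * z := by positivity
  rw [← add_mul, ← ENNReal.ofReal_add h1 h1]
  congr 2
  ring

theorem basV (hy : 0 < y) (hz : 0 < z) (hv : v ≠ 0) (f : ℤ × ℤ → ℝ≥0∞) :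
    ∑' p : {p // Bas p ∧ Valid v p}, wt (ENNReal.ofReal y) (ENNReal.ofReal z) p.1 *
      f (v + dsp p.1) = ENNReal.ofReal (y * z ^ 2) * f v +
        ENNReal.ofReal (2 * (y * z ^ 2) * z) * nb (kill f) v := by
  rw [sum_nine (fun p => wt (ENNReal.ofReal y) (ENNReal.ofReal z) p * f (v + dsp p))
    (fun p => Bas p ∧ Valid v p)]
  · have h0 : {p | Bas p ∧ Valid v p}.indicator
        (fun p => wt (ENNReal.ofReal y) (ENNReal.ofReal z) p * f (v + dsp p)) ([], []) =
        ENNReal.ofReal (y * z ^ 2) * f v := by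
      rw [Set.indicator_of_mem (show ([], []) ∈ {p | Bas p ∧ Valid v p} from
        ⟨bas_nil, valid_nil.2 hv⟩), wt_nil hy hz, dsp_nil, add_zero]
    have h1 : ∀ i, {p | Bas p ∧ Valid v p}.indicator
        (fun p => wt (ENNReal.ofReal y) (ENNReal.ofReal z) p * f (v + dsp p)) ([st4 i], []) =
        ENNReal.ofReal (y * z ^ 2 * z) * kill f (v + -e4 i) := by
      intro i
      by_cases h : v = e4 i
      · rw [Set.indicator_of_notMem, kill, if_pos (by rw [h]; exact add_neg_cancel _), mul_zero]
        intro h'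
        exact ((valid_left i).1 h'.2).2 h
      · rw [Set.indicator_of_mem (show ([st4 i], []) ∈ {p | Bas p ∧ Valid v p} from
          ⟨bas_left i, (valid_left i).2 ⟨hv, h⟩⟩), wt_left hy hz, dsp_left, kill, if_neg]
        intro h'
        exact h (eq_of_add_neg_eq_zero h')
    have h2 : ∀ i, {p | Bas p ∧ Valid v p}.indicator
        (fun p => wt (ENNReal.ofReal y) (ENNReal.ofReal z) p * f (v + dsp p)) ([], [st4 i]) =
        ENNReal.ofReal (y * z ^ 2 * z) * kill f (v + e4 i) := by
      intro i
      by_cases h : v + e4 i = 0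
      · rw [Set.indicator_of_notMem, kill, if_pos h, mul_zero]
        intro h'
        exact ((valid_right i).1 h'.2).2 h
      · rw [Set.indicator_of_mem (show ([], [st4 i]) ∈ {p | Bas p ∧ Valid v p} from
          ⟨bas_right i, (valid_right i).2 ⟨hv, h⟩⟩), wt_right hy hz, dsp_right, kill, if_neg h]
    rw [h0, Finset.sum_congr rfl fun i _ => h1 i, Finset.sum_congr rfl fun i _ => h2 i,
      ← Finset.mul_sum, ← Finset.mul_sum, nb_eq, nb_eq', two_mul' hy hz]
  · intro p hp
    rcases bas_valid_iff.1 hp with ⟨rfl, -⟩ | ⟨i, rfl, -⟩ | ⟨i, rfl, -⟩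
    · exact ⟨none, rfl⟩
    · exact ⟨some (Sum.inl i), rfl⟩
    · exact ⟨some (Sum.inr i), rfl⟩

theorem basF (hy : 0 < y) (hz : 0 < z) (f : ℤ × ℤ → ℝ≥0∞) :
    ∑' p : {p // Bas p ∧ Free p}, wt (ENNReal.ofReal y) (ENNReal.ofReal z) p.1 * f (dsp p.1) =
      ENNReal.ofReal (y * z ^ 2) * f 0 + ENNReal.ofReal (2 * (y * z ^ 2) * z) * nb f 0 := by
  rw [sum_nine (fun p => wt (ENNReal.ofReal y) (ENNReal.ofReal z) p * f (dsp p))
    (fun p => Bas p ∧ Free p)]
  · have h0 : {p | Bas p ∧ Free p}.indicator
        (fun p => wt (ENNReal.ofReal y) (ENNReal.ofReal z) p * f (dsp p)) ([], []) =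
        ENNReal.ofReal (y * z ^ 2) * f 0 := by
      rw [Set.indicator_of_mem (show ([], []) ∈ {p | Bas p ∧ Free p} from
        ⟨bas_nil, free_nil⟩), wt_nil hy hz, dsp_nil]
    have h1 : ∀ i, {p | Bas p ∧ Free p}.indicator
        (fun p => wt (ENNReal.ofReal y) (ENNReal.ofReal z) p * f (dsp p)) ([st4 i], []) =
        ENNReal.ofReal (y * z ^ 2 * z) * f (0 + -e4 i) := by
      intro i
      rw [Set.indicator_of_mem (show ([st4 i], []) ∈ {p | Bas p ∧ Free p} from
        ⟨bas_left i, free_left i⟩), wt_left hy hz, dsp_left, zero_add]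
    have h2 : ∀ i, {p | Bas p ∧ Free p}.indicator
        (fun p => wt (ENNReal.ofReal y) (ENNReal.ofReal z) p * f (dsp p)) ([], [st4 i]) =
        ENNReal.ofReal (y * z ^ 2 * z) * f (0 + e4 i) := by
      intro i
      rw [Set.indicator_of_mem (show ([], [st4 i]) ∈ {p | Bas p ∧ Free p} from
        ⟨bas_right i, free_right i⟩), wt_right hy hz, dsp_right, zero_add]
    rw [h0, Finset.sum_congr rfl fun i _ => h1 i, Finset.sum_congr rfl fun i _ => h2 i,
      ← Finset.mul_sum, ← Finset.mul_sum, nb_eq, nb_eq', two_mul' hy hz]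
  · intro p hp
    rcases bas_free_iff.1 hp with rfl | ⟨i, rfl⟩ | ⟨i, rfl⟩
    · exact ⟨none, rfl⟩
    · exact ⟨some (Sum.inl i), rfl⟩
    · exact ⟨some (Sum.inr i), rfl⟩

end Pool.Agent.KLog
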