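import Pool.Agent.KLog.Defs

/-! KL12: reflection of halves. -/

set_option autoImplicit false

open Pool.Agent.LK

namespace Pool.Agent.KLog

open Pool.Agent.KTube Pool.Agent.KRing
open Pool.Agent.LatticeTube (pedges)

variable {v : ℤ × ℤ} {l r : List P3}

/-- Reflection of a list at the plane `z = 1/2`, traversed in the opposite direction. -/
def flp (l : List P3) : List P3 := (l.map fun u => (u.1, u.2.1, 1 - u.2.2)).reverse

theorem flp_eq (l : List P3) : flp l = (l.map (flipZ 1)).reverse := rfl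

theorem flp_append (l r : List P3) : flp (r ++ l) = flp l ++ flp r := by
  rw [flp_eq, List.map_append, List.reverse_append]
  rfl

theorem flp_flp (l : List P3) : flp (flp l) = l := by
  rw [flp_eq, flp_eq, List.map_reverse, List.reverse_reverse, List.map_map]
  have h : flipZ 1 ∘ flipZ 1 = id := funext fun u => flipZ_flipZ 1 u
  rw [h, List.map_id]

theorem length_flp (l : List P3) : (flp l).length = l.length := by
  rw [flp_eq, List.length_reverse, List.length_map]

theorem mem_flp {u : P3} : u ∈ flp l ↔ flipZ 1 u ∈ l := by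
  rw [flp_eq, List.mem_reverse, List.mem_map]
  constructor
  · rintro ⟨w, hw, rfl⟩
    rwa [flipZ_flipZ]
  · intro h
    exact ⟨_, h, flipZ_flipZ 1 u⟩

theorem mem_pedges_flp {u w : P3} :
    s(u, w) ∈ pedges (flp l) ↔ s(flipZ 1 u, flipZ 1 w) ∈ pedges l := by
  rw [flp_eq, mem_pedges_reverse, pedges_map, mem_flipZ]

theorem leg_mem_flp {c : ℤ × ℤ} {j : ℤ} : leg c j ∈ pedges (flp l) ↔ leg c (-j) ∈ pedges l := by
  unfold leg
  rw [mem_pedges_flp]
  have e1 : flipZ 1 (c.1, c.2, j) = (c.1, c.2, -j + 1) := by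
    simp only [flipZ, Prod.mk.injEq, true_and]; ring
  have e2 : flipZ 1 (c.1, c.2, j + 1) = (c.1, c.2, -j) := by
    simp only [flipZ, Prod.mk.injEq, true_and]; ring
  rw [e1, e2, Sym2.eq_swap]

private theorem flp_ncard {P Q : Set ℤ} (h : ∀ j, j ∈ P ↔ -j ∈ Q) : P.ncard = Q.ncard := by
  have h1 : P = (fun j : ℤ => -j) '' Q := by
    ext j
    rw [h]
    constructor
    · intro hj
      exact ⟨-j, hj, neg_neg j⟩
    · rintro ⟨i, hi, rfl⟩
      simpa using hi
  rw [h1]
  exact Set.ncard_image_of_injective _ neg_injective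

theorem lspan_flp (l : List P3) : lspan (flp l) = lspan l := by
  unfold lspan
  refine flp_ncard fun j => ?_
  constructor
  · rintro ⟨c, hc⟩
    exact ⟨c, leg_mem_flp.1 hc⟩
  · rintro ⟨c, hc⟩
    exact ⟨c, leg_mem_flp.2 hc⟩

theorem nsec_flp (l : List P3) : nsec (flp l) = nsec l := by
  unfold nsec
  refine flp_ncard fun j => ?_
  have h : {c | leg c j ∈ pedges (flp l)} = {c | leg c (-j) ∈ pedges l} :=
    Set.ext fun c => leg_mem_flp
  change {c | leg c j ∈ pedges (flp l)}.ncard = 2 ↔ {c | leg c (-j) ∈ pedges l}.ncard = 2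
  rw [h]

private theorem flp_nodup (h : l.Nodup) : (flp l).Nodup := by
  rw [flp_eq, List.nodup_reverse]
  exact h.map (flipZ_inj 1)

private theorem adj_flipZ {u w : P3} : Adj (flipZ 1 u) (flipZ 1 w) ↔ Adj u w := by
  unfold Adj flipZ
  have : |(1 - u.2.2) - (1 - w.2.2)| = |u.2.2 - w.2.2| := by
    rw [show (1 - u.2.2) - (1 - w.2.2) = -(u.2.2 - w.2.2) by ring, abs_neg]
  simp only [this]

private theorem flp_chain (h : l.IsChain Adj) : (flp l).IsChain Adj := by
  rw [flp_eq, List.isChain_reverse, List.isChain_map]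
  refine h.imp fun u w huw => ?_
  rw [adj_flipZ]
  exact huw.symm

theorem upper_flp (h : Lower 0 0 v l) : Upper 0 0 v (flp l) := by
  refine ⟨flp_nodup h.nodup, flp_chain h.chain, ?_, ?_, ?_⟩
  · rw [flp_eq, List.head?_reverse, List.getLast?_map, h.last]
    rfl
  · rw [flp_eq, List.getLast?_reverse, List.head?_map, h.head]
    rfl
  · intro u hu
    have := h.lev _ (mem_flp.1 hu)
    simp only [flipZ] at this
    omega

theorem lower_flp (h : Upper 0 0 v r) : Lower 0 0 v (flp r) := by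
  refine ⟨flp_nodup h.nodup, flp_chain h.chain, ?_, ?_, ?_⟩
  · rw [flp_eq, List.head?_reverse, List.getLast?_map, h.last]
    rfl
  · rw [flp_eq, List.getLast?_reverse, List.head?_map, h.head]
    rfl
  · intro u hu
    have := h.lev _ (mem_flp.1 hu)
    simp only [flipZ] at this
    omega

private theorem flp_leg (a : ℤ × ℤ) {u w : P3} :
    s(flipZ 1 u, flipZ 1 w) = leg a 0 ↔ s(u, w) = leg a 0 := by
  have h1 : leg a 0 = Sym2.map (flipZ 1) (leg a 0) := by
    unfold leg
    rw [Sym2.map_mk, Sym2.eq_swap]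
    simp [flipZ]
  constructor
  · intro h
    apply Sym2.map.injective (flipZ_inj 1)
    rw [← h1, Sym2.map_mk]
    exact h
  · intro h
    rw [h1, ← h, Sym2.map_mk]

theorem ring_flp (hr : Upper 0 0 v r) (hl : Lower 0 0 v l) :
    ring (flp l ++ flp r) = mapE (flipZ 1) (ring (r ++ l)) := by
  refine edge_ext fun u w => ?_
  rw [mem_flipZ, mem_ring_of (upper_flp hl) (lower_flp hr), mem_ring_of hr hl, mem_pedges_flp,
    mem_pedges_flp, flp_leg, flp_leg]
  tauto

theorem UU_flp (h : LU 0 0 v l) : UU 0 0 v (flp l) := by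
  obtain ⟨hne, hl, r, hr, hU⟩ := h
  refine ⟨hne, upper_flp hl, flp r, lower_flp hr, ?_⟩
  rw [ring_flp hr hl]
  exact hU.flip 1

theorem LU_flp (h : UU 0 0 v r) : LU 0 0 v (flp r) := by
  obtain ⟨hne, hr, l, hl, hU⟩ := h
  refine ⟨hne, lower_flp hr, flp l, upper_flp hl, ?_⟩
  rw [ring_flp hr hl]
  exact hU.flip 1

end Pool.Agent.KLog
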