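import Pool.Agent.KLog.PotSuper

/-! KL4: the quadratic function. -/

set_option autoImplicit false

open scoped ENNReal

namespace Pool.Agent.KLog

variable {P : Type} {κ : Ker P}

private theorem pq_nsq_le (w : ℤ × ℤ) : (nsq w : ℝ) ≤ (nrm w : ℝ) ^ 2 := by
  have h : nsq w ≤ (nrm w : ℤ) ^ 2 := by
    unfold nsq nrm
    push_cast
    have h1 := abs_nonneg w.1
    have h2 := abs_nonneg w.2
    have h3 := sq_abs w.1
    have h4 := sq_abs w.2
    nlinarith [mul_nonneg h1 h2]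
  exact_mod_cast h

private theorem pq_nrm_add (v w : ℤ × ℤ) : nrm (v + w) ≤ nrm v + nrm w := by
  unfold nrm
  have h1 := Int.natAbs_add_le v.1 w.1
  have h2 := Int.natAbs_add_le v.2 w.2
  simp only [Prod.fst_add, Prod.snd_add]
  omega

private theorem pq_sq_le_four (n : ℕ) : (n : ℝ) ^ 2 ≤ 4 ^ n := by
  have h : n < 2 ^ n := Nat.lt_two_pow_self
  have h1 : (n : ℝ) ≤ 2 ^ n := by exact_mod_cast h.le
  calc (n : ℝ) ^ 2 ≤ (2 ^ n) ^ 2 := pow_le_pow_left₀ (Nat.cast_nonneg n) h1 2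
    _ = 4 ^ n := by rw [← pow_mul, mul_comm, pow_mul]; norm_num

private theorem pq_sq_le {w : ℤ × ℤ} {n : ℕ} (h : nrm w ≤ n) : sq w ≤ 4 ^ n := by
  have h1 : (nrm w : ℝ) ≤ n := by exact_mod_cast h
  have h2 : (nsq w : ℝ) ≤ 4 ^ n :=
    (pq_nsq_le w).trans ((pow_le_pow_left₀ (Nat.cast_nonneg _) h1 2).trans (pq_sq_le_four n))
  calc sq w ≤ ENNReal.ofReal (4 ^ n) := ENNReal.ofReal_le_ofReal h2
    _ = 4 ^ n := by
      rw [ENNReal.ofReal_pow (by norm_num)]
      norm_num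

private theorem pq_sq_add_le {v u : ℤ × ℤ} {n : ℕ} (hv : nrm v ≤ n) (hu : nrm u ≤ n) :
    sq (v + u) ≤ 4 * 4 ^ n := by
  have h1 : (nrm (v + u) : ℝ) ≤ 2 * n := by
    have := pq_nrm_add v u
    exact_mod_cast (by omega : nrm (v + u) ≤ 2 * n)
  have h2 : (nsq (v + u) : ℝ) ≤ 4 * 4 ^ n := by
    have h3 := pow_le_pow_left₀ (Nat.cast_nonneg _) h1 2
    have h4 := pq_sq_le_four n
    have h5 := pq_nsq_le (v + u)
    nlinarith
  calc sq (v + u) ≤ ENNReal.ofReal (4 * 4 ^ n) := ENNReal.ofReal_le_ofReal h2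
    _ = 4 * 4 ^ n := by
      rw [ENNReal.ofReal_mul (by norm_num), ENNReal.ofReal_pow (by norm_num)]
      norm_num

private theorem pq_par (v u : ℤ × ℤ) : sq (v + u) + sq (v + -u) = 2 * sq v + 2 * sq u := by
  have hn : ∀ w : ℤ × ℤ, (0 : ℝ) ≤ nsq w := by
    intro w
    have : 0 ≤ nsq w := by unfold nsq; positivity
    exact_mod_cast this
  have h2 : (2 : ℝ≥0∞) = ENNReal.ofReal 2 := by norm_num
  unfold sq
  rw [h2, ← ENNReal.ofReal_mul (by norm_num), ← ENNReal.ofReal_mul (by norm_num),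
    ← ENNReal.ofReal_add (hn _) (hn _), ← ENNReal.ofReal_add (by have := hn v; positivity)
      (by have := hn u; positivity)]
  congr 1
  have h : nsq (v + u) + nsq (v + -u) = 2 * nsq v + 2 * nsq u := by
    unfold nsq
    simp only [Prod.fst_add, Prod.snd_add, Prod.fst_neg, Prod.snd_neg]
    ring
  exact_mod_cast h

private theorem pq_tsum (A : P → Prop) (f : P → ℝ≥0∞) :
    ∑' p : {p // A p}, f p.1 = ∑' p, {p | A p}.indicator f p :=
  tsum_subtype {p | A p} f

/-- The free part. -/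
private theorem pq_free (hκ : κ.Ok) (v : ℤ × ℤ) (n : ℕ) :
    ∑' p, {p | κ.Fr p ∧ κ.l p < n}.indicator (fun p => κ.wt p * sq (v + κ.u p)) p ≤
      sq v + ∑' p : {p // κ.Fr p}, κ.wt p.1 * 4 ^ κ.l p.1 := by
  classical
  obtain ⟨σ, hσ⟩ := hκ.rot
  let F : {p // κ.Fr p} → ℝ≥0∞ := fun p =>
    if κ.l p.1 < n then κ.wt p.1 * sq (v + κ.u p.1) else 0
  have hF : ∑' p, {p | κ.Fr p ∧ κ.l p < n}.indicator (fun p => κ.wt p * sq (v + κ.u p)) p =
      ∑' p, F p := by
    have h := pq_tsum (P := P) κ.Fr fun p => if κ.l p < n then κ.wt p * sq (v + κ.u p) else 0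
    change _ = ∑' p : {p // κ.Fr p}, _
    rw [h]
    refine tsum_congr fun p => ?_
    by_cases h1 : κ.Fr p <;> by_cases h2 : κ.l p < n <;> simp [Set.indicator, h1, h2]
  have hu : ∀ p, κ.u (σ (σ p)).1 = -κ.u p.1 := by
    intro p
    rw [(hσ (σ p)).2.2, (hσ p).2.2]
    unfold rt
    ext <;> simp
  have hF' : ∑' p, F p = ∑' p, F (σ (σ p)) := by
    rw [← Equiv.tsum_eq σ F, ← Equiv.tsum_eq σ (fun p => F (σ p))]
  have h2 : 2 * ∑' p, F p ≤
      2 * (sq v + ∑' p : {p // κ.Fr p}, κ.wt p.1 * 4 ^ κ.l p.1) := by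
    calc 2 * ∑' p, F p = ∑' p, (F p + F (σ (σ p))) := by
          rw [ENNReal.tsum_add, ← hF', two_mul]
      _ ≤ ∑' p : {p // κ.Fr p}, (2 * (κ.wt p.1 * sq v) + 2 * (κ.wt p.1 * 4 ^ κ.l p.1)) := by
          refine ENNReal.tsum_le_tsum fun p => ?_
          have h3 : κ.l (σ (σ p)).1 = κ.l p.1 := by rw [(hσ _).2.1, (hσ _).2.1]
          have h4 : κ.wt (σ (σ p)).1 = κ.wt p.1 := by rw [(hσ _).1, (hσ _).1]
          change (if κ.l p.1 < n then κ.wt p.1 * sq (v + κ.u p.1) else 0) +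
            (if κ.l (σ (σ p)).1 < n then κ.wt (σ (σ p)).1 * sq (v + κ.u (σ (σ p)).1) else 0) ≤ _
          rw [h3, h4, hu]
          split_ifs with h5
          · rw [← mul_add, pq_par, mul_add]
            refine add_le_add (le_of_eq (by ring)) ?_
            calc κ.wt p.1 * (2 * sq (κ.u p.1)) = 2 * (κ.wt p.1 * sq (κ.u p.1)) := by ring
              _ ≤ _ := by
                have := pq_sq_le (hκ.u_le p.1 (Or.inl p.2))
                gcongr
          · simp
      _ = 2 * (sq v * ∑' p : {p // κ.Fr p}, κ.wt p.1 +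
            ∑' p : {p // κ.Fr p}, κ.wt p.1 * 4 ^ κ.l p.1) := by
          rw [ENNReal.tsum_add, ENNReal.tsum_mul_left, ENNReal.tsum_mul_left,
            ENNReal.tsum_mul_right, mul_add]
          ring
      _ = _ := by rw [hκ.one, mul_one]
  rw [hF]
  exact (ENNReal.mul_le_mul_iff_right (by norm_num) (by norm_num)).1 h2

/-- The second exponential moment of the free part. -/
private theorem pq_mom (hκ : κ.Ok) :
    ∑' p : {p // κ.Fr p}, κ.wt p.1 * 4 ^ κ.l p.1 ≤ 4 + ENNReal.ofReal (κ.z / 4) := by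
  have h1 := pq_tsum (P := P) κ.Fr fun p => κ.wt p * 4 ^ κ.l p
  have h2 := pq_tsum (P := P) κ.Fr fun p => κ.wt p
  have h3 := pq_tsum (P := P) (fun p => ¬ κ.Bas p ∧ (κ.Fr p ∨ ∃ v, κ.V v p))
    fun p => κ.wt p * 4 ^ κ.l p
  have h4 := hκ.rest
  rw [h3] at h4
  have h5 := hκ.one
  rw [h2] at h5
  rw [h1]
  calc ∑' p, {p | κ.Fr p}.indicator (fun p => κ.wt p * 4 ^ κ.l p) p ≤
        ∑' p, (4 * {p | κ.Fr p}.indicator (fun p => κ.wt p) p +
          {p | ¬ κ.Bas p ∧ (κ.Fr p ∨ ∃ v, κ.V v p)}.indicator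
            (fun p => κ.wt p * 4 ^ κ.l p) p) := by
        refine ENNReal.tsum_le_tsum fun p => ?_
        by_cases hF : κ.Fr p
        · rw [Set.indicator_of_mem (show p ∈ {p | κ.Fr p} from hF),
            Set.indicator_of_mem (show p ∈ {p | κ.Fr p} from hF)]
          by_cases hB : κ.Bas p
          · refine le_trans ?_ (le_add_right le_rfl)
            rw [mul_comm]
            gcongr
            calc (4 : ℝ≥0∞) ^ κ.l p ≤ 4 ^ 1 :=
                  pow_le_pow_right₀ (by norm_num) (hκ.bas_l p hB)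
              _ = 4 := pow_one _
          · rw [Set.indicator_of_mem (show p ∈ {p | ¬ κ.Bas p ∧ (κ.Fr p ∨ ∃ v, κ.V v p)} from
              ⟨hB, Or.inl hF⟩)]
            exact le_add_left le_rfl
        · rw [Set.indicator_of_notMem (show p ∉ {p | κ.Fr p} from hF)]
          exact zero_le
    _ ≤ 4 + ENNReal.ofReal (κ.z / 4) := by
        rw [ENNReal.tsum_add, ENNReal.tsum_mul_left, h5, mul_one]
        gcongr

/-- The basic elements. -/
private theorem pq_bas (hκ : κ.Ok) {v : ℤ × ℤ} (hv : v ≠ 0) :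
    ∑' p, {p | κ.Bas p ∧ κ.V v p}.indicator (fun p => κ.wt p) p ≤
      ENNReal.ofReal κ.q + ENNReal.ofReal (2 * κ.q * κ.z) * 4 := by
  have h1 := pq_tsum (P := P) (fun p => κ.Bas p ∧ κ.V v p) fun p => κ.wt p
  have h2 := hκ.bas_V v hv fun _ => 1
  simp only [mul_one] at h2
  rw [← h1, h2]
  have h3 : ∀ w, kill (fun _ => 1) w ≤ 1 := by
    intro w
    unfold kill
    split_ifs
    · exact zero_le
    · exact le_rfl
  have h4 : nb (kill fun _ => 1) v ≤ 4 := by
    unfold nb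
    calc _ ≤ (1 : ℝ≥0∞) + 1 + 1 + 1 :=
          add_le_add (add_le_add (add_le_add (h3 _) (h3 _)) (h3 _)) (h3 _)
      _ = 4 := by norm_num
  gcongr

/-- **The quadratic function.** -/
theorem quad (hκ : κ.Ok) : ∃ C : ℝ≥0∞, C ≠ ⊤ ∧ ∀ v, v ≠ 0 → κ.B sq v ≤ sq v + C := by
  refine ⟨4 + ENNReal.ofReal (κ.z / 4) + 4 * ENNReal.ofReal (κ.z / 4) +
    16 * (ENNReal.ofReal κ.q + ENNReal.ofReal (2 * κ.q * κ.z) * 4), ?_, ?_⟩
  · finiteness
  intro v hv
  have h1 := pq_tsum (P := P) (κ.V v) fun p => κ.wt p * sq (v + κ.u p)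
  have h3 := pq_tsum (P := P) (fun p => ¬ κ.Bas p ∧ (κ.Fr p ∨ ∃ v, κ.V v p))
    fun p => κ.wt p * 4 ^ κ.l p
  have h4 := hκ.rest
  rw [h3] at h4
  unfold Ker.B
  rw [h1]
  calc ∑' p, {p | κ.V v p}.indicator (fun p => κ.wt p * sq (v + κ.u p)) p ≤
        ∑' p, ({p | κ.Fr p ∧ κ.l p < nrm v}.indicator (fun p => κ.wt p * sq (v + κ.u p)) p +
          4 * {p | ¬ κ.Bas p ∧ (κ.Fr p ∨ ∃ v, κ.V v p)}.indicator
            (fun p => κ.wt p * 4 ^ κ.l p) p +
          16 * {p | κ.Bas p ∧ κ.V v p}.indicator (fun p => κ.wt p) p) := by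
        refine ENNReal.tsum_le_tsum fun p => ?_
        by_cases hV : κ.V v p
        · rw [Set.indicator_of_mem (show p ∈ {p | κ.V v p} from hV)]
          by_cases hl : κ.l p < nrm v
          · rw [Set.indicator_of_mem (show p ∈ {p | κ.Fr p ∧ κ.l p < nrm v} from
              ⟨(hκ.far v p hl).1 hV, hl⟩), add_assoc]
            exact le_add_right le_rfl
          · have h5 := pq_sq_add_le (not_lt.1 hl) (hκ.u_le p (Or.inr ⟨v, hV⟩))
            have h6 : κ.wt p * sq (v + κ.u p) ≤ 4 * (κ.wt p * 4 ^ κ.l p) := by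
              calc κ.wt p * sq (v + κ.u p) ≤ κ.wt p * (4 * 4 ^ κ.l p) := by gcongr
                _ = _ := by ring
            by_cases hB : κ.Bas p
            · rw [Set.indicator_of_mem (show p ∈ {p | κ.Bas p ∧ κ.V v p} from ⟨hB, hV⟩)]
              refine le_trans h6 (le_trans ?_ (le_add_left le_rfl))
              calc 4 * (κ.wt p * 4 ^ κ.l p) ≤ 4 * (κ.wt p * 4 ^ 1) := by
                    gcongr
                    · norm_num
                    · exact hκ.bas_l p hB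
                _ = 16 * κ.wt p := by ring
            · rw [Set.indicator_of_mem (show p ∈ {p | ¬ κ.Bas p ∧ (κ.Fr p ∨ ∃ v, κ.V v p)} from
                ⟨hB, Or.inr ⟨v, hV⟩⟩)]
              exact le_trans h6 (le_trans (le_add_left le_rfl) (le_add_right le_rfl))
        · rw [Set.indicator_of_notMem (show p ∉ {p | κ.V v p} from hV)]
          exact zero_le
    _ ≤ (sq v + (4 + ENNReal.ofReal (κ.z / 4))) + 4 * ENNReal.ofReal (κ.z / 4) +
          16 * (ENNReal.ofReal κ.q + ENNReal.ofReal (2 * κ.q * κ.z) * 4) := by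
        rw [ENNReal.tsum_add, ENNReal.tsum_add, ENNReal.tsum_mul_left, ENNReal.tsum_mul_left]
        have h7 := (pq_free hκ v (nrm v)).trans (add_le_add le_rfl (pq_mom hκ))
        have h8 := pq_bas hκ hv
        gcongr
    _ = _ := by ring

end Pool.Agent.KLog
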