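import Pool.Agent.KLog.PotSuper

/-! KL5: upper bounds for a sequence driven by the kernel. -/

set_option autoImplicit false

open scoped ENNReal

namespace Pool.Agent.KLog

variable {P : Type} {κ : Ker P} {M : ℕ → ℤ × ℤ → ℝ≥0∞}

private theorem seqA_step (hκ : κ.Ok) (hM : Seq κ M) (n : ℕ) :
    ∑' v, M (n + 1) v * hh v + ENNReal.ofReal (κ.z / 2) *
      ∑' v, M n v * ENNReal.ofReal ((1 / 4) ^ nrm v) ≤ ∑' v, M n v * hh v := by
  have hz := hκ.z_pos
  rw [hM.step n hh, ← ENNReal.tsum_mul_left, ← ENNReal.tsum_add]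
  refine ENNReal.tsum_le_tsum fun v => ?_
  by_cases hv : v = 0
  · subst hv
    rw [hM.zero n]
    simp
  · have h1 := super hκ hv
    have h2 : ENNReal.ofReal (κ.z / 2) * (M n v * ENNReal.ofReal ((1 / 4) ^ nrm v)) =
        M n v * ENNReal.ofReal (κ.z / 2 * (1 / 4) ^ nrm v) := by
      rw [ENNReal.ofReal_mul (by positivity)]
      ring
    rw [h2, ← mul_add]
    gcongr

private theorem seqA_zero (hM : Seq κ M) : ∑' v, M 0 v * hh v ≠ ⊤ := by
  refine ne_top_of_le_ne_top hM.fin (ENNReal.tsum_le_tsum fun v => ?_)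
  have h1 : hh v ≤ 1 := by
    unfold hh
    rw [ENNReal.ofReal_le_one]
    have : (0 : ℝ) < (1 / 4) ^ nrm v := by positivity
    linarith
  have h2 : (1 : ℝ≥0∞) ≤ 4 ^ nrm v := one_le_pow_of_one_le' (by norm_num) _
  exact mul_le_mul_right (h1.trans h2) _

private theorem seqA_sum (hκ : κ.Ok) (hM : Seq κ M) (N : ℕ) :
    ∑' v, M N v * hh v + ENNReal.ofReal (κ.z / 2) *
      ∑ n ∈ Finset.range N, ∑' v, M n v * ENNReal.ofReal ((1 / 4) ^ nrm v) ≤
      ∑' v, M 0 v * hh v := by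
  induction N with
  | zero => simp
  | succ N ih =>
    refine le_trans ?_ ih
    rw [Finset.sum_range_succ, mul_add, add_comm (ENNReal.ofReal (κ.z / 2) *
      ∑ n ∈ Finset.range N, ∑' v, M n v * ENNReal.ofReal ((1 / 4) ^ nrm v)), ← add_assoc]
    gcongr
    exact seqA_step hκ hM N

/-- The mass is bounded. -/
theorem seq_mass (hκ : κ.Ok) (hM : Seq κ M) : ∃ C : ℝ≥0∞, C ≠ ⊤ ∧ ∀ n, ∑' v, M n v ≤ C := by
  refine ⟨ENNReal.ofReal (4 / 3) * ∑' v, M 0 v * hh v,
    ENNReal.mul_ne_top ENNReal.ofReal_ne_top (seqA_zero hM), fun n => ?_⟩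
  have h1 : ∑' v, M n v * hh v ≤ ∑' v, M 0 v * hh v := le_self_add.trans (seqA_sum hκ hM n)
  refine le_trans ?_ (mul_le_mul_right h1 _)
  rw [← ENNReal.tsum_mul_left]
  refine ENNReal.tsum_le_tsum fun v => ?_
  by_cases hv : v = 0
  · subst hv
    rw [hM.zero n]
    simp
  · have h2 : (1 : ℝ≥0∞) ≤ ENNReal.ofReal (4 / 3) * hh v := by
      have h3 : 1 ≤ nrm v := by
        by_contra h
        have h8 : nrm v = 0 := by omega
        unfold nrm at h8
        apply hv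
        ext <;> simp <;> omega
      have h4 : (1 / 4 : ℝ) ^ nrm v ≤ 1 / 4 := by
        calc (1 / 4 : ℝ) ^ nrm v ≤ (1 / 4 : ℝ) ^ 1 :=
              pow_le_pow_of_le_one (by norm_num) (by norm_num) h3
          _ = 1 / 4 := by norm_num
      unfold hh
      rw [← ENNReal.ofReal_mul (by norm_num), ← ENNReal.ofReal_one]
      apply ENNReal.ofReal_le_ofReal
      linarith
    calc M n v = M n v * 1 := (mul_one _).symm
      _ ≤ M n v * (ENNReal.ofReal (4 / 3) * hh v) := mul_le_mul_right h2 _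
      _ = ENNReal.ofReal (4 / 3) * (M n v * hh v) := by ring

/-- **The Green function is finite.** -/
theorem seq_green (hκ : κ.Ok) (hM : Seq κ M) :
    ∑' n, ∑' v, M n v * ENNReal.ofReal ((1 / 4) ^ nrm v) ≠ ⊤ := by
  have hz := hκ.z_pos
  have hc0 : ENNReal.ofReal (κ.z / 2) ≠ 0 := by
    rw [Ne, ENNReal.ofReal_eq_zero, not_le]
    positivity
  have h1 : ∀ N, ∑ n ∈ Finset.range N, ∑' v, M n v * ENNReal.ofReal ((1 / 4) ^ nrm v) ≤
      (∑' v, M 0 v * hh v) / ENNReal.ofReal (κ.z / 2) := by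
    intro N
    rw [ENNReal.le_div_iff_mul_le (Or.inl hc0) (Or.inl ENNReal.ofReal_ne_top), mul_comm]
    exact le_add_self.trans (seqA_sum hκ hM N)
  refine ne_top_of_le_ne_top (ENNReal.div_ne_top (seqA_zero hM) hc0) ?_
  rw [ENNReal.tsum_eq_iSup_nat]
  exact iSup_le h1

end Pool.Agent.KLog
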