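import Pool.Agent.KLog.PotSub
import Pool.Agent.KLog.PotQuad
import Pool.Agent.KLog.SeqA

/-! KL6: lower bound for a sequence driven by the kernel. -/

set_option autoImplicit false

open scoped ENNReal

namespace Pool.Agent.KLog

variable {P : Type} {κ : Ker P} {M : ℕ → ℤ × ℤ → ℝ≥0∞}

private theorem sb_sq_le (v : ℤ × ℤ) : sq v ≤ 4 ^ nrm v := by
  have h : nsq v ≤ (nrm v : ℤ) ^ 2 := by
    unfold nsq nrm
    push_cast
    have h1 := abs_nonneg v.1
    have h2 := abs_nonneg v.2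
    have h3 := sq_abs v.1
    have h4 := sq_abs v.2
    nlinarith [mul_nonneg h1 h2]
  have h0 : (nsq v : ℝ) ≤ (nrm v : ℝ) ^ 2 := by exact_mod_cast h
  have h1 : ((nrm v : ℕ) : ℝ) ≤ 2 ^ nrm v := by
    have := (Nat.lt_two_pow_self (n := nrm v)).le
    exact_mod_cast this
  have h2 : (nrm v : ℝ) ^ 2 ≤ 4 ^ nrm v := by
    calc (nrm v : ℝ) ^ 2 ≤ (2 ^ nrm v) ^ 2 := pow_le_pow_left₀ (Nat.cast_nonneg _) h1 2
      _ = 4 ^ nrm v := by rw [← pow_mul, mul_comm, pow_mul]; norm_num
  calc sq v ≤ ENNReal.ofReal (4 ^ nrm v) := ENNReal.ofReal_le_ofReal (h0.trans h2)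
    _ = 4 ^ nrm v := by
      rw [ENNReal.ofReal_pow (by norm_num)]
      norm_num

private theorem sb_E (hκ : κ.Ok) (hM : Seq κ M) : ∃ A : ℝ, 0 < A ∧ ∀ n : ℕ,
    ∑' v, M n v * sq v ≤ ENNReal.ofReal (A * (n + 1)) := by
  obtain ⟨C₁, hC₁, hmass⟩ := seq_mass hκ hM
  obtain ⟨C₂, hC₂, hquad⟩ := quad hκ
  set E0 : ℝ≥0∞ := ∑' v, M 0 v * sq v with hE0
  have hE0f : E0 ≠ ⊤ :=
    ne_top_of_le_ne_top hM.fin (ENNReal.tsum_le_tsum fun v => mul_le_mul' le_rfl (sb_sq_le v))
  have hD : E0 + C₁ * C₂ ≠ ⊤ := ENNReal.add_ne_top.2 ⟨hE0f, ENNReal.mul_ne_top hC₁ hC₂⟩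
  have key : ∀ n : ℕ, ∑' v, M n v * sq v ≤ (E0 + C₁ * C₂) * ((n : ℝ≥0∞) + 1) := by
    intro n
    induction n with
    | zero =>
      rw [Nat.cast_zero, zero_add, mul_one]
      exact le_self_add
    | succ n ih =>
      rw [hM.step n sq]
      calc ∑' v, M n v * κ.B sq v ≤ ∑' v, (M n v * sq v + M n v * C₂) := by
            refine ENNReal.tsum_le_tsum fun v => ?_
            by_cases hv : v = 0
            · rw [hv, hM.zero n]
              simp
            · rw [← mul_add]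
              exact mul_le_mul' le_rfl (hquad v hv)
        _ = ∑' v, M n v * sq v + (∑' v, M n v) * C₂ := by
            rw [ENNReal.tsum_add, ENNReal.tsum_mul_right]
        _ ≤ (E0 + C₁ * C₂) * ((n : ℝ≥0∞) + 1) + (E0 + C₁ * C₂) :=
            add_le_add ih ((mul_le_mul' (hmass n) le_rfl).trans le_add_self)
        _ = (E0 + C₁ * C₂) * (((n + 1 : ℕ) : ℝ≥0∞) + 1) := by
            push_cast
            ring
  refine ⟨(E0 + C₁ * C₂).toReal + 1, by positivity, fun n => (key n).trans ?_⟩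
  rw [ENNReal.ofReal_mul (by positivity)]
  refine mul_le_mul' ?_ (le_of_eq ?_)
  · conv_lhs => rw [← ENNReal.ofReal_toReal hD]
    exact ENNReal.ofReal_le_ofReal (by linarith)
  · rw [ENNReal.ofReal_add (Nat.cast_nonneg n) zero_le_one, ENNReal.ofReal_natCast,
      ENNReal.ofReal_one]

private theorem sb_b (hκ : κ.Ok) (hM : Seq κ M) : ∃ K b : ℝ, 0 ≤ K ∧ 0 < b ∧ ∀ n : ℕ,
    ENNReal.ofReal b ≤ ∑' v, M n v * gg K v := by
  obtain ⟨K, hK, hsub⟩ := sub hκ
  have hmono : ∀ n, ∑' v, M 0 v * gg K v ≤ ∑' v, M n v * gg K v := by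
    intro n
    induction n with
    | zero => exact le_rfl
    | succ n ih =>
      refine ih.trans ?_
      rw [hM.step n (gg K)]
      refine ENNReal.tsum_le_tsum fun v => ?_
      by_cases hv : v = 0
      · rw [hv, hM.zero n, zero_mul, zero_mul]
      · exact mul_le_mul' le_rfl (hsub v hv)
  obtain ⟨m, hm⟩ := exists_nat_gt (Real.exp K)
  have hm1 : (1 : ℝ) < m := lt_of_le_of_lt (Real.one_le_exp hK) hm
  have hgg : gg K ((m : ℤ), 0) ≠ 0 := by
    unfold gg nsq
    rw [Ne, ENNReal.ofReal_eq_zero, not_le, sub_pos]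
    rw [Real.lt_log_iff_exp_lt (by push_cast; positivity)]
    push_cast
    nlinarith
  have hm0 : ((m : ℤ), (0 : ℤ)) ≠ 0 := by
    intro h
    have h1 : (m : ℤ) = 0 := congrArg Prod.fst h
    have h2 : (m : ℝ) = 0 := by exact_mod_cast h1
    linarith
  have hpos : 0 < ∑' v, M 0 v * gg K v :=
    lt_of_lt_of_le (pos_iff_ne_zero.2 (mul_ne_zero (hM.pos _ hm0) hgg))
      (ENNReal.le_tsum (f := fun v => M 0 v * gg K v) ((m : ℤ), 0))
  have hne : min (∑' v, M 0 v * gg K v) 1 ≠ ⊤ :=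
    ne_top_of_le_ne_top ENNReal.one_ne_top (min_le_right _ _)
  refine ⟨K, (min (∑' v, M 0 v * gg K v) 1).toReal, hK,
    ENNReal.toReal_pos (lt_min hpos one_pos).ne' hne, fun n => ?_⟩
  rw [ENNReal.ofReal_toReal hne]
  exact (min_le_left _ _).trans (hmono n)

/-- **The lower bound.** -/
theorem seq_sq (hκ : κ.Ok) (hM : Seq κ M) : ∃ c : ℝ, 0 < c ∧ ∃ n1 : ℕ, ∀ n ≥ n1,
    ENNReal.ofReal (c / (n * Real.log n ^ 3)) ≤ ∑' v, M n v * M n v := by
  obtain ⟨A, hA, hE⟩ := sb_E hκ hM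
  obtain ⟨K, b, hK, hb, hbn⟩ := sb_b hκ hM
  obtain ⟨C₁, hC₁, hmass⟩ := seq_mass hκ hM
  set L : ℝ := 12 * A / b with hL
  have hL0 : 0 < L := by positivity
  refine ⟨b ^ 2 / (324 * L), by positivity, ⌈2 * L + 1 / L + 3⌉₊, fun n hn => ?_⟩
  have hn' : 2 * L + 1 / L + 3 ≤ n := (Nat.le_ceil _).trans (by exact_mod_cast hn)
  have hL1 : 0 < 1 / L := by positivity
  have hn3 : (3 : ℝ) ≤ n := by linarith
  set l : ℝ := Real.log n with hl
  have hl1 : 1 ≤ l := by
    rw [hl, Real.le_log_iff_exp_le (by linarith)]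
    have := Real.exp_one_lt_d9
    linarith
  have hln : l ≤ n := by
    have := Real.log_le_sub_one_of_pos (x := (n : ℝ)) (by linarith)
    linarith
  set ρ : ℝ := L * n * l with hρ
  have hρ1 : 1 ≤ ρ := by
    have h1 : 1 ≤ L * n := by
      have h2 : L * (1 / L) = 1 := by field_simp
      have h3 : L * (1 / L) ≤ L * n := mul_le_mul_of_nonneg_left (by linarith) hL0.le
      linarith
    rw [hρ]
    nlinarith
  have h2ρ : 2 * ρ + 1 ≤ (n : ℝ) ^ 3 := by
    have h1 : ρ ≤ L * n * n := by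
      rw [hρ]
      exact mul_le_mul_of_nonneg_left hln (by positivity)
    have h2 : (2 * L + 1) * (n : ℝ) ^ 2 ≤ n * (n : ℝ) ^ 2 :=
      mul_le_mul_of_nonneg_right (by linarith) (by positivity)
    nlinarith
  have hlog : Real.log (2 * ρ + 1) ≤ 3 * l := by
    calc Real.log (2 * ρ + 1) ≤ Real.log ((n : ℝ) ^ 3) := Real.log_le_log (by positivity) h2ρ
      _ = 3 * l := by
        rw [Real.log_pow, ← hl]
        norm_num
  have hlog1 : Real.log (ρ + 1) ≤ 3 * l :=
    (Real.log_le_log (by positivity) (by linarith)).trans hlog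
  have hlog0 : 0 ≤ Real.log (ρ + 1) := Real.log_nonneg (by linarith)
  have hs0 : Real.sqrt ρ * Real.sqrt ρ = ρ := Real.mul_self_sqrt (by linarith)
  have hs1 : 1 ≤ Real.sqrt ρ := Real.one_le_sqrt.2 hρ1
  set R : ℕ := ⌊Real.sqrt ρ⌋₊ with hR
  have hR1 : (R : ℝ) ≤ Real.sqrt ρ := Nat.floor_le (Real.sqrt_nonneg _)
  have hR2 : Real.sqrt ρ < R + 1 := Nat.lt_floor_add_one _
  set S : Finset (ℤ × ℤ) := Finset.Icc (-(R : ℤ)) R ×ˢ Finset.Icc (-(R : ℤ)) R with hS
  have hcard : (S.card : ℝ) ≤ 9 * ρ := by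
    have h1 : S.card = (2 * R + 1) ^ 2 := by
      rw [hS, Finset.card_product, Int.card_Icc]
      have : ((R : ℤ) + 1 - -(R : ℤ)).toNat = 2 * R + 1 := by omega
      rw [this]
      ring
    rw [h1]
    push_cast
    have h2 : (2 * (R : ℝ) + 1) ≤ 3 * Real.sqrt ρ := by linarith
    have h3 : (0 : ℝ) ≤ 2 * (R : ℝ) + 1 := by positivity
    nlinarith
  have hin : ∀ v ∈ S, gg K v ≤ ENNReal.ofReal (3 * l) := by
    intro v hv
    rw [hS, Finset.mem_product, Finset.mem_Icc, Finset.mem_Icc] at hv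
    obtain ⟨⟨h1, h2⟩, h3, h4⟩ := hv
    have h5 : (v.1 : ℝ) ^ 2 ≤ ρ := by
      have h6 : (v.1 : ℝ) ≤ R := by exact_mod_cast h2
      have h7 : -(R : ℝ) ≤ v.1 := by exact_mod_cast h1
      nlinarith
    have h6 : (v.2 : ℝ) ^ 2 ≤ ρ := by
      have h6 : (v.2 : ℝ) ≤ R := by exact_mod_cast h4
      have h7 : -(R : ℝ) ≤ v.2 := by exact_mod_cast h3
      nlinarith
    refine ENNReal.ofReal_le_ofReal ?_
    have h7 : (nsq v : ℝ) = (v.1 : ℝ) ^ 2 + (v.2 : ℝ) ^ 2 := by
      unfold nsq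
      push_cast
      ring
    have h8 : Real.log (nsq v + 1) ≤ Real.log (2 * ρ + 1) :=
      Real.log_le_log (by rw [h7]; positivity) (by rw [h7]; linarith)
    linarith
  set θ : ℝ := Real.log (ρ + 1) / ρ with hθ
  have hθ0 : 0 ≤ θ := by positivity
  have hout : ∀ v, v ∉ S → gg K v ≤ ENNReal.ofReal θ * sq v := by
    intro v hv
    have h7 : (nsq v : ℝ) = (v.1 : ℝ) ^ 2 + (v.2 : ℝ) ^ 2 := by
      unfold nsq
      push_cast
      ring
    have h1 : ρ ≤ nsq v := by
      by_contra hcon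
      push Not at hcon
      apply hv
      rw [h7] at hcon
      have hb1 : ∀ x : ℤ, (x : ℝ) ^ 2 < ρ → x ∈ Finset.Icc (-(R : ℤ)) R := by
        intro x hx
        have h2 : |(x : ℝ)| < R + 1 := by
          refine lt_of_le_of_lt ?_ hR2
          refine Real.le_sqrt_of_sq_le ?_
          rw [sq_abs]
          exact hx.le
        have h3 : |x| < (R : ℤ) + 1 := by exact_mod_cast h2
        rw [abs_lt] at h3
        rw [Finset.mem_Icc]
        omega
      rw [hS, Finset.mem_product]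
      exact ⟨hb1 _ (by nlinarith [sq_nonneg (v.2 : ℝ)]), hb1 _ (by nlinarith [sq_nonneg (v.1 : ℝ)])⟩
    unfold gg sq
    rw [← ENNReal.ofReal_mul hθ0]
    refine ENNReal.ofReal_le_ofReal ?_
    have ht0 : (0 : ℝ) < nsq v := by linarith
    have h2 : (1 + (nsq v : ℝ)) ^ (ρ / nsq v) ≤ 1 + ρ / nsq v * nsq v :=
      rpow_one_add_le_one_add_mul_self (by linarith) (by positivity) ((div_le_one ht0).2 h1)
    have h3 : ρ / nsq v * nsq v = ρ := by field_simp
    rw [h3] at h2
    have h4 := Real.log_le_log (Real.rpow_pos_of_pos (by linarith) _) h2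
    rw [Real.log_rpow (by linarith)] at h4
    have h5 : Real.log (1 + (nsq v : ℝ)) ≤ θ * nsq v := by
      rw [hθ, div_mul_eq_mul_div, le_div_iff₀ (by linarith)]
      rw [div_mul_eq_mul_div, div_le_iff₀ ht0] at h4
      rw [add_comm ρ 1]
      linarith
    rw [add_comm (1 : ℝ)] at h5
    linarith
  -- the mass of the box
  have hMf : ∀ v, M n v ≠ ⊤ := fun v =>
    ne_top_of_le_ne_top hC₁ ((ENNReal.le_tsum v).trans (hmass n))
  set s : ℝ := ∑ v ∈ S, (M n v).toReal with hs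
  have hs0' : 0 ≤ s := Finset.sum_nonneg fun v _ => ENNReal.toReal_nonneg
  have hsE : ∑ v ∈ S, M n v = ENNReal.ofReal s := by
    rw [hs, ENNReal.ofReal_sum_of_nonneg fun v _ => ENNReal.toReal_nonneg]
    exact Finset.sum_congr rfl fun v _ => (ENNReal.ofReal_toReal (hMf v)).symm
  have hkey : ENNReal.ofReal b ≤ ENNReal.ofReal (3 * l) * ENNReal.ofReal s +
      ENNReal.ofReal (b / 2) := by
    calc ENNReal.ofReal b ≤ ∑' v, M n v * gg K v := hbn n
      _ ≤ ∑' v, ((if v ∈ S then M n v * ENNReal.ofReal (3 * l) else 0) +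
          ENNReal.ofReal θ * (M n v * sq v)) := by
          refine ENNReal.tsum_le_tsum fun v => ?_
          by_cases hv : v ∈ S
          · rw [if_pos hv]
            exact (mul_le_mul' le_rfl (hin v hv)).trans le_self_add
          · rw [if_neg hv, zero_add]
            calc M n v * gg K v ≤ M n v * (ENNReal.ofReal θ * sq v) :=
                  mul_le_mul' le_rfl (hout v hv)
              _ = ENNReal.ofReal θ * (M n v * sq v) := by ring
      _ = (∑' v, if v ∈ S then M n v * ENNReal.ofReal (3 * l) else 0) +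
          ENNReal.ofReal θ * ∑' v, M n v * sq v := by
          rw [ENNReal.tsum_add, ENNReal.tsum_mul_left]
      _ = ENNReal.ofReal (3 * l) * ENNReal.ofReal s +
          ENNReal.ofReal θ * ∑' v, M n v * sq v := by
          congr 1
          rw [tsum_eq_sum (s := S) fun v hv => if_neg hv]
          rw [Finset.sum_congr rfl fun v hv => if_pos hv, ← Finset.sum_mul, hsE, mul_comm]
      _ ≤ _ := by
          refine add_le_add le_rfl ?_
          refine (mul_le_mul' le_rfl (hE n)).trans ?_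
          rw [← ENNReal.ofReal_mul hθ0]
          refine ENNReal.ofReal_le_ofReal ?_
          have h1 : θ ≤ 3 / (L * n) := by
            rw [hθ, div_le_div_iff₀ (by linarith) (by positivity)]
            calc Real.log (ρ + 1) * (L * n) ≤ 3 * l * (L * n) :=
                  mul_le_mul_of_nonneg_right hlog1 (by positivity)
              _ = 3 * ρ := by rw [hρ]; ring
          calc θ * (A * (n + 1)) ≤ 3 / (L * n) * (A * (2 * n)) := by
                refine mul_le_mul h1 ?_ (by positivity) (by positivity)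
                exact mul_le_mul_of_nonneg_left (by linarith) hA.le
            _ = b / 2 := by
                rw [hL]
                field_simp
                ring
  have hsb : b / (6 * l) ≤ s := by
    rw [← ENNReal.ofReal_mul (by positivity), ← ENNReal.ofReal_add (by positivity)
      (by positivity)] at hkey
    have h1 := (ENNReal.ofReal_le_ofReal_iff (by positivity)).1 hkey
    rw [div_le_iff₀ (by positivity)]
    linarith
  have hCS : s ^ 2 ≤ S.card * ∑ v ∈ S, (M n v).toReal ^ 2 := sq_sum_le_card_mul_sum_sq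
  have hfin : b ^ 2 / (324 * L) / (n * l ^ 3) ≤ ∑ v ∈ S, (M n v).toReal ^ 2 := by
    have h1 : (b / (6 * l)) ^ 2 ≤ 9 * ρ * ∑ v ∈ S, (M n v).toReal ^ 2 := by
      calc (b / (6 * l)) ^ 2 ≤ s ^ 2 := pow_le_pow_left₀ (by positivity) hsb 2
        _ ≤ _ := hCS
        _ ≤ _ := mul_le_mul_of_nonneg_right hcard (Finset.sum_nonneg fun v _ => sq_nonneg _)
    have h2 : b ^ 2 / (324 * L) / (n * l ^ 3) = (b / (6 * l)) ^ 2 / (9 * ρ) := by
      rw [hρ]
      field_simp
      ring
    rw [h2, div_le_iff₀ (by positivity)]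
    linarith
  calc ENNReal.ofReal (b ^ 2 / (324 * L) / (n * l ^ 3))
      ≤ ENNReal.ofReal (∑ v ∈ S, (M n v).toReal ^ 2) := ENNReal.ofReal_le_ofReal hfin
    _ = ∑ v ∈ S, M n v * M n v := by
        rw [ENNReal.ofReal_sum_of_nonneg fun v _ => sq_nonneg _]
        refine Finset.sum_congr rfl fun v _ => ?_
        rw [ENNReal.ofReal_pow ENNReal.toReal_nonneg, ENNReal.ofReal_toReal (hMf v), pow_two]
    _ ≤ ∑' v, M n v * M n v := ENNReal.sum_le_tsum S

end Pool.Agent.KLog
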