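import Pool.Agent.KLog.Glue

/-! KL10: every half with at least one section is composed of a half and a block. -/

set_option autoImplicit false

open Pool.Agent.LK

namespace Pool.Agent.KLog

open Pool.Agent.KTube Pool.Agent.KRing
open Pool.Agent.LatticeTube (pedges mem_of_mem_pedges)

variable {w : ℤ × ℤ} {l' : List P3} {n : ℕ}

section

variable {k k' : ℤ} {a b a' b' : ℤ × ℤ} {r l A B : List P3}

private lemma rev_chain {l : List P3} (h : l.IsChain Adj) : l.reverse.IsChain Adj := by
  rw [List.isChain_reverse]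
  exact h.imp fun _ _ h => h.symm

private lemma upper_rev (h : Upper k a b r) : Upper k b a r.reverse :=
  ⟨List.nodup_reverse.2 h.nodup, rev_chain h.chain, by rw [List.head?_reverse]; exact h.last,
    by rw [List.getLast?_reverse]; exact h.head, fun u hu => h.lev u (List.mem_reverse.1 hu)⟩

private lemma lower_rev (h : Lower k a b l) : Lower k b a l.reverse :=
  ⟨List.nodup_reverse.2 h.nodup, rev_chain h.chain, by rw [List.head?_reverse]; exact h.last,
    by rw [List.getLast?_reverse]; exact h.head, fun u hu => h.lev u (List.mem_reverse.1 hu)⟩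

private lemma block_rev (h : Block k k' a b a' b' A B) :
    Block k k' b a b' a' B.reverse A.reverse :=
  ⟨h.lt, List.nodup_reverse.2 h.nodupB, List.nodup_reverse.2 h.nodupA,
    fun u hu hu' => h.disj u (List.mem_reverse.1 hu') (List.mem_reverse.1 hu),
    rev_chain h.chainB, rev_chain h.chainA, by rw [List.head?_reverse]; exact h.lastB,
    by rw [List.getLast?_reverse]; exact h.headB, by rw [List.head?_reverse]; exact h.lastA,
    by rw [List.getLast?_reverse]; exact h.headA,
    fun u hu => h.levB u (List.mem_reverse.1 hu), fun u hu => h.levA u (List.mem_reverse.1 hu)⟩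

private lemma block_shift (h : Block k k' a b a' b' A B) (t : P3) :
    Block (k + t.2.2) (k' + t.2.2) (csh t a) (csh t b) (csh t a') (csh t b')
      (A.map (· + t)) (B.map (· + t)) := by
  have hch : ∀ l : List P3, l.IsChain Adj → (l.map (· + t)).IsChain Adj := by
    intro l hl
    rw [List.isChain_map]
    refine hl.imp fun u v huv => ?_
    simpa [Adj] using huv
  refine ⟨by have := h.lt; omega, h.nodupA.map (add_left_injective t),
    h.nodupB.map (add_left_injective t), ?_, hch _ h.chainA, hch _ h.chainB, ?_, ?_, ?_, ?_,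
    ?_, ?_⟩
  · intro u hu hu'
    obtain ⟨x, hx, rfl⟩ := List.mem_map.1 hu
    obtain ⟨y, hy, hxy⟩ := List.mem_map.1 hu'
    have := add_left_injective t hxy
    subst this
    exact h.disj _ hx hy
  · rw [List.head?_map, h.headA]
    simp only [Option.map_some, Option.some.injEq, csh]
    refine Prod.ext rfl (Prod.ext rfl ?_)
    simp only [Prod.snd_add]; ring
  · rw [List.getLast?_map, h.lastA]
    rfl
  · rw [List.head?_map, h.headB]
    rfl
  · rw [List.getLast?_map, h.lastB]
    simp only [Option.map_some, Option.some.injEq, csh]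
    refine Prod.ext rfl (Prod.ext rfl ?_)
    simp only [Prod.snd_add]; ring
  · intro u hu
    obtain ⟨v, hv, rfl⟩ := List.mem_map.1 hu
    have := h.levA v hv
    simp only [Prod.snd_add]; omega
  · intro u hu
    obtain ⟨v, hv, rfl⟩ := List.mem_map.1 hu
    have := h.levB v hv
    simp only [Prod.snd_add]; omega

private lemma leg_map (t : P3) (l : List P3) (c : ℤ × ℤ) (j : ℤ) :
    leg c j ∈ pedges (l.map (· + t)) ↔ leg (c.1 - t.1, c.2 - t.2.1) (j - t.2.2) ∈ pedges l := by
  rw [pedges_map]
  have : leg c j ∈ LK.shift t (pedges l) ↔ _ := mem_shift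
  refine this.trans ?_
  have e1 : ((c.1, c.2, j + 1) : P3) - t = (c.1 - t.1, c.2 - t.2.1, j - t.2.2 + 1) := by
    refine Prod.ext rfl (Prod.ext rfl ?_)
    simp only [Prod.snd_sub]; ring
  rw [e1]
  rfl

private lemma steps_of {p : P3} {s : List P3} (h : (wk p s).IsChain Adj) : Steps s :=
  chain_wk.1 h

/-- the part of a lower half above its highest section with two edges -/
private lemma exists_top (hw : (0 : ℤ × ℤ) ≠ w) (hl' : Lower 0 0 w l') (hn : nsec l' ≠ 0) :
    ∃ (k : ℤ) (a b : ℤ × ℤ) (l A B : List P3), a ≠ b ∧ Lower k a b l ∧ Block k 0 a b 0 w A B ∧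
      l' = B ++ (l ++ A) ∧
      ∀ j, k < j → j < 0 → {c | leg c j ∈ pedges A ∨ leg c j ∈ pedges B}.ncard ≠ 2 := by
  obtain ⟨r, hr⟩ : ∃ r, Upper 0 0 w r := by
    obtain ⟨r, hr⟩ := exists_UU' (k := 0) hw
    exact ⟨r, hr.2.1⟩
  have hfin : {j : ℤ | {c | leg c j ∈ pedges l'}.ncard = 2}.Finite := Set.finite_of_ncard_ne_zero hn
  have hne : {j : ℤ | {c | leg c j ∈ pedges l'}.ncard = 2}.Nonempty := by
    rw [Set.nonempty_iff_ne_empty]
    intro h
    apply hn
    unfold nsec
    rw [h, Set.ncard_empty]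
  obtain ⟨k, hk2, hmax⟩ := Set.exists_max_image _ id hfin hne
  rw [Set.mem_ofPred_eq] at hk2
  have hk0 : k < 0 := by
    have h1 : {c | leg c k ∈ pedges l'}.Nonempty := by
      rw [Set.nonempty_iff_ne_empty]
      intro h
      rw [h, Set.ncard_empty] at hk2
      omega
    obtain ⟨c, hc⟩ := h1
    have := (pedges_lev hl'.lev hc).2
    simp only at this
    omega
  have hcr : ∀ j : ℤ, j < 0 → cross (ring (r ++ l')) j = {c | leg c j ∈ pedges l'} := by
    intro j hj
    ext c
    exact cross_ring_low hr hl' hj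
  have h2 : IsTwo (ring (r ++ l')) k := by
    unfold IsTwo
    rw [hcr k hk0, hk2]
  have hP : IsPolygon (ring (r ++ l')) := (ring_of hw hr hl').isPolygon
  obtain ⟨a, ha⟩ := two_nonempty h2
  obtain ⟨b, r1, l, hab, hr1, hl, hE⟩ := exists_halves hP h2 ha
  have h20 : IsTwo (ring (r1 ++ l)) 0 := by
    rw [hE]
    exact isTwo_ring_of hw hr hl'
  obtain ⟨a', b', A, r', B, hab', hb, hr', hrA⟩ := exists_block hr1 hl hk0 h20
  subst hrA
  rw [hb.ring_rotate hr' hl] at hE
  have hthin : ∀ j, k < j → j < 0 →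
      {c | leg c j ∈ pedges A ∨ leg c j ∈ pedges B}.ncard ≠ 2 := by
    intro j hj hj' h
    have h3 : {c | leg c j ∈ pedges l'}.ncard = 2 := by
      rw [← hcr j hj', ← hE, ← hb.ring_rotate hr' hl, hb.cross_mid hr' hl hj hj']
      exact h
    have := hmax j h3
    simp only [id] at this
    omega
  have hcross : ({a', b'} : Set (ℤ × ℤ)) = {0, w} := by
    rw [← cross_ring_of hr hl', ← hE, cross_ring_of hr' (hb.lower hl)]
  have ha0 : a' = 0 ∨ a' = w := by
    have : a' ∈ ({0, w} : Set (ℤ × ℤ)) := by rw [← hcross]; exact Set.mem_insert _ _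
    simpa using this
  rcases ha0 with rfl | rfl
  · obtain ⟨h3, -, h4⟩ := halves_unique hab' hw hr' (hb.lower hl) hr hl' hE
    subst h3
    exact ⟨k, a, b, l, A, B, hab, hl, hb, h4.symm, hthin⟩
  · have hb0 : b' = 0 := by
      have : (0 : ℤ × ℤ) ∈ ({a', b'} : Set (ℤ × ℤ)) := by rw [hcross]; exact Set.mem_insert _ _
      rcases this with h | h
      · exact absurd h hw
      · exact h.symm
    subst hb0
    have hbr := block_rev hb
    have hE2 : ring (r'.reverse ++ (A.reverse ++ (l.reverse ++ B.reverse))) = ring (r ++ l') := by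
      rw [← hE]
      ext e
      rw [mem_ring_of (upper_rev hr') (hbr.lower (lower_rev hl)),
        mem_ring_of hr' (hb.lower hl)]
      have e1 : A.reverse ++ (l.reverse ++ B.reverse) = (B ++ (l ++ A)).reverse := by
        simp
      rw [e1, mem_pedges_reverse, mem_pedges_reverse]
      tauto
    obtain ⟨-, -, h4⟩ := halves_unique hw hw (upper_rev hr') (hbr.lower (lower_rev hl)) hr hl' hE2
    refine ⟨k, b, a, l.reverse, B.reverse, A.reverse, hab.symm, lower_rev hl, hbr, h4.symm, ?_⟩
    intro j hj hj'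
    have h5 : {c | leg c j ∈ pedges B.reverse ∨ leg c j ∈ pedges A.reverse} =
        {c | leg c j ∈ pedges A ∨ leg c j ∈ pedges B} := by
      ext c
      simp only [Set.mem_ofPred_eq, mem_pedges_reverse]
      exact or_comm
    rw [h5]
    exact hthin j hj hj'

end

theorem glu_surj (h : Half (n + 1) w l') : ∃ (v : ℤ × ℤ) (l : List P3) (π : PP),
    Half n v l ∧ Valid v π ∧ v + dsp π = w ∧ glu v l π = l' := by
  obtain ⟨hLU, hn⟩ := h
  obtain ⟨k, a, b, l, A, B, hab, hl, hb, hl'eq, hthin⟩ :=
    exists_top hLU.1 hLU.2.1 (by rw [hn]; omega)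
  set t : P3 := (-a.1, -a.2, -k) with ht
  have ht1 : t.1 = -a.1 := rfl
  have ht2 : t.2.1 = -a.2 := rfl
  have ht3 : t.2.2 = -k := rfl
  have hbs := block_shift hb t
  have hls := hl.shift t
  have hk0 : k + t.2.2 = 0 := by rw [ht3]; ring
  have hk1 : (0 : ℤ) + t.2.2 = -k := by rw [ht3]; ring
  have ha0 : csh t a = 0 := by
    unfold csh
    rw [ht1, ht2]
    refine Prod.ext ?_ ?_
    · simp
    · simp
  rw [hk0, hk1, ha0] at hbs
  rw [hk0, ha0] at hls
  set v := csh t b with hv
  obtain ⟨sA, hA⟩ := exists_wk (A.map (· + t)) _ hbs.headA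
  obtain ⟨sB, hB⟩ := exists_wk (B.map (· + t)).reverse _
    (by rw [List.head?_reverse]; exact hbs.lastB)
  have hA0 : A.map (· + t) = wk (0, 0, 1) sA := by
    rw [hA]
    rfl
  have hB0 : B.map (· + t) = (wk (v.1, v.2, 1) sB).reverse := by
    rw [← List.reverse_reverse (B.map (· + t)), hB]
    rfl
  have hstA : Steps sA := by
    refine steps_of (p := (0, 0, 1)) ?_
    rw [← hA0]
    exact hbs.chainA
  have hstB : Steps sB := by
    refine steps_of (p := (v.1, v.2, 1)) ?_
    have h1 := rev_chain hbs.chainB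
    rw [hB0, List.reverse_reverse] at h1
    exact h1
  have hsumA : ((0, 0, 1) : P3) + sA.sum = (-a.1, -a.2, -k) := by
    have h1 := hbs.lastA
    rw [hA0, last_wk, Option.some.injEq] at h1
    rw [h1]
    unfold csh
    rw [ht1, ht2]
    simp
  have hsumB : ((v.1, v.2, 1) : P3) + sB.sum = (w.1 - a.1, w.2 - a.2, -k) := by
    have h1 := hbs.headB
    rw [hB0, List.head?_reverse, last_wk, Option.some.injEq] at h1
    rw [h1]
    unfold csh
    rw [ht1, ht2]
    simp only [sub_eq_add_neg]
  have hA1 : sA.sum.1 = -a.1 := by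
    have := congrArg Prod.fst hsumA
    simpa using this
  have hA2 : sA.sum.2.1 = -a.2 := by
    have := congrArg (fun p : P3 => p.2.1) hsumA
    simpa using this
  have hA3 : sA.sum.2.2 + 1 = -k := by
    have := congrArg (fun p : P3 => p.2.2) hsumA
    simp only [Prod.snd_add] at this
    omega
  have hB1 : v.1 + sB.sum.1 = w.1 - a.1 := by
    have := congrArg Prod.fst hsumB
    simpa using this
  have hB2 : v.2 + sB.sum.2.1 = w.2 - a.2 := by
    have := congrArg (fun p : P3 => p.2.1) hsumB
    simpa using this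
  have hgt' : hgt (sA, sB) = -k := hA3
  have hz1 : hz sA.sum = csh t 0 := by
    unfold hz csh
    rw [ht1, ht2, hA1, hA2]
    simp
  have hz2 : v + hz sB.sum = csh t w := by
    unfold csh
    rw [ht1, ht2]
    refine Prod.ext ?_ ?_
    · change v.1 + sB.sum.1 = w.1 + -a.1
      rw [hB1]; ring
    · change v.2 + sB.sum.2.1 = w.2 + -a.2
      rw [hB2]; ring
  have hsdA : sdA (sA, sB) = A.map (· + t) := hA0.symm
  have hsdB : sdB v (sA, sB) = B.map (· + t) := hB0.symm
  have hv0 : v ≠ 0 := by
    intro h0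
    exact csh_ne (t := t) hab.symm (by rw [← hv, h0, ha0])
  have hgeo : Geo v (sA, sB) := by
    refine ⟨hv0, hstA, hstB, ?_, ?_⟩
    · rw [hsdA, hsdB, hgt']
      change Block 0 (-k) 0 v (hz sA.sum) (v + hz sB.sum) _ _
      rw [hz1, hz2]
      exact hbs
    · intro j hj hj'
      rw [hgt'] at hj'
      have h1 := hthin (j + k) (by omega) (by omega)
      intro h2
      apply h1
      rw [← h2, hsdA, hsdB]
      have h3 : {c | leg c j ∈ pedges (A.map (· + t)) ∨ leg c j ∈ pedges (B.map (· + t))} =
          (fun c : ℤ × ℤ => csh t c) ''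
            {c | leg c (j + k) ∈ pedges A ∨ leg c (j + k) ∈ pedges B} := by
        ext c
        have h4 : j - t.2.2 = j + k := by rw [ht3]; ring
        simp only [Set.mem_ofPred_eq, leg_map, h4, Set.mem_image]
        constructor
        · intro h5
          refine ⟨(c.1 - t.1, c.2 - t.2.1), h5, ?_⟩
          unfold csh
          simp
        · rintro ⟨d, hd, rfl⟩
          unfold csh
          simpa using hd
      rw [h3, Set.ncard_image_of_injective]
      intro c d hcd
      by_contra hne
      exact csh_ne (t := t) hne hcd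
  have hsh : l'.map (· + t) = sdB v (sA, sB) ++ (l.map (· + t) ++ sdA (sA, sB)) := by
    rw [hsdA, hsdB, hl'eq]
    simp only [List.map_append]
  have hLU2 : LU (hgt (sA, sB)) (hz sA.sum) (v + hz sB.sum)
      (sdB v (sA, sB) ++ (l.map (· + t) ++ sdA (sA, sB))) := by
    have h1 := hLU.shift t
    rw [hk1] at h1
    rw [hgt', hz1, hz2, ← hsh]
    exact h1
  obtain ⟨h3, h4⟩ := (unk_lu hgeo hls).1 hLU2
  refine ⟨v, l.map (· + t), (sA, sB), ⟨h3, ?_⟩, ⟨hgeo, h4⟩, ?_, ?_⟩
  · have h5 := nsec_glu hgeo hls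
    rw [← hsh, nsec_map_add, hn] at h5
    omega
  · refine Prod.ext ?_ ?_
    · change v.1 + (sB.sum.1 - sA.sum.1) = w.1
      rw [hA1]
      linarith
    · change v.2 + (sB.sum.2.1 - sA.sum.2.1) = w.2
      rw [hA2]
      linarith
  · unfold glu
    rw [← hsh, List.map_map]
    have h6 : ((· + (-((sA, sB) : PP).1.sum.1, -((sA, sB) : PP).1.sum.2.1, -(hgt (sA, sB)))) ∘
        (· + t) : P3 → P3) = id := by
      funext u
      simp only [Function.comp_apply, id]
      rw [hgt', hA1, hA2, ht]
      refine Prod.ext ?_ (Prod.ext ?_ ?_)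
      · simp
      · simp
      · simp
    rw [h6, List.map_id]

end Pool.Agent.KLog
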