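import Pool.Agent.KLog.GlueInj
import Pool.Agent.KLog.GlueSurj

/-! KL11: the recursion. -/

set_option autoImplicit false

open Pool.Agent.LK
open scoped ENNReal

namespace Pool.Agent.KLog

open Pool.Agent.KTube Pool.Agent.KRing

variable {y z : ℝ≥0∞}

theorem MM_zero (n : ℕ) : MM y z n 0 = 0 := by
  have : IsEmpty {l // Half n 0 l} := ⟨fun l => l.2.1.1 rfl⟩
  rw [MM, tsum_empty]

theorem MM_pos (hy : y ≠ 0) (hz : z ≠ 0) {v : ℤ × ℤ} (hv : v ≠ 0) : MM y z 0 v ≠ 0 := by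
  obtain ⟨l, hl⟩ := exists_flat hv
  intro h
  rw [MM, ENNReal.tsum_eq_zero] at h
  have h1 := h ⟨l, hl⟩
  rw [wl] at h1
  exact mul_ne_zero (pow_ne_zero _ hy) (pow_ne_zero _ hz) h1

/-- The half composed of a half and a block, as a map. -/
private def gluMap (n : ℕ) (x : Σ v : ℤ × ℤ, {l // Half n v l} × {π // Valid v π}) :
    Σ w : ℤ × ℤ, {l // Half (n + 1) w l} :=
  ⟨x.1 + dsp x.2.2.1, ⟨glu x.1 x.2.1.1 x.2.2.1, glu_half x.2.1.2 x.2.2.2⟩⟩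

private theorem gluMap_bijective (n : ℕ) : Function.Bijective (gluMap n) := by
  constructor
  · rintro ⟨v, ⟨l, hl⟩, ⟨π, hπ⟩⟩ ⟨v', ⟨l', hl'⟩, ⟨π', hπ'⟩⟩ h
    have h1 : glu v l π = glu v' l' π' :=
      congrArg (fun x : Σ w : ℤ × ℤ, {l // Half (n + 1) w l} => x.2.1) h
    obtain ⟨rfl, rfl, rfl⟩ := glu_inj hl hπ hl' hπ' h1
    rfl
  · rintro ⟨w, ⟨l', hl'⟩⟩
    obtain ⟨v, l, π, hl, hπ, rfl, rfl⟩ := glu_surj hl'
    exact ⟨⟨v, ⟨l, hl⟩, ⟨π, hπ⟩⟩, rfl⟩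

/-- **The recursion.** -/
theorem MM_step (n : ℕ) (f : ℤ × ℤ → ℝ≥0∞) : ∑' v, MM y z (n + 1) v * f v =
    ∑' v, MM y z n v * ∑' π : {π // Valid v π}, wt y z π.1 * f (v + dsp π.1) := by
  have hL : ∑' v, MM y z (n + 1) v * f v =
      ∑' x : Σ w : ℤ × ℤ, {l // Half (n + 1) w l}, wl y z x.2.1 * f x.1 := by
    rw [ENNReal.tsum_sigma' (fun x : Σ w : ℤ × ℤ, {l // Half (n + 1) w l} =>
      wl y z x.2.1 * f x.1)]
    refine tsum_congr fun v => ?_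
    rw [MM, ← ENNReal.tsum_mul_right]
  have hR : ∑' v, MM y z n v * ∑' π : {π // Valid v π}, wt y z π.1 * f (v + dsp π.1) =
      ∑' x : Σ v : ℤ × ℤ, {l // Half n v l} × {π // Valid v π},
        wl y z (gluMap n x).2.1 * f (gluMap n x).1 := by
    rw [ENNReal.tsum_sigma' (fun x : Σ v : ℤ × ℤ, {l // Half n v l} × {π // Valid v π} =>
      wl y z (gluMap n x).2.1 * f (gluMap n x).1)]
    refine tsum_congr fun v => ?_
    rw [ENNReal.tsum_prod', MM, ← ENNReal.tsum_mul_right]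
    refine tsum_congr fun l => ?_
    rw [← ENNReal.tsum_mul_left]
    refine tsum_congr fun π => ?_
    show _ = wl y z (glu v l.1 π.1) * f (v + dsp π.1)
    rw [wl_glu l.2 π.2]
    ring
  rw [hL, hR]
  exact ((Equiv.ofBijective _ (gluMap_bijective n)).tsum_eq
    (fun x : Σ w : ℤ × ℤ, {l // Half (n + 1) w l} => wl y z x.2.1 * f x.1)).symm

end Pool.Agent.KLog
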