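import Pool.Agent.KLog.Crit
import Pool.Agent.KLog.Far
import Pool.Agent.KLog.Step
import Pool.Agent.KLog.CapSum
import Pool.Agent.KLog.SeqB

/-! KL25: the kernel of the blocks satisfies the hypotheses. -/

set_option autoImplicit false

open Pool.Agent.LK
open scoped ENNReal

namespace Pool.Agent.KLog

open Pool.Agent.KTube Pool.Agent.KRing

variable {y z : ℝ}

theorem ker_ok (hy : 0 < y) (hz : 0 < z) (hz1 : z ≤ 1 / 10 ^ 4) (hq : y * z ^ 2 ≤ 1)
    (hone : ∑' π : {π // Free π}, wt (ENNReal.ofReal y) (ENNReal.ofReal z) π.1 = 1) :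
    (ker y z).Ok where
  z_pos := hz
  z_le := hz1
  q_pos := mul_pos hy (pow_pos hz 2)
  u_le p hp := by
    have h : ∃ v, Valid v p := by
      rcases hp with ⟨v, -, hv⟩ | h
      · exact ⟨v, hv⟩
      · exact h
    obtain ⟨v, hv⟩ := h
    exact nrm_dsp_le hv.1.stA hv.1.stB
  far _ _ h := valid_far h
  bas_V _ hv f := basV hy hz hv f
  bas_F f := basF hy hz f
  bas_l _ h := h.2
  rest := rest_le hy hz hz1 hq
  one := hone
  rot := by
    obtain ⟨σ, hσ⟩ := free_rot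
    exact ⟨σ, fun p => ⟨(hσ p).1 _ _, (hσ p).2.1, (hσ p).2.2⟩⟩

theorem seq_MM (hy : 0 < y) (hz : 0 < z) (hz1 : z ≤ 1 / 10 ^ 4) (hq : y * z ^ 2 ≤ 1) :
    Seq (ker y z) (MM (ENNReal.ofReal y) (ENNReal.ofReal z)) where
  zero n := MM_zero n
  step n f := MM_step n f
  fin := cap_sum hy hz hz1 hq
  pos _ hv := MM_pos (ENNReal.ofReal_pos.2 hy).ne' (ENNReal.ofReal_pos.2 hz).ne' hv

end Pool.Agent.KLog
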