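import Pool.Agent.KLog.Caps

/-! KL8: a half composed with a block is a half. -/

set_option autoImplicit false

open Pool.Agent.LK
open scoped ENNReal

namespace Pool.Agent.KLog

open Pool.Agent.KTube Pool.Agent.KRing
open Pool.Agent.LatticeTube (pedges)

variable {v : ℤ × ℤ} {π : PP} {l r : List P3} {n : ℕ} {y z : ℝ≥0∞}

theorem lspan_map_add (t : P3) (l : List P3) : lspan (l.map (· + t)) = lspan l :=
  lspan_map t l

private theorem leg_mem_map (t : P3) (l : List P3) (c : ℤ × ℤ) (j : ℤ) :
    leg c j ∈ pedges (l.map (· + t)) ↔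
      leg (c.1 - t.1, c.2 - t.2.1) (j - t.2.2) ∈ pedges l := by
  rw [pedges_map]
  have : leg c j ∈ LK.shift t (pedges l) ↔ _ := mem_shift
  refine this.trans ?_
  have e1 : ((c.1, c.2, j + 1) : P3) - t = (c.1 - t.1, c.2 - t.2.1, j - t.2.2 + 1) := by
    refine Prod.ext rfl (Prod.ext rfl ?_)
    simp only [Prod.snd_sub]; ring
  rw [e1]
  rfl

theorem nsec_map_add (t : P3) (l : List P3) : nsec (l.map (· + t)) = nsec l := by
  have h1 : ∀ j : ℤ, {c | leg c j ∈ pedges (l.map (· + t))}.ncard =
      {c | leg c (j - t.2.2) ∈ pedges l}.ncard := by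
    intro j
    have h2 : {c | leg c j ∈ pedges (l.map (· + t))} =
        (fun c : ℤ × ℤ => (c.1 + t.1, c.2 + t.2.1)) '' {c | leg c (j - t.2.2) ∈ pedges l} := by
      ext c
      simp only [Set.mem_ofPred_eq, Set.mem_image]
      rw [leg_mem_map]
      constructor
      · intro h
        exact ⟨_, h, by simp⟩
      · rintro ⟨d, hd, rfl⟩
        simpa using hd
    rw [h2]
    refine Set.ncard_image_of_injective _ ?_
    intro c d hcd
    simp only [Prod.mk.injEq, add_left_inj] at hcd
    exact Prod.ext hcd.1 hcd.2
  have h3 : {j : ℤ | {c | leg c j ∈ pedges (l.map (· + t))}.ncard = 2} =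
      (fun j => j + t.2.2) '' {j : ℤ | {c | leg c j ∈ pedges l}.ncard = 2} := by
    ext j
    simp only [Set.mem_ofPred_eq, Set.mem_image]
    rw [h1]
    constructor
    · intro h
      exact ⟨_, h, by simp⟩
    · rintro ⟨i, hi, rfl⟩
      simpa using hi
  unfold nsec
  rw [h3]
  exact Set.ncard_image_of_injective _ (add_left_injective _)

/-- The planes of a lower half extended by a block. -/
theorem lspan_glu (hg : Geo v π) (hl : Lower 0 0 v l) :
    lspan (sdB v π ++ (l ++ sdA π)) = lspan l + (hgt π).toNat := by
  have hb := hg.block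
  have hlt := hb.lt
  have hset : planes (sdB v π ++ (l ++ sdA π)) = ↑(Finset.Ico 0 (hgt π)) ∪ planes l := by
    ext j
    rw [Set.mem_union, Finset.mem_coe, Finset.mem_Ico]
    constructor
    · rintro ⟨c, hc⟩
      rw [hb.mem_lower hl] at hc
      rcases hc with h | h | h | h | h
      · have h1 := LatticeTube.mem_of_mem_pedges h
        have h2 := hb.levA _ h1.1
        have h3 := hb.levA _ h1.2
        simp only at h2 h3
        left; omega
      · have h1 := LatticeTube.mem_of_mem_pedges h
        have h2 := hb.levB _ h1.1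
        have h3 := hb.levB _ h1.2
        simp only at h2 h3
        left; omega
      · exact Or.inr ⟨c, h⟩
      · have := (leg_inj h).2
        left; omega
      · have := (leg_inj h).2
        left; omega
    · rintro (⟨h1, h2⟩ | ⟨c, hc⟩)
      · rcases eq_or_lt_of_le h1 with rfl | h3
        · exact ⟨0, (hb.mem_lower hl).2 (Or.inr (Or.inr (Or.inr (Or.inl rfl))))⟩
        · obtain ⟨c, hc⟩ := mem_planes hb.chainA hb.headA (List.mem_of_getLast? hb.lastA)
            (j := j) (by simp only; omega) (by simp only; omega)
          exact ⟨c, (hb.mem_lower hl).2 (Or.inl hc)⟩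
      · exact ⟨c, (hb.mem_lower hl).2 (Or.inr (Or.inr (Or.inl hc)))⟩
  have hdis : Disjoint (↑(Finset.Ico 0 (hgt π)) : Set ℤ) (planes l) := by
    rw [Set.disjoint_left]
    rintro j h3 ⟨c, hc⟩
    rw [Finset.mem_coe, Finset.mem_Ico] at h3
    have := (pedges_lev hl.lev hc).2
    simp only at this
    omega
  unfold lspan
  rw [hset, Set.ncard_union_eq hdis (Finset.finite_toSet _) (planes_finite' l),
    Set.ncard_coe_finset, Int.card_Ico, sub_zero, add_comm]

/-- The plane of the joint is the only new section with two edges. -/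
theorem nsec_glu (hg : Geo v π) (hl : Lower 0 0 v l) :
    nsec (sdB v π ++ (l ++ sdA π)) = nsec l + 1 := by
  have hb := hg.block
  have hlt := hb.lt
  have hlow : ∀ c j, leg c j ∈ pedges l → j < 0 := by
    intro c j h
    have := (pedges_lev hl.lev h).2
    simp only at this
    omega
  have hA : ∀ c j, leg c j ∈ pedges (sdA π) → 0 < j ∧ j < hgt π := by
    intro c j h
    have h1 := LatticeTube.mem_of_mem_pedges h
    have h2 := hb.levA _ h1.1
    have h3 := hb.levA _ h1.2
    simp only at h2 h3
    omega
  have hB : ∀ c j, leg c j ∈ pedges (sdB v π) → 0 < j ∧ j < hgt π := by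
    intro c j h
    have h1 := LatticeTube.mem_of_mem_pedges h
    have h2 := hb.levB _ h1.1
    have h3 := hb.levB _ h1.2
    simp only at h2 h3
    omega
  have hset : {j : ℤ | {c | leg c j ∈ pedges (sdB v π ++ (l ++ sdA π))}.ncard = 2} =
      insert 0 {j : ℤ | {c | leg c j ∈ pedges l}.ncard = 2} := by
    ext j
    simp only [Set.mem_ofPred_eq, Set.mem_insert_iff]
    rcases lt_trichotomy j 0 with hj | rfl | hj
    · have h1 : {c | leg c j ∈ pedges (sdB v π ++ (l ++ sdA π))} =
          {c | leg c j ∈ pedges l} := by
        ext c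
        simp only [Set.mem_ofPred_eq]
        rw [hb.mem_lower hl]
        constructor
        · rintro (h | h | h | h | h)
          · have := hA c j h; omega
          · have := hB c j h; omega
          · exact h
          · have := (leg_inj h).2; omega
          · have := (leg_inj h).2; omega
        · exact fun h => Or.inr (Or.inr (Or.inl h))
      rw [h1]
      constructor
      · exact Or.inr
      · rintro (h | h)
        · omega
        · exact h
    · have h1 : {c | leg c 0 ∈ pedges (sdB v π ++ (l ++ sdA π))} = {0, v} := by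
        ext c
        simp only [Set.mem_ofPred_eq, Set.mem_insert_iff, Set.mem_singleton_iff]
        rw [hb.mem_lower hl]
        constructor
        · rintro (h | h | h | h | h)
          · have := hA c 0 h; omega
          · have := hB c 0 h; omega
          · have := hlow c 0 h; omega
          · exact Or.inl (leg_inj h).1
          · exact Or.inr (leg_inj h).1
        · rintro (rfl | rfl)
          · exact Or.inr (Or.inr (Or.inr (Or.inl rfl)))
          · exact Or.inr (Or.inr (Or.inr (Or.inr rfl)))
      rw [h1, Set.ncard_pair hg.ne.symm]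
      simp
    · have h2 : {c | leg c j ∈ pedges l} = ∅ := by
        ext c
        simp only [Set.mem_ofPred_eq, Set.mem_empty_iff_false, iff_false]
        intro h
        have := hlow c j h
        omega
      have h1 : {c | leg c j ∈ pedges (sdB v π ++ (l ++ sdA π))} =
          {c | leg c j ∈ pedges (sdA π) ∨ leg c j ∈ pedges (sdB v π)} := by
        ext c
        simp only [Set.mem_ofPred_eq]
        rw [hb.mem_lower hl]
        constructor
        · rintro (h | h | h | h | h)
          · exact Or.inl h
          · exact Or.inr h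
          · have := hlow c j h; omega
          · have := (leg_inj h).2; omega
          · have := (leg_inj h).2; omega
        · rintro (h | h)
          · exact Or.inl h
          · exact Or.inr (Or.inl h)
      have h3 : {c | leg c j ∈ pedges (sdA π) ∨ leg c j ∈ pedges (sdB v π)}.ncard ≠ 2 := by
        rcases lt_or_ge j (hgt π) with h4 | h4
        · exact hg.thick j hj h4
        · have h5 : {c | leg c j ∈ pedges (sdA π) ∨ leg c j ∈ pedges (sdB v π)} = ∅ := by
            ext c
            simp only [Set.mem_ofPred_eq, Set.mem_empty_iff_false, iff_false]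
            rintro (h | h)
            · have := hA c j h; omega
            · have := hB c j h; omega
          rw [h5, Set.ncard_empty]
          decide
      rw [h1, h2, Set.ncard_empty]
      constructor
      · exact fun h => absurd h h3
      · rintro (h | h)
        · omega
        · exact absurd h (by decide)
  have hfin : {j : ℤ | {c | leg c j ∈ pedges l}.ncard = 2}.Finite := by
    refine (planes_finite' l).subset ?_
    intro j hj
    have hj' : {c | leg c j ∈ pedges l}.ncard = 2 := hj
    have hne : {c | leg c j ∈ pedges l}.Nonempty := by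
      refine Set.nonempty_of_ncard_ne_zero ?_
      rw [hj']
      decide
    obtain ⟨c, hc⟩ := hne
    exact ⟨c, hc⟩
  have h0 : (0 : ℤ) ∉ {j : ℤ | {c | leg c j ∈ pedges l}.ncard = 2} := by
    intro h
    have h' : {c | leg c 0 ∈ pedges l}.ncard = 2 := h
    have hne : {c | leg c 0 ∈ pedges l}.Nonempty := by
      refine Set.nonempty_of_ncard_ne_zero ?_
      rw [h']
      decide
    obtain ⟨c, hc⟩ := hne
    have := hlow c 0 hc
    omega
  unfold nsec
  rw [hset, Set.ncard_insert_of_notMem h0 hfin]

theorem glu_half (hl : Half n v l) (hπ : Valid v π) : Half (n + 1) (v + dsp π) (glu v l π) := by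
  obtain ⟨h1, h2⟩ := hl
  obtain ⟨hg, hu⟩ := hπ
  have h3 := (unk_lu hg h1.2.1).2 ⟨h1, hu⟩
  have h4 := h3.shift (-(π.1.sum.1), -(π.1.sum.2.1), -(hgt π))
  refine ⟨?_, ?_⟩
  · have e1 : hgt π + ((-(π.1.sum.1), -(π.1.sum.2.1), -(hgt π)) : P3).2.2 = 0 := by
      simp only; ring
    have e2 : csh (-(π.1.sum.1), -(π.1.sum.2.1), -(hgt π)) (hz π.1.sum) = 0 := by
      refine Prod.ext ?_ ?_
      · simp [csh, hz]
      · simp [csh, hz]
    have e3 : csh (-(π.1.sum.1), -(π.1.sum.2.1), -(hgt π)) (v + hz π.2.sum) = v + dsp π := by
      refine Prod.ext ?_ ?_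
      · simp only [csh, hz, dsp, Prod.fst_add, Prod.fst_sub]; ring
      · simp only [csh, hz, dsp, Prod.snd_add, Prod.snd_sub]; ring
    rw [e1, e2, e3] at h4
    exact h4
  · unfold glu
    rw [nsec_map_add, nsec_glu hg h1.2.1, h2]

theorem wl_glu (hl : Half n v l) (hπ : Valid v π) : wl y z (glu v l π) = wl y z l * wt y z π := by
  obtain ⟨h1, h2⟩ := hl
  obtain ⟨hg, hu⟩ := hπ
  unfold wl wt glu
  rw [lspan_map_add, lspan_glu hg h1.2.1]
  have hlen : ((sdB v π ++ (l ++ sdA π)).map
      (· + ((-(π.1.sum.1), -(π.1.sum.2.1), -(hgt π)) : P3))).length =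
      l.length + (π.1.length + π.2.length + 2) := by
    simp only [List.length_map, List.length_append, sdA, sdB, List.length_reverse, length_wk]
    omega
  rw [hlen, pow_add, pow_add]
  ring

end Pool.Agent.KLog
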