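import Pool.Agent.KLog.Caps

/-! KL17: cutting in the direction of the first coordinate. -/

set_option autoImplicit false

open Pool.Agent.LK

namespace Pool.Agent.KLog

open Pool.Agent.KTube Pool.Agent.KRing
open Pool.Agent.LatticeTube (pedges)

/-- Exchange of the first and the third coordinate. -/
def sw (u : P3) : P3 := (u.2.2, u.2.1, u.1)

theorem sw_sw (u : P3) : sw (sw u) = u := rfl

private theorem sw_eq : sw = latIso 0 (0, 0, 1) (0, 1, 0) (1, 0, 0) := by
  funext u
  obtain ⟨x, y, z⟩ := u
  simp [sw, latIso]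

private theorem sw_frame : Frame (0, 0, 1) (0, 1, 0) (1, 0, 0) := by
  constructor <;> simp [dot3]

private theorem ring_map_sw (c : List P3) : ring (c.map sw) = mapE sw (ring c) := by
  unfold ring
  rw [← pedges_map, List.map_append, List.getLast?_map]
  congr 2
  cases c.getLast? <;> rfl

private theorem unknotted_sw' (c : List P3) :
    Unknotted (ring (c.map sw)) ↔ Unknotted (ring c) := by
  rw [ring_map_sw, sw_eq]
  exact unknotted_latIso sw_frame 0 _

theorem unknotted_sw {c : List P3} (hc : Ring c) :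
    Unknotted (ring (c.map sw)) ↔ Unknotted (ring c) := by
  exact unknotted_sw' c

/-- **Cutting at a plane `x = k + 1/2`.** -/
theorem unknotted_x {k : ℤ} {a b : ℤ × ℤ} {r l : List P3} (hab : a ≠ b)
    (hr : Upper k a b (r.map sw)) (hl : Lower k a b (l.map sw)) :
    Unknotted (ring (r ++ l)) ↔ UU k a b (r.map sw) ∧ LU k a b (l.map sw) := by
  rw [← unknotted_sw' (r ++ l), List.map_append,
    unknotted_iff (ring_of hab hr hl).isPolygon (isTwo_ring_of hab hr hl)]
  constructor
  · rintro ⟨h1, h2⟩
    exact ⟨⟨hab, hr, _, hl, h2⟩, ⟨hab, hl, _, hr, h1⟩⟩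
  · rintro ⟨h1, h2⟩
    exact ⟨h2.lowU hr, h1.uppU hl⟩

end Pool.Agent.KLog
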