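import Pool.Agent.KLog.Rest
import Pool.Agent.KLog.BasicV

/-! KL24: the critical point. -/

set_option autoImplicit false

open Pool.Agent.LK
open scoped ENNReal

namespace Pool.Agent.KLog

open Pool.Agent.KTube Pool.Agent.KRing

variable {y z : ℝ}

/-- The real weight of a block. -/
private noncomputable def rwt (y z : ℝ) (π : PP) : ℝ :=
  y ^ (hgt π).toNat * z ^ (π.1.length + π.2.length + 2)

private theorem rwt_nonneg (hy : 0 ≤ y) (hz : 0 ≤ z) (π : PP) : 0 ≤ rwt y z π :=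
  mul_nonneg (pow_nonneg hy _) (pow_nonneg hz _)

private theorem ofReal_rwt (hy : 0 ≤ y) (hz : 0 ≤ z) (π : PP) :
    ENNReal.ofReal (rwt y z π) = wt (ENNReal.ofReal y) (ENNReal.ofReal z) π := by
  unfold rwt wt
  rw [ENNReal.ofReal_mul (pow_nonneg hy _), ENNReal.ofReal_pow hy, ENNReal.ofReal_pow hz]

private theorem split_free (g : PP → ℝ≥0∞) :
    ∑' π : {π // Free π}, g π.1 = ∑' π : {π // Bas π ∧ Free π}, g π.1 +
      ∑' π : {π // ¬ Bas π ∧ Free π}, g π.1 := by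
  classical
  have h1 : ∑' π : {π // Free π}, g π.1 = ∑' π, Set.indicator {π | Free π} g π :=
    tsum_subtype {π | Free π} g
  have h2 : ∑' π : {π // Bas π ∧ Free π}, g π.1 =
      ∑' π, Set.indicator {π | Bas π ∧ Free π} g π := tsum_subtype {π | Bas π ∧ Free π} g
  have h3 : ∑' π : {π // ¬ Bas π ∧ Free π}, g π.1 =
      ∑' π, Set.indicator {π | ¬ Bas π ∧ Free π} g π := tsum_subtype {π | ¬ Bas π ∧ Free π} g
  rw [h1, h2, h3, ← ENNReal.tsum_add]
  refine tsum_congr fun π => ?_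
  by_cases hf : Free π <;> by_cases hb : Bas π <;> simp [Set.indicator, hf, hb]

private theorem rest_free_le (hy : 0 < y) (hz : 0 < z) (hz1 : z ≤ 1 / 10 ^ 4)
    (hq : y * z ^ 2 ≤ 1) :
    ∑' π : {π // ¬ Bas π ∧ Free π}, wt (ENNReal.ofReal y) (ENNReal.ofReal z) π.1 ≤
      ENNReal.ofReal (z / 4) := by
  refine le_trans ?_ (rest_le hy hz hz1 hq)
  refine le_trans ?_ (ENNReal.tsum_comp_le_tsum_of_injective
    (f := fun p : {π // ¬ Bas π ∧ Free π} =>
      (⟨p.1, p.2.1, Or.inl p.2.2⟩ : {p // ¬ Bas p ∧ (Free p ∨ ∃ v, Valid v p)})) ?_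
    (fun p : {p // ¬ Bas p ∧ (Free p ∨ ∃ v, Valid v p)} =>
      wt (ENNReal.ofReal y) (ENNReal.ofReal z) p.1 * 4 ^ nh p.1))
  · refine ENNReal.tsum_le_tsum fun p => ?_
    refine le_mul_of_one_le_right (zero_le) ?_
    exact one_le_pow₀ (by norm_num)
  · intro a b h
    exact Subtype.ext (congrArg (fun p : {p // ¬ Bas p ∧ (Free p ∨ ∃ v, Valid v p)} => p.1) h)

/-- **The critical point.** -/
theorem exists_crit (hy : 10 ^ 8 ≤ y) : ∃ z : ℝ, 0 < z ∧ z ≤ 1 / 10 ^ 4 ∧ y * z ^ 2 ≤ 1 ∧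
    ∑' π : {π // Free π}, wt (ENNReal.ofReal y) (ENNReal.ofReal z) π.1 = 1 := by
  have hy0 : 0 < y := lt_of_lt_of_le (by norm_num) hy
  have hs0 : 0 < Real.sqrt y := Real.sqrt_pos.2 hy0
  have hs : 10 ^ 4 ≤ Real.sqrt y := by
    refine Real.le_sqrt_of_sq_le ?_
    norm_num at hy ⊢
    exact hy
  set z1 : ℝ := 1 / Real.sqrt y with hz1
  have hz1p : 0 < z1 := by positivity
  have hz1le : z1 ≤ 1 / 10 ^ 4 := one_div_le_one_div_of_le (by norm_num) hs
  have hyz : y * z1 ^ 2 = 1 := by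
    rw [hz1, div_pow, Real.sq_sqrt hy0.le, one_pow]
    field_simp
  -- the basic part at `z1`
  have hbas : ∑' p : {p // Bas p ∧ Free p}, wt (ENNReal.ofReal y) (ENNReal.ofReal z1) p.1 =
      ENNReal.ofReal (1 + 8 * z1) := by
    have h := basF (y := y) (z := z1) hy0 hz1p (fun _ => 1)
    simp only [mul_one] at h
    rw [h, hyz]
    unfold nb
    rw [ENNReal.ofReal_add (by norm_num) (by positivity)]
    congr 1
    have h4 : (1 : ℝ≥0∞) + 1 + 1 + 1 = ENNReal.ofReal 4 := by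
      rw [show ENNReal.ofReal (4 : ℝ) = 4 by norm_num]
      norm_num
    rw [h4, ← ENNReal.ofReal_mul (by positivity)]
    congr 1
    ring
  -- the sum at `z1` is finite
  have hfin : ∑' π : {π // Free π}, wt (ENNReal.ofReal y) (ENNReal.ofReal z1) π.1 ≠ ⊤ := by
    rw [split_free, hbas]
    refine ENNReal.add_ne_top.2 ⟨ENNReal.ofReal_ne_top, ne_top_of_le_ne_top
      ENNReal.ofReal_ne_top (rest_free_le hy0 hz1p hz1le hyz.le)⟩
  have hge : ENNReal.ofReal (1 + 8 * z1) ≤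
      ∑' π : {π // Free π}, wt (ENNReal.ofReal y) (ENNReal.ofReal z1) π.1 := by
    rw [split_free, hbas]
    exact le_self_add
  have hsum : Summable fun π : {π // Free π} => rwt y z1 π.1 := by
    have h := ENNReal.summable_toReal hfin
    refine h.congr fun π => ?_
    rw [← ofReal_rwt hy0.le hz1p.le, ENNReal.toReal_ofReal (rwt_nonneg hy0.le hz1p.le _)]
  -- monotone
  have hmono : ∀ z ∈ Set.Icc (0 : ℝ) z1, ∀ π : PP, rwt y z π ≤ rwt y z1 π := by
    intro z hz π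
    unfold rwt
    exact mul_le_mul_of_nonneg_left (pow_le_pow_left₀ hz.1 hz.2 _) (pow_nonneg hy0.le _)
  have hsumz : ∀ z ∈ Set.Icc (0 : ℝ) z1, Summable fun π : {π // Free π} => rwt y z π.1 := by
    intro z hz
    exact Summable.of_nonneg_of_le (fun π => rwt_nonneg hy0.le hz.1 _)
      (fun π => hmono z hz π.1) hsum
  -- the real function
  set F : ℝ → ℝ := fun z => ∑' π : {π // Free π}, rwt y z π.1 with hF
  have hcont : ContinuousOn F (Set.Icc 0 z1) := by
    refine continuousOn_tsum (u := fun π : {π // Free π} => rwt y z1 π.1) (fun π => ?_) hsum ?_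
    · unfold rwt
      exact (continuous_const.mul (continuous_pow _)).continuousOn
    · intro π z hz
      rw [Real.norm_of_nonneg (rwt_nonneg hy0.le hz.1 _)]
      exact hmono z hz π.1
  have hconv : ∀ z ∈ Set.Icc (0 : ℝ) z1,
      ∑' π : {π // Free π}, wt (ENNReal.ofReal y) (ENNReal.ofReal z) π.1 =
        ENNReal.ofReal (F z) := by
    intro z hz
    rw [hF]
    rw [ENNReal.ofReal_tsum_of_nonneg (fun π => rwt_nonneg hy0.le hz.1 _) (hsumz z hz)]
    exact tsum_congr fun π => (ofReal_rwt hy0.le hz.1 π.1).symm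
  have hF0 : F 0 = 0 := by
    rw [hF]
    have : ∀ π : {π // Free π}, rwt y 0 π.1 = 0 := by
      intro π
      unfold rwt
      rw [zero_pow (by omega), mul_zero]
    simp only [this, tsum_zero]
  have hF1 : 1 ≤ F z1 := by
    rw [hconv z1 ⟨hz1p.le, le_rfl⟩] at hge
    have h0 : 0 ≤ F z1 := tsum_nonneg fun π => rwt_nonneg hy0.le hz1p.le _
    have := (ENNReal.ofReal_le_ofReal_iff h0).1 hge
    linarith
  obtain ⟨z, hz, hFz⟩ := intermediate_value_Icc hz1p.le hcont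
    (show (1 : ℝ) ∈ Set.Icc (F 0) (F z1) from ⟨by rw [hF0]; norm_num, hF1⟩)
  have hz0 : z ≠ 0 := by
    rintro rfl
    rw [hF0] at hFz
    norm_num at hFz
  have hzp : 0 < z := lt_of_le_of_ne hz.1 (Ne.symm hz0)
  refine ⟨z, hzp, hz.2.trans hz1le, ?_, ?_⟩
  · rw [← hyz]
    exact mul_le_mul_of_nonneg_left (pow_le_pow_left₀ hz.1 hz.2 _) hy0.le
  · rw [hconv z hz, hFz, ENNReal.ofReal_one]

end Pool.Agent.KLog
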