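import Pool.Agent.KLog.Flip
import Pool.Agent.KLog.Glue
import Pool.Agent.KRing.Sums

/-! KL13: cutting a polygon at its highest section with two edges. -/

set_option autoImplicit false

open Pool.Agent.LK
open scoped ENNReal

namespace Pool.Agent.KLog

open Pool.Agent.KTube Pool.Agent.KRing
open Pool.Agent.LatticeTube (pedges mem_of_mem_pedges)

variable {y z : ℝ≥0∞}

private theorem ct_low {v : ℤ × ℤ} {l : List P3} (hl : Lower 0 0 v l) {j : ℤ}
    (hj : {c | leg c j ∈ pedges l}.ncard = 2) : j < 0 := by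
  obtain ⟨c, hc⟩ : {c | leg c j ∈ pedges l}.Nonempty := by
    rw [Set.nonempty_iff_ne_empty]
    intro h
    rw [h, Set.ncard_empty] at hj
    omega
  have := (pedges_lev hl.lev hc).2
  simp only at this
  omega

private theorem ct_upp {v : ℤ × ℤ} {r : List P3} (hr : Upper 0 0 v r) {j : ℤ}
    (hj : {c | leg c j ∈ pedges r}.ncard = 2) : 0 < j := by
  obtain ⟨c, hc⟩ : {c | leg c j ∈ pedges r}.Nonempty := by
    rw [Set.nonempty_iff_ne_empty]
    intro h
    rw [h, Set.ncard_empty] at hj
    omega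
  have := (pedges_lev hr.lev hc).1
  simp only at this
  omega

private theorem ct_finite (l : List P3) : {j : ℤ | {c | leg c j ∈ pedges l}.ncard = 2}.Finite := by
  refine (planes_finite' l).subset fun j hj => ?_
  obtain ⟨c, hc⟩ : {c | leg c j ∈ pedges l}.Nonempty := by
    rw [Set.nonempty_iff_ne_empty]
    intro h
    have hj' : {c | leg c j ∈ pedges l}.ncard = 2 := hj
    rw [h, Set.ncard_empty] at hj'
    omega
  exact ⟨c, hc⟩

private theorem ct_isTwo_low {v : ℤ × ℤ} {r l : List P3} (hr : Upper 0 0 v r)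
    (hl : Lower 0 0 v l) {j : ℤ} (hj : j < 0) :
    IsTwo (ring (r ++ l)) j ↔ {c | leg c j ∈ pedges l}.ncard = 2 := by
  have h1 : cross (ring (r ++ l)) j = {c | leg c j ∈ pedges l} := by
    ext c
    exact cross_ring_low hr hl hj
  unfold IsTwo
  rw [h1]

private theorem ct_isTwo_upp {v : ℤ × ℤ} {r l : List P3} (hr : Upper 0 0 v r)
    (hl : Lower 0 0 v l) {j : ℤ} (hj : 0 < j) :
    IsTwo (ring (r ++ l)) j ↔ {c | leg c j ∈ pedges r}.ncard = 2 := by
  have h1 : cross (ring (r ++ l)) j = {c | leg c j ∈ pedges r} := by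
    ext c
    exact cross_ring_upp hr hl hj
  unfold IsTwo
  rw [h1]

/-- The number of sections with two edges of a polygon composed of two halves. -/
theorem ncard_two_ring {v : ℤ × ℤ} {r l : List P3} (hv : (0 : ℤ × ℤ) ≠ v) (hr : Upper 0 0 v r)
    (hl : Lower 0 0 v l) : {k : ℤ | IsTwo (ring (r ++ l)) k}.ncard = nsec l + nsec r + 1 := by
  have hset : {k : ℤ | IsTwo (ring (r ++ l)) k} = insert 0
      ({j : ℤ | {c | leg c j ∈ pedges l}.ncard = 2} ∪
        {j : ℤ | {c | leg c j ∈ pedges r}.ncard = 2}) := by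
    ext j
    simp only [Set.mem_ofPred_eq, Set.mem_insert_iff, Set.mem_union]
    rcases lt_trichotomy j 0 with h | rfl | h
    · rw [ct_isTwo_low hr hl h]
      constructor
      · exact fun h1 => Or.inr (Or.inl h1)
      · rintro (h1 | h1 | h1)
        · omega
        · exact h1
        · have := ct_upp hr h1
          omega
    · exact ⟨fun _ => Or.inl rfl, fun _ => isTwo_ring_of hv hr hl⟩
    · rw [ct_isTwo_upp hr hl h]
      constructor
      · exact fun h1 => Or.inr (Or.inr h1)
      · rintro (h1 | h1 | h1)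
        · omega
        · have := ct_low hl h1
          omega
        · exact h1
  have h3 : (0 : ℤ) ∉ {j : ℤ | {c | leg c j ∈ pedges l}.ncard = 2} ∪
      {j : ℤ | {c | leg c j ∈ pedges r}.ncard = 2} := by
    rintro (h3 | h3)
    · have := ct_low hl h3
      omega
    · have := ct_upp hr h3
      omega
  have h4 : Disjoint {j : ℤ | {c | leg c j ∈ pedges l}.ncard = 2}
      {j : ℤ | {c | leg c j ∈ pedges r}.ncard = 2} := by
    rw [Set.disjoint_left]
    intro j h3 h4
    have := ct_low hl h3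
    have := ct_upp hr h4
    omega
  unfold nsec
  rw [hset, Set.ncard_insert_of_notMem h3 ((ct_finite l).union (ct_finite r)),
    Set.ncard_union_eq h4 (ct_finite l) (ct_finite r)]

private theorem ct_isTwo_shift (t : P3) (E : Finset (Sym2 P3)) (j : ℤ) :
    IsTwo (LK.shift t E) j ↔ IsTwo E (j - t.2.2) := by
  unfold IsTwo
  rw [ncard_cross_shift']

private theorem ct_ncard_shift (t : P3) (E : Finset (Sym2 P3)) :
    {k : ℤ | IsTwo (LK.shift t E) k}.ncard = {k : ℤ | IsTwo E k}.ncard := by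
  have h : {k : ℤ | IsTwo (LK.shift t E) k} = (fun j => j + t.2.2) '' {k : ℤ | IsTwo E k} := by
    ext j
    rw [Set.mem_image]
    simp only [Set.mem_ofPred_eq]
    rw [ct_isTwo_shift]
    constructor
    · intro h
      exact ⟨_, h, by simp⟩
    · rintro ⟨i, hi, rfl⟩
      simpa using hi
  rw [h]
  exact Set.ncard_image_of_injective _ (add_left_injective _)

/-- the two halves of a polygon at its highest section with two edges -/
private theorem ct_exists {n : ℕ} (E : PN (n + 1)) :
    ∃ (v : ℤ × ℤ) (l : {l // Half n v l}) (l2 : {l // Half 0 v l}) (t : P3),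
      LK.shift t E.1 = ring (flp l2.1 ++ l.1) ∧
        y ^ span E.1 * z ^ E.1.card = y * (wl y z l.1 * wl y z l2.1) := by
  obtain ⟨E, hE, hU, hN, hcard⟩ := E
  have hfin : {k : ℤ | IsTwo E k}.Finite := Set.finite_of_ncard_ne_zero (by omega)
  have hne : {k : ℤ | IsTwo E k}.Nonempty := by
    rw [Set.nonempty_iff_ne_empty]
    intro h
    rw [h, Set.ncard_empty] at hcard
    omega
  obtain ⟨k₀, hk₀, hmax⟩ := Set.exists_max_image _ id hfin hne
  obtain ⟨a, ha⟩ : (cross E k₀).Nonempty := by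
    rw [Set.nonempty_iff_ne_empty]
    intro h
    have h1 : (cross E k₀).ncard = 2 := hk₀
    rw [h, Set.ncard_empty] at h1
    omega
  set t : P3 := (-a.1, -a.2, -k₀) with ht
  have hE' : IsPolygon (LK.shift t E) := isPolygon_shift hE t
  have h2' : IsTwo (LK.shift t E) 0 := by
    rw [ct_isTwo_shift]
    have : (0 : ℤ) - t.2.2 = k₀ := by simp [ht]
    rw [this]
    exact hk₀
  have ha' : (0 : ℤ × ℤ) ∈ cross (LK.shift t E) 0 := by
    rw [cross_shift']
    have h1 : (0 : ℤ) - t.2.2 = k₀ := by simp [ht]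
    have h3 : (((0 : ℤ × ℤ).1 - t.1, (0 : ℤ × ℤ).2 - t.2.1) : ℤ × ℤ) = a := by
      simp [ht]
    rw [h1, h3]
    exact ha
  obtain ⟨b, r, l, hb, hr, hl, hrl⟩ := exists_halves hE' h2' ha'
  have hU' : Unknotted (LK.shift t E) := (sameType_shift t E).symm.unknotted hU
  rw [← hrl] at hE' h2' hU'
  obtain ⟨hLow, hUpp⟩ := (unknotted_iff hE' h2').1 hU'
  have hLU : LU 0 0 b l := ⟨hb, hl, r, hr, hLow⟩
  have hUU : UU 0 0 b r := ⟨hb, hr, l, hl, hUpp⟩
  have hr0 : nsec r = 0 := by
    unfold nsec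
    rw [Set.ncard_eq_zero (ct_finite r)]
    rw [Set.eq_empty_iff_forall_notMem]
    intro j hj
    have h3 := ct_upp hr hj
    have h4 : IsTwo (ring (r ++ l)) j := (ct_isTwo_upp hr hl h3).2 hj
    rw [hrl, ct_isTwo_shift] at h4
    have h5 := hmax _ h4
    simp only [id] at h5
    have h6 : t.2.2 = -k₀ := rfl
    omega
  have hl0 : nsec l = n := by
    have h3 := ncard_two_ring hb hr hl
    rw [hrl, ct_ncard_shift, hcard, hr0] at h3
    omega
  refine ⟨b, ⟨l, hLU, hl0⟩, ⟨flp r, LU_flp hUU, by rw [nsec_flp, hr0]⟩, t, ?_, ?_⟩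
  · rw [flp_flp, hrl]
  · have h3 : span E = lspan l + lspan r + 1 := by
      rw [← span_shift' t E, ← hrl, span_ring hr hl]
    have h4 : E.card = l.length + r.length := by
      rw [← card_shift t E, ← hrl, (ring_of hb hr hl).card_eq, List.length_append, add_comm]
    show y ^ span E * z ^ E.card = y * (wl y z l * wl y z (flp r))
    unfold wl
    rw [h3, h4, lspan_flp, length_flp, pow_add, pow_add, pow_add, pow_one]
    ring

/-- **Cutting at the highest section with two edges.** -/
theorem cut_top (n : ℕ) : UN y z (n + 1) ≤ y * ∑' v, MM y z n v * MM y z 0 v := by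
  choose v l l2 t h1 h2 using fun E : PN (n + 1) => ct_exists (y := y) (z := z) E
  let φ : PN (n + 1) → Σ v : ℤ × ℤ, {l // Half n v l} × {l // Half 0 v l} := fun E =>
    ⟨v E, (l E, l2 E)⟩
  have hφ : Function.Injective φ := by
    intro E F h
    have h3 : ring (flp (l2 E).1 ++ (l E).1) = ring (flp (l2 F).1 ++ (l F).1) :=
      congrArg (fun p : Σ v : ℤ × ℤ, {l // Half n v l} × {l // Half 0 v l} =>
        ring (flp p.2.2.1 ++ p.2.1.1)) h
    rw [← h1 E, ← h1 F] at h3
    exact Subtype.ext (normed_shift_eq E.2.2.2.1 F.2.2.2.1 h3)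
  have h3 : UN y z (n + 1) = ∑' E : PN (n + 1),
      (fun p : Σ v : ℤ × ℤ, {l // Half n v l} × {l // Half 0 v l} =>
        y * (wl y z p.2.1.1 * wl y z p.2.2.1)) (φ E) := by
    unfold UN
    exact tsum_congr fun E => h2 E
  rw [h3]
  refine (ENNReal.tsum_comp_le_tsum_of_injective hφ
    (fun p : Σ v : ℤ × ℤ, {l // Half n v l} × {l // Half 0 v l} =>
      y * (wl y z p.2.1.1 * wl y z p.2.2.1))).trans (le_of_eq ?_)
  rw [ENNReal.tsum_mul_left, ENNReal.tsum_sigma']
  congr 1
  refine tsum_congr fun v => ?_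
  unfold MM
  rw [ENNReal.tsum_prod', ← ENNReal.tsum_mul_right]
  refine tsum_congr fun l => ?_
  rw [← ENNReal.tsum_mul_left]

end Pool.Agent.KLog
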