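import Pool.Agent.KLog.Ker
import Pool.Agent.KRing.Encode
import Pool.Agent.KRing.Vert
import Pool.Agent.KRing.Main

/-! The blocks of an unknotted polygon between consecutive sections with two edges, as pairs of
words. -/

set_option autoImplicit false

open Pool.Agent.LK
open scoped ENNReal

namespace Pool.Agent.KLog

open Pool.Agent.KTube Pool.Agent.KRing
open Pool.Agent.LatticeTube (pedges)

/-- A pair of words: the steps of the two strands of a block, both read upwards. -/
abbrev PP : Type := List P3 × List P3

/-- The column of a point. -/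
def hz (d : P3) : ℤ × ℤ := (d.1, d.2.1)

/-- The number of levels of a block. -/
def hgt (π : PP) : ℤ := π.1.sum.2.2 + 1

/-- The displacement of the second strand minus that of the first one. -/
def dsp (π : PP) : ℤ × ℤ := hz π.2.sum - hz π.1.sum

/-- The number of horizontal steps. -/
def nh (π : PP) : ℕ := stp (lets π.1) + stp (lets π.2)

/-- The number of vertical steps. -/
def nv (π : PP) : ℕ := brk (lets π.1) + brk (lets π.2)

/-- The first strand, from the column `0`, upwards. -/
def sdA (π : PP) : List P3 := wk (0, 0, 1) π.1

/-- The second strand, from the column `v`, traversed downwards. -/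
def sdB (v : ℤ × ℤ) (π : PP) : List P3 := (wk (v.1, v.2, 1) π.2).reverse

/-- The pair `π`, with the second strand starting in the column `v`, is a block between consecutive
sections with two edges. -/
structure Geo (v : ℤ × ℤ) (π : PP) : Prop where
  ne : v ≠ 0
  stA : Steps π.1
  stB : Steps π.2
  block : Block 0 (hgt π) 0 v (hz π.1.sum) (v + hz π.2.sum) (sdA π) (sdB v π)
  thick : ∀ j, 0 < j → j < hgt π →
    {c | leg c j ∈ pedges (sdA π) ∨ leg c j ∈ pedges (sdB v π)}.ncard ≠ 2

/-- The block is unknotted: together with some unknotted lower half it is an unknotted lower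
half. -/
def Unk (v : ℤ × ℤ) (π : PP) : Prop :=
  ∃ l, LU 0 0 v l ∧ LU (hgt π) (hz π.1.sum) (v + hz π.2.sum) (sdB v π ++ (l ++ sdA π))

/-- The unknotted blocks between consecutive sections with two edges. -/
def Valid (v : ℤ × ℤ) (π : PP) : Prop := Geo v π ∧ Unk v π

/-- The pairs that are valid far from the origin. -/
def Free (π : PP) : Prop := ∃ v, nh π < nrm v ∧ Valid v π

/-- The basic pairs: no vertical step and at most one horizontal step. -/
def Bas (π : PP) : Prop := nv π = 0 ∧ nh π ≤ 1

/-- The weight of a block: `y` for each level and `z` for each point. -/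
noncomputable def wt (y z : ℝ≥0∞) (π : PP) : ℝ≥0∞ :=
  y ^ (hgt π).toNat * z ^ (π.1.length + π.2.length + 2)

/-- The weight of a half. -/
noncomputable def wl (y z : ℝ≥0∞) (l : List P3) : ℝ≥0∞ := y ^ lspan l * z ^ l.length

/-- The number of sections with two edges of a half. -/
noncomputable def nsec (l : List P3) : ℕ := {j : ℤ | {c | leg c j ∈ pedges l}.ncard = 2}.ncard

/-- The unknotted lower halves with displacement `v` at the top, and with `n` sections with two
edges below. -/
def Half (n : ℕ) (v : ℤ × ℤ) (l : List P3) : Prop := LU 0 0 v l ∧ nsec l = n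

/-- Their partition function. -/
noncomputable def MM (y z : ℝ≥0∞) (n : ℕ) (v : ℤ × ℤ) : ℝ≥0∞ :=
  ∑' l : {l // Half n v l}, wl y z l.1

/-- The half composed of a half and a block, in normal position. -/
def glu (v : ℤ × ℤ) (l : List P3) (π : PP) : List P3 :=
  (sdB v π ++ (l ++ sdA π)).map (· + (-(π.1.sum.1), -(π.1.sum.2.1), -(hgt π)))

/-- The unknotted polygons with exactly `N` sections with two edges, up to translation. -/
def PN (N : ℕ) : Set (Finset (Sym2 P3)) :=
  {E | IsPolygon E ∧ Unknotted E ∧ Normed E ∧ {k : ℤ | IsTwo E k}.ncard = N}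

/-- Their partition function, `z` for each edge. -/
noncomputable def UN (y z : ℝ≥0∞) (N : ℕ) : ℝ≥0∞ := ∑' E : PN N, y ^ span E.1 * z ^ E.1.card

/-- The kernel. -/
noncomputable def ker (y z : ℝ) : Ker PP where
  wt := wt (ENNReal.ofReal y) (ENNReal.ofReal z)
  l := nh
  u := dsp
  V := Valid
  Fr := Free
  Bas := Bas
  q := y * z ^ 2
  z := z

end Pool.Agent.KLog
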