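import Pool.Agent.KLog.Glue

/-! KL9: the half determines the block and the remaining half. -/

set_option autoImplicit false

open Pool.Agent.LK

namespace Pool.Agent.KLog

open Pool.Agent.KTube Pool.Agent.KRing
open Pool.Agent.LatticeTube (pedges)

variable {v v' : ℤ × ℤ} {π π' : PP} {l l' : List P3} {n n' : ℕ}

private theorem glueInj_key (t : P3) (l : List P3) (c : ℤ × ℤ) (j : ℤ) :
    leg c j ∈ pedges (l.map (· + t)) ↔
      leg (c.1 - t.1, c.2 - t.2.1) (j - t.2.2) ∈ pedges l := by
  rw [pedges_map]
  have : leg c j ∈ LK.shift t (pedges l) ↔ _ := mem_shift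
  refine this.trans ?_
  have e1 : ((c.1, c.2, j + 1) : P3) - t = (c.1 - t.1, c.2 - t.2.1, j - t.2.2 + 1) := by
    refine Prod.ext rfl (Prod.ext rfl ?_)
    simp only [Prod.snd_sub]; ring
  rw [e1]
  rfl

private theorem glueInj_map (t : P3) (l : List P3) (j : ℤ) :
    {c | leg c j ∈ pedges (l.map (· + t))}.ncard = {c | leg c (j - t.2.2) ∈ pedges l}.ncard := by
  have h1 : {c | leg c j ∈ pedges (l.map (· + t))} =
      (fun c : ℤ × ℤ => (c.1 + t.1, c.2 + t.2.1)) '' {c | leg c (j - t.2.2) ∈ pedges l} := by
    ext c
    rw [Set.mem_ofPred_eq, glueInj_key]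
    constructor
    · intro h
      exact ⟨_, h, by simp⟩
    · rintro ⟨c', h, rfl⟩
      simpa using h
  rw [h1]
  refine Set.ncard_image_of_injective _ ?_
  intro c c' h
  simp only [Prod.mk.injEq, add_left_inj] at h
  exact Prod.ext h.1 h.2

private theorem glueInj_zero (hg : Geo v π) (hl : Lower 0 0 v l) :
    {c | leg c 0 ∈ pedges (sdB v π ++ (l ++ sdA π))}.ncard = 2 := by
  have h1 : {c | leg c 0 ∈ pedges (sdB v π ++ (l ++ sdA π))} = {0, v} := by
    ext c
    rw [Set.mem_ofPred_eq, hg.block.mem_lower hl, Set.mem_insert_iff, Set.mem_singleton_iff]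
    constructor
    · rintro (h | h | h | h | h)
      · have := (hg.block.levA _ (LatticeTube.mem_of_mem_pedges h).1).1
        simp only at this
        omega
      · have := (hg.block.levB _ (LatticeTube.mem_of_mem_pedges h).1).1
        simp only at this
        omega
      · have := hl.lev _ (LatticeTube.mem_of_mem_pedges h).2
        simp only at this
        omega
      · exact Or.inl (leg_inj h).1
      · exact Or.inr (leg_inj h).1
    · rintro (rfl | rfl)
      · exact Or.inr (Or.inr (Or.inr (Or.inl rfl)))
      · exact Or.inr (Or.inr (Or.inr (Or.inr rfl)))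
  rw [h1]
  exact Set.ncard_pair hg.ne.symm

private theorem glueInj_mid (hg : Geo v π) (hl : Lower 0 0 v l) {j : ℤ} (hj : 0 < j)
    (hj' : j < hgt π) : {c | leg c j ∈ pedges (sdB v π ++ (l ++ sdA π))}.ncard ≠ 2 := by
  have h1 : {c | leg c j ∈ pedges (sdB v π ++ (l ++ sdA π))} =
      {c | leg c j ∈ pedges (sdA π) ∨ leg c j ∈ pedges (sdB v π)} := by
    ext c
    rw [Set.mem_ofPred_eq, hg.block.mem_lower hl, Set.mem_ofPred_eq]
    constructor
    · rintro (h | h | h | h | h)
      · exact Or.inl h
      · exact Or.inr h
      · have := hl.lev _ (LatticeTube.mem_of_mem_pedges h).1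
        simp only at this
        omega
      · have := (leg_inj h).2
        omega
      · have := (leg_inj h).2
        omega
    · rintro (h | h)
      · exact Or.inl h
      · exact Or.inr (Or.inl h)
  rw [h1]
  exact hg.thick j hj hj'

private theorem glueInj_hgt (hg : Geo v π) (hl : Lower 0 0 v l) (hg' : Geo v' π')
    (hl' : Lower 0 0 v' l') (h : glu v l π = glu v' l' π') : hgt π' ≤ hgt π := by
  by_contra hlt
  rw [not_le] at hlt
  have h0 : (0 : ℤ) < hgt π := hg.block.lt
  have e1 : {c | leg c (-(hgt π)) ∈ pedges (glu v l π)}.ncard = 2 := by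
    unfold glu
    rw [glueInj_map]
    have : -(hgt π) - -(hgt π) = 0 := by ring
    simp only [this]
    exact glueInj_zero hg hl
  have e2 : {c | leg c (-(hgt π)) ∈ pedges (glu v' l' π')}.ncard ≠ 2 := by
    unfold glu
    rw [glueInj_map]
    exact glueInj_mid hg' hl' (by simp only; omega) (by simp only; omega)
  rw [h] at e1
  exact e2 e1

theorem glu_inj (hl : Half n v l) (hπ : Valid v π) (hl' : Half n' v' l') (hπ' : Valid v' π')
    (h : glu v l π = glu v' l' π') : v = v' ∧ l = l' ∧ π = π' := by
  have hg := hπ.1
  have hg' := hπ'.1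
  have hL : Lower 0 0 v l := hl.1.2.1
  have hL' : Lower 0 0 v' l' := hl'.1.2.1
  have hH : hgt π = hgt π' :=
    le_antisymm (glueInj_hgt hg' hL' hg hL h.symm) (glueInj_hgt hg hL hg' hL' h)
  unfold glu at h
  rw [List.map_append, List.map_append, List.map_append, List.map_append] at h
  obtain ⟨t, ht⟩ : ∃ t : P3, t = (-(π.1.sum.1), -(π.1.sum.2.1), -(hgt π)) := ⟨_, rfl⟩
  obtain ⟨t', ht'⟩ : ∃ t' : P3, t' = (-(π'.1.sum.1), -(π'.1.sum.2.1), -(hgt π')) := ⟨_, rfl⟩
  rw [← ht, ← ht'] at h
  have ht3 : t.2.2 = -(hgt π) := by rw [ht]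
  have ht3' : t'.2.2 = -(hgt π) := by rw [ht', hH]
  obtain ⟨h1, h2⟩ := LatticeTube.append_split (fun u : P3 => -(hgt π) < u.2.2) _ _ _ _
    (by
      intro u hu
      obtain ⟨w, hw, rfl⟩ := List.mem_map.1 hu
      have := (hg.block.levB w hw).1
      simp only [Prod.snd_add]
      omega)
    (by
      intro u hu
      obtain ⟨w, hw, rfl⟩ := List.mem_map.1 hu
      have := (hg'.block.levB w hw).1
      simp only [Prod.snd_add]
      omega)
    (by
      intro u hu
      rw [List.head?_append, List.head?_map, hL.head] at hu
      simp only [Option.map_some, Option.some_or, Option.mem_def, Option.some.injEq] at hu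
      subst hu
      simp only [Prod.snd_add]
      omega)
    (by
      intro u hu
      rw [List.head?_append, List.head?_map, hL'.head] at hu
      simp only [Option.map_some, Option.some_or, Option.mem_def, Option.some.injEq] at hu
      subst hu
      simp only [Prod.snd_add]
      omega) h
  obtain ⟨h3, h4⟩ := LatticeTube.append_split (fun u : P3 => u.2.2 ≤ -(hgt π)) _ _ _ _
    (by
      intro u hu
      obtain ⟨w, hw, rfl⟩ := List.mem_map.1 hu
      have := hL.lev w hw
      simp only [Prod.snd_add]
      omega)
    (by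
      intro u hu
      obtain ⟨w, hw, rfl⟩ := List.mem_map.1 hu
      have := hL'.lev w hw
      simp only [Prod.snd_add]
      omega)
    (by
      intro u hu
      rw [List.head?_map, hg.block.headA] at hu
      simp only [Option.map_some, Option.mem_def, Option.some.injEq] at hu
      subst hu
      simp only [Prod.snd_add]
      omega)
    (by
      intro u hu
      rw [List.head?_map, hg'.block.headA] at hu
      simp only [Option.map_some, Option.mem_def, Option.some.injEq] at hu
      subst hu
      simp only [Prod.snd_add]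
      omega) h2
  have htt : t = t' := by
    have h5 := congrArg List.head? h4
    rw [List.head?_map, List.head?_map, hg.block.headA, hg'.block.headA] at h5
    simp only [Option.map_some, Option.some.injEq] at h5
    exact add_left_cancel h5
  subst htt
  have hinj : Function.Injective (fun u : P3 => u + t) := add_left_injective t
  have hlist : Function.Injective (List.map fun u : P3 => u + t) :=
    List.map_injective_iff.2 hinj
  have e1 : sdB v π = sdB v' π' := hlist h1
  have e2 : l = l' := hlist h3
  have e3 : sdA π = sdA π' := hlist h4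
  have e4 : π.1 = π'.1 := wk_inj e3
  unfold sdB at e1
  rw [List.reverse_inj] at e1
  have e5 : v = v' := by
    have h5 := congrArg List.head? e1
    rw [head_wk, head_wk] at h5
    simp only [Option.some.injEq, Prod.mk.injEq, and_true] at h5
    exact Prod.ext h5.1 h5.2
  subst e5
  exact ⟨rfl, e2, Prod.ext e4 (wk_inj e1)⟩

end Pool.Agent.KLog
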