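import Mathlib

/-! A sequence that is summable at its radius of convergence, but not with a factor `log² n`, is
not asymptotic to a power of `n` times an exponential. -/

set_option autoImplicit false

open Filter Topology

namespace Pool.Agent.KLog

private theorem tendsto_two : Tendsto (fun k : ℕ => ((2 * k : ℕ) : ℝ)) atTop atTop :=
  tendsto_natCast_atTop_atTop.comp (tendsto_id.const_mul_atTop' (by norm_num))

private theorem pow_eq {r : ℝ} (hr : 0 < r) (k : ℕ) :
    r ^ k = Real.exp (Real.log r / 2 * ((2 * k : ℕ) : ℝ)) := by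
  rw [← Real.exp_log (pow_pos hr k), Real.log_pow]
  congr 1
  push_cast
  ring

/-- If the series with the coefficients `(2 k) ^ β r ^ k` converges then it converges with the
additional factor `log² (2 k)`. -/
theorem summable_log {β r : ℝ} (hr : 0 < r)
    (h : Summable fun k : ℕ => ((2 * k : ℕ) : ℝ) ^ β * r ^ k) :
    Summable fun k : ℕ => Real.log ((2 * k : ℕ) : ℝ) ^ 2 * (((2 * k : ℕ) : ℝ) ^ β * r ^ k) := by
  rcases lt_trichotomy r 1 with h1 | h1 | h1
  · have hb : 0 < -(Real.log r / 2) := by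
      have := Real.log_neg hr h1
      linarith
    have h2 := (tendsto_rpow_mul_exp_neg_mul_atTop_nhds_zero (β + 4) _ hb).comp tendsto_two
    have h3 : ∀ᶠ k : ℕ in atTop, ((2 * k : ℕ) : ℝ) ^ (β + 4) *
        Real.exp (-(-(Real.log r / 2)) * ((2 * k : ℕ) : ℝ)) ≤ 1 :=
      h2.eventually (ge_mem_nhds one_pos)
    have h4 : Summable fun k : ℕ => 1 / (k : ℝ) ^ 2 := Real.summable_one_div_nat_pow.2 (by norm_num)
    refine Summable.of_norm_bounded_eventually_nat h4 ?_
    filter_upwards [h3, eventually_ge_atTop 1] with k hk hk1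
    have hk0 : (0 : ℝ) < k := by exact_mod_cast hk1
    set x : ℝ := ((2 * k : ℕ) : ℝ) with hx
    have hx1 : 1 ≤ x := by
      rw [hx]
      exact_mod_cast (by omega : 1 ≤ 2 * k)
    have hx0 : 0 < x := by linarith
    have hkx : (k : ℝ) ≤ x := by
      rw [hx]
      exact_mod_cast (by omega : k ≤ 2 * k)
    have h5 : 0 ≤ Real.log x := Real.log_nonneg hx1
    have h6 : Real.log x ≤ x := (Real.log_le_sub_one_of_pos hx0).trans (by linarith)
    rw [neg_neg, ← pow_eq hr k] at hk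
    have h7 : 0 ≤ x ^ β * r ^ k := by positivity
    rw [Real.norm_of_nonneg (by positivity)]
    rw [Real.rpow_add hx0, show (4 : ℝ) = ((4 : ℕ) : ℝ) by norm_num, Real.rpow_natCast] at hk
    have h8 : Real.log x ^ 2 ≤ x ^ 2 := by gcongr
    rw [le_div_iff₀ (by positivity)]
    calc Real.log x ^ 2 * (x ^ β * r ^ k) * (k : ℝ) ^ 2
        ≤ x ^ 2 * (x ^ β * r ^ k) * x ^ 2 := by gcongr
      _ = x ^ β * x ^ 4 * r ^ k := by ring
      _ ≤ 1 := hk
  · subst h1
    simp only [one_pow, mul_one] at h ⊢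
    have h2 : ∀ k : ℕ, ((2 * k : ℕ) : ℝ) ^ β = 2 ^ β * (k : ℝ) ^ β := fun k => by
      rw [Nat.cast_mul, Real.mul_rpow (by positivity) (by positivity)]
      norm_num
    have hβ : β < -1 := by
      simp only [h2] at h
      have h3 := (summable_mul_left_iff (by positivity : (2 : ℝ) ^ β ≠ 0)).1 h
      exact Real.summable_nat_rpow.1 h3
    set ε : ℝ := (-1 - β) / 2 with hε
    have hε0 : 0 < ε := by rw [hε]; linarith
    have h3 : (fun x : ℝ => Real.log x ^ (2 : ℝ)) =o[atTop] fun x => x ^ ε :=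
      isLittleO_log_rpow_rpow_atTop _ hε0
    have h4 := (h3.comp_tendsto tendsto_two).bound (zero_lt_one' ℝ)
    have h5 : Summable fun k : ℕ => (2 : ℝ) ^ (β + ε) * (k : ℝ) ^ (β + ε) :=
      (Real.summable_nat_rpow.2 (by rw [hε]; linarith)).mul_left _
    refine Summable.of_norm_bounded_eventually_nat h5 ?_
    filter_upwards [h4, eventually_ge_atTop 1] with k hk hk1
    simp only [Function.comp] at hk
    have h6 : (2 : ℝ) ^ (β + ε) * (k : ℝ) ^ (β + ε) = ((2 * k : ℕ) : ℝ) ^ (β + ε) := by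
      rw [Nat.cast_mul, Real.mul_rpow (by positivity) (by positivity)]
      norm_num
    rw [h6]
    set x : ℝ := ((2 * k : ℕ) : ℝ) with hx
    have hx1 : 1 ≤ x := by
      rw [hx]
      exact_mod_cast (by omega : 1 ≤ 2 * k)
    have hx0 : 0 < x := by linarith
    have h7 : 0 ≤ Real.log x := Real.log_nonneg hx1
    rw [show (2 : ℝ) = ((2 : ℕ) : ℝ) by norm_num, Real.rpow_natCast,
      Real.norm_of_nonneg (by positivity), Real.norm_of_nonneg (by positivity), one_mul] at hk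
    rw [Real.norm_of_nonneg (by positivity), Real.rpow_add hx0, mul_comm]
    exact mul_le_mul_of_nonneg_left hk (by positivity)
  · exfalso
    have hb : 0 < Real.log r / 2 := by
      have := Real.log_pos h1
      linarith
    have h2 := (tendsto_exp_mul_div_rpow_atTop (-β) _ hb).comp tendsto_two
    have h3 := h.tendsto_atTop_zero
    refine not_tendsto_nhds_of_tendsto_atTop (h2.congr' ?_) _ h3
    filter_upwards [eventually_ge_atTop 1] with k hk
    have hx0 : (0 : ℝ) ≤ ((2 * k : ℕ) : ℝ) := Nat.cast_nonneg _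
    simp only [Function.comp]
    rw [← pow_eq hr k, Real.rpow_neg hx0, div_inv_eq_mul, mul_comm]

theorem no_form {U Z : ℕ → ℝ} {z : ℝ} (hz : 0 < z) (hU : ∀ n, 0 ≤ U n)
    (hodd : ∀ n, ¬ Even n → U n = 0) (ha : Summable fun n => U n * z ^ n)
    (hb : ¬ Summable fun n : ℕ => Real.log n ^ 2 * U n * z ^ n) {N n0 : ℕ} {c C : ℝ} (hc : 0 < c)
    (hlow : ∀ n ≥ n0, c * (n : ℝ) ^ N * U n ≤ Z n)
    (hup : ∀ n ≥ n0, Z n ≤ C * (n : ℝ) ^ N * U n) :
    ¬ ∃ A α ν : ℝ, 0 < A ∧ 0 < ν ∧ Tendsto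
      (fun k : ℕ => Z (2 * k) / (((2 * k : ℕ) : ℝ) ^ (α - 3) * ν ^ (2 * k))) atTop (𝓝 A) := by
  rintro ⟨A, α, ν, hA, hν, hlim⟩
  apply hb
  have hinj : Function.Injective fun k : ℕ => 2 * k := fun a b h => by
    simpa using h
  have h1 : ∀ᶠ k : ℕ in atTop, A / 2 ≤ Z (2 * k) / (((2 * k : ℕ) : ℝ) ^ (α - 3) * ν ^ (2 * k)) :=
    hlim.eventually (le_mem_nhds (by linarith))
  have h2 : ∀ᶠ k : ℕ in atTop, Z (2 * k) / (((2 * k : ℕ) : ℝ) ^ (α - 3) * ν ^ (2 * k)) ≤ 2 * A :=
    hlim.eventually (ge_mem_nhds (by linarith))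
  have hpos : ∀ k : ℕ, 1 ≤ k → (0 : ℝ) < ((2 * k : ℕ) : ℝ) := fun k hk => by
    exact_mod_cast (by omega : 0 < 2 * k)
  have hC : 0 < C := by
    obtain ⟨k, hk1, hk2, hk3⟩ := (h1.and ((eventually_ge_atTop 1).and
      (eventually_ge_atTop n0))).exists
    have hp := hpos k hk2
    rw [le_div_iff₀ (by positivity)] at hk1
    have h3 := hup (2 * k) (by omega)
    have h4 : 0 < A / 2 * (((2 * k : ℕ) : ℝ) ^ (α - 3) * ν ^ (2 * k)) := by positivity
    by_contra hC
    have h5 : C * ((2 * k : ℕ) : ℝ) ^ N * U (2 * k) ≤ 0 := by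
      have := hU (2 * k)
      rw [mul_assoc]
      exact mul_nonpos_of_nonpos_of_nonneg (not_lt.1 hC) (by positivity)
    linarith
  set β : ℝ := α - 3 - N with hβ
  set r : ℝ := (ν * z) ^ 2 with hr
  have hr0 : 0 < r := by positivity
  have hfac : ∀ k : ℕ, 1 ≤ k → ((2 * k : ℕ) : ℝ) ^ β * r ^ k * ((2 * k : ℕ) : ℝ) ^ N =
      ((2 * k : ℕ) : ℝ) ^ (α - 3) * ν ^ (2 * k) * z ^ (2 * k) := by
    intro k hk
    have hp := hpos k hk
    rw [hβ, Real.rpow_sub hp, Real.rpow_natCast, hr, ← pow_mul, mul_pow]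
    field_simp
  have hs1 : Summable fun k : ℕ => ((2 * k : ℕ) : ℝ) ^ β * r ^ k := by
    have h3 : Summable fun k : ℕ => 2 * C / A * (U (2 * k) * z ^ (2 * k)) :=
      (ha.comp_injective hinj).mul_left _
    refine Summable.of_norm_bounded_eventually_nat h3 ?_
    filter_upwards [h1, eventually_ge_atTop 1, eventually_ge_atTop n0] with k hk hk1 hk2
    have hp := hpos k hk1
    rw [Real.norm_of_nonneg (by positivity)]
    rw [le_div_iff₀ (by positivity)] at hk
    have h4 := hk.trans (hup (2 * k) (by omega))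
    have h5 : A / 2 * (((2 * k : ℕ) : ℝ) ^ β * r ^ k * ((2 * k : ℕ) : ℝ) ^ N) ≤
        C * ((2 * k : ℕ) : ℝ) ^ N * U (2 * k) * z ^ (2 * k) := by
      rw [hfac k hk1, ← mul_assoc]
      exact mul_le_mul_of_nonneg_right h4 (by positivity)
    have h6 : (0 : ℝ) < ((2 * k : ℕ) : ℝ) ^ N := by positivity
    rw [div_mul_eq_mul_div, le_div_iff₀ hA]
    have h7 : (((2 * k : ℕ) : ℝ) ^ β * r ^ k * A) * ((2 * k : ℕ) : ℝ) ^ N ≤
        (2 * C * (U (2 * k) * z ^ (2 * k))) * ((2 * k : ℕ) : ℝ) ^ N := by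
      nlinarith
    exact le_of_mul_le_mul_right h7 h6
  have hs2 := (summable_log hr0 hs1).mul_left (2 * A / c)
  have hs3 : Summable ((fun n : ℕ => Real.log n ^ 2 * U n * z ^ n) ∘ fun k : ℕ => 2 * k) := by
    refine Summable.of_norm_bounded_eventually_nat hs2 ?_
    filter_upwards [h2, eventually_ge_atTop 1, eventually_ge_atTop n0] with k hk hk1 hk2
    have hp := hpos k hk1
    simp only [Function.comp]
    have hUk := hU (2 * k)
    rw [Real.norm_of_nonneg (by positivity)]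
    rw [div_le_iff₀ (by positivity)] at hk
    have h4 := (hlow (2 * k) (by omega)).trans hk
    have h5 : c * ((2 * k : ℕ) : ℝ) ^ N * U (2 * k) * z ^ (2 * k) ≤
        2 * A * (((2 * k : ℕ) : ℝ) ^ β * r ^ k * ((2 * k : ℕ) : ℝ) ^ N) := by
      rw [hfac k hk1, ← mul_assoc (2 * A)]
      exact mul_le_mul_of_nonneg_right h4 (by positivity)
    have h6 : (0 : ℝ) < ((2 * k : ℕ) : ℝ) ^ N := by positivity
    have h7 : U (2 * k) * z ^ (2 * k) ≤ 2 * A / c * (((2 * k : ℕ) : ℝ) ^ β * r ^ k) := by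
      rw [div_mul_eq_mul_div, le_div_iff₀ hc]
      have h8 : (U (2 * k) * z ^ (2 * k) * c) * ((2 * k : ℕ) : ℝ) ^ N ≤
          (2 * A * (((2 * k : ℕ) : ℝ) ^ β * r ^ k)) * ((2 * k : ℕ) : ℝ) ^ N := by
        nlinarith
      exact le_of_mul_le_mul_right h8 h6
    have h9 := mul_le_mul_of_nonneg_left h7 (sq_nonneg (Real.log ((2 * k : ℕ) : ℝ)))
    calc Real.log ((2 * k : ℕ) : ℝ) ^ 2 * U (2 * k) * z ^ (2 * k)
        = Real.log ((2 * k : ℕ) : ℝ) ^ 2 * (U (2 * k) * z ^ (2 * k)) := by ring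
      _ ≤ _ := h9
      _ = _ := by ring
  refine (hinj.summable_iff ?_).1 hs3
  intro n hn
  have : ¬ Even n := fun he => hn (by
    obtain ⟨m, hm⟩ := he
    exact ⟨m, by simp only; omega⟩)
  rw [hodd n this, mul_zero, zero_mul]

end Pool.Agent.KLog
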