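import Pool.Agent.KLog.Ker

/-! KL2: the average of the logarithm over the four rotations. -/

set_option autoImplicit false

namespace Pool.Agent.KLog

/-- The sum over the four rotations. -/
def s4 (f : ℤ × ℤ → ℝ) (v u : ℤ × ℤ) : ℝ :=
  f (v + u) + f (v + rt u) + f (v + rt (rt u)) + f (v + rt (rt (rt u)))

/-- The logarithm. -/
noncomputable def lg (v : ℤ × ℤ) : ℝ := Real.log ((nsq v : ℝ) + 1)

private theorem nsq_nonneg_real (v : ℤ × ℤ) : (0 : ℝ) ≤ (nsq v : ℝ) := by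
  have h : 0 ≤ nsq v := by unfold nsq; positivity
  exact_mod_cast h

/-- The product of the four factors. -/
private theorem s4_lower (v u : ℤ × ℤ) (X U L : ℝ) (hX : X = (nsq v : ℝ) + 1)
    (hU : U = (nsq u : ℝ)) (hL : 0 < L) (hLe : L ≤ X ^ 4 + (4 * U - 2 * U ^ 2) * X ^ 2) :
    Real.log L ≤ s4 lg v u := by
  have h1 : (0 : ℝ) < (nsq (v + u) : ℝ) + 1 := by have := nsq_nonneg_real (v + u); linarith
  have h2 : (0 : ℝ) < (nsq (v + rt u) : ℝ) + 1 := by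
    have := nsq_nonneg_real (v + rt u); linarith
  have h3 : (0 : ℝ) < (nsq (v + rt (rt u)) : ℝ) + 1 := by
    have := nsq_nonneg_real (v + rt (rt u)); linarith
  have h4 : (0 : ℝ) < (nsq (v + rt (rt (rt u))) : ℝ) + 1 := by
    have := nsq_nonneg_real (v + rt (rt (rt u))); linarith
  have hs : s4 lg v u = Real.log (((nsq (v + u) : ℝ) + 1) * ((nsq (v + rt u) : ℝ) + 1) *
      ((nsq (v + rt (rt u)) : ℝ) + 1) * ((nsq (v + rt (rt (rt u))) : ℝ) + 1)) := by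
    unfold s4 lg
    rw [Real.log_mul (by positivity) (by positivity), Real.log_mul (by positivity) (by positivity),
      Real.log_mul (by positivity) (by positivity)]
  rw [hs]
  apply Real.log_le_log hL
  refine hLe.trans ?_
  have hU0 : 0 ≤ U := hU ▸ nsq_nonneg_real u
  have hX1 : 1 ≤ X := by have := nsq_nonneg_real v; linarith
  obtain ⟨a, b⟩ := v
  obtain ⟨c, d⟩ := u
  have hX' : X = (a : ℝ) ^ 2 + (b : ℝ) ^ 2 + 1 := by rw [hX]; simp [nsq]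
  have hU' : U = (c : ℝ) ^ 2 + (d : ℝ) ^ 2 := by rw [hU]; simp [nsq]
  have e1 : (nsq ((a, b) + (c, d)) : ℝ) + 1 = X + U + 2 * (a * c + b * d) := by
    simp only [nsq, Prod.mk_add_mk]; push_cast; rw [hX', hU']; ring
  have e2 : (nsq ((a, b) + rt (c, d)) : ℝ) + 1 = X + U + 2 * (b * c - a * d) := by
    simp only [nsq, rt, Prod.mk_add_mk]; push_cast; rw [hX', hU']; ring
  have e3 : (nsq ((a, b) + rt (rt (c, d))) : ℝ) + 1 = X + U - 2 * (a * c + b * d) := by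
    simp only [nsq, rt, Prod.mk_add_mk]; push_cast; rw [hX', hU']; ring
  have e4 : (nsq ((a, b) + rt (rt (rt (c, d)))) : ℝ) + 1 = X + U - 2 * (b * c - a * d) := by
    simp only [nsq, rt, Prod.mk_add_mk]; push_cast; rw [hX', hU']; ring
  rw [e1, e2, e3, e4]
  have hpp : (a * c + b * d : ℝ) ^ 2 + (b * c - a * d : ℝ) ^ 2 = (X - 1) * U := by
    rw [hX', hU']; ring
  generalize (a * c + b * d : ℝ) = p at hpp
  generalize (b * c - a * d : ℝ) = p' at hpp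
  have key : (X + U + 2 * p) * (X + U + 2 * p') * (X + U - 2 * p) * (X + U - 2 * p') =
      (X + U) ^ 4 - 4 * (X + U) ^ 2 * (p ^ 2 + p' ^ 2) + 16 * p ^ 2 * p' ^ 2 := by ring
  rw [key, hpp]
  have e5 : (X + U) ^ 4 - 4 * (X + U) ^ 2 * ((X - 1) * U) =
      X ^ 4 + (4 * U - 2 * U ^ 2) * X ^ 2 + (U ^ 4 + 8 * U ^ 2 * X + 4 * U ^ 3) := by ring
  have e6 : 0 ≤ U ^ 4 + 8 * U ^ 2 * X + 4 * U ^ 3 := by positivity
  have e7 : 0 ≤ 16 * p ^ 2 * p' ^ 2 := by positivity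
  linarith

/-- The unit steps win. -/
theorem lg_unit {v u : ℤ × ℤ} (hu : nsq u = 1) (hv : 2 ≤ nsq v) :
    4 * lg v + 1 / ((nsq v : ℝ) + 1) ^ 2 ≤ s4 lg v u := by
  have hv' : (2 : ℝ) ≤ (nsq v : ℝ) := by exact_mod_cast hv
  obtain ⟨X, hX⟩ : ∃ X : ℝ, X = (nsq v : ℝ) + 1 := ⟨_, rfl⟩
  have hX3 : 3 ≤ X := by linarith
  have hXpos : 0 < X := by linarith
  have h := s4_lower v u X 1 (X ^ 4 * (1 + 2 / X ^ 2)) hX (by rw [hu]; norm_num)
    (by positivity) (le_of_eq (by field_simp; ring))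
  refine le_trans ?_ h
  rw [Real.log_mul (by positivity) (by positivity), Real.log_pow]
  unfold lg
  rw [← hX]
  have hlog : 1 - (1 + 2 / X ^ 2)⁻¹ ≤ Real.log (1 + 2 / X ^ 2) :=
    Real.one_sub_inv_le_log_of_pos (by positivity)
  have h2 : 1 / X ^ 2 ≤ 1 - (1 + 2 / X ^ 2)⁻¹ := by
    have e : 1 - (1 + 2 / X ^ 2)⁻¹ = 2 / (X ^ 2 + 2) := by
      field_simp
      ring
    rw [e, div_le_div_iff₀ (by positivity) (by positivity)]
    nlinarith
  push_cast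
  linarith

/-- The other steps lose only little. -/
theorem lg_avg {v u : ℤ × ℤ} (hu : 2 * nsq u ≤ nsq v) :
    4 * lg v ≤ s4 lg v u + 4 * (nsq u : ℝ) ^ 2 / ((nsq v : ℝ) + 1) ^ 2 := by
  have hu' : 2 * (nsq u : ℝ) ≤ (nsq v : ℝ) := by exact_mod_cast hu
  have hu0 := nsq_nonneg_real u
  obtain ⟨X, hX⟩ : ∃ X : ℝ, X = (nsq v : ℝ) + 1 := ⟨_, rfl⟩
  obtain ⟨U, hU⟩ : ∃ U : ℝ, U = (nsq u : ℝ) := ⟨_, rfl⟩
  have hU0 : 0 ≤ U := hU ▸ hu0
  have hX1 : 2 * U + 1 ≤ X := by linarith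
  have hXpos : 0 < X := by linarith
  have hU2 : 4 * U ^ 2 ≤ X ^ 2 := by nlinarith
  have ht : 2 * U ^ 2 / X ^ 2 ≤ 1 / 2 := by
    rw [div_le_div_iff₀ (by positivity) (by positivity)]
    linarith
  have ht0 : 0 ≤ 2 * U ^ 2 / X ^ 2 := by positivity
  have hpos : 0 < 1 - 2 * U ^ 2 / X ^ 2 := by linarith
  have h := s4_lower v u X U (X ^ 4 * (1 - 2 * U ^ 2 / X ^ 2)) hX hU
    (by positivity) (by
      have e : X ^ 4 * (1 - 2 * U ^ 2 / X ^ 2) = X ^ 4 - 2 * U ^ 2 * X ^ 2 := by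
        field_simp
      rw [e]
      have : 0 ≤ 4 * U * X ^ 2 := by positivity
      linarith)
  rw [Real.log_mul (by positivity) hpos.ne', Real.log_pow] at h
  have hlgv : lg v = Real.log X := by rw [hX]; rfl
  rw [hlgv, ← hX, ← hU]
  have hlog : 1 - (1 - 2 * U ^ 2 / X ^ 2)⁻¹ ≤ Real.log (1 - 2 * U ^ 2 / X ^ 2) :=
    Real.one_sub_inv_le_log_of_pos hpos
  have h2 : -(4 * U ^ 2 / X ^ 2) ≤ 1 - (1 - 2 * U ^ 2 / X ^ 2)⁻¹ := by
    have h3 : (1 - 2 * U ^ 2 / X ^ 2)⁻¹ ≤ 1 + 2 * (2 * U ^ 2 / X ^ 2) := by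
      rw [inv_le_iff_one_le_mul₀ hpos]
      nlinarith
    have h4 : 4 * U ^ 2 / X ^ 2 = 2 * (2 * U ^ 2 / X ^ 2) := by ring
    linarith
  push_cast at h
  linarith

end Pool.Agent.KLog
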