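import Pool.Agent.KLog.PotSuper
import Pool.Agent.KLog.PotLog

/-! KL3: the subharmonic function. -/

set_option autoImplicit false

open scoped ENNReal

namespace Pool.Agent.KLog

variable {P : Type} {κ : Ker P}

private theorem ps_nsq_le (w : ℤ × ℤ) : nsq w ≤ (nrm w : ℤ) ^ 2 := by
  obtain ⟨a, b⟩ := w
  simp only [nsq, nrm, Nat.cast_add, Int.natCast_natAbs]
  have h1 := sq_abs a
  have h2 := sq_abs b
  nlinarith [abs_nonneg a, abs_nonneg b]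

private theorem ps_le_nsq (w : ℤ × ℤ) : (nrm w : ℤ) ^ 2 ≤ 2 * nsq w := by
  obtain ⟨a, b⟩ := w
  simp only [nsq, nrm, Nat.cast_add, Int.natCast_natAbs]
  have h1 := sq_abs a
  have h2 := sq_abs b
  nlinarith [sq_nonneg (|a| - |b|)]

private theorem ps_nsq_nonneg (w : ℤ × ℤ) : 0 ≤ nsq w := by
  unfold nsq
  positivity

private theorem ps_pow4 : ∀ l : ℕ, (l : ℝ) ^ 4 ≤ 2 * 4 ^ l := by
  have h : ∀ l : ℕ, ((l + 4 : ℕ) : ℝ) ^ 4 ≤ 2 * 4 ^ (l + 4) := by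
    intro l
    induction l with
    | zero => norm_num
    | succ l ih =>
      have h1 : (0 : ℝ) ≤ l := Nat.cast_nonneg l
      have h2 : ((l + 1 + 4 : ℕ) : ℝ) ^ 4 ≤ 4 * ((l + 4 : ℕ) : ℝ) ^ 4 := by
        push_cast
        have h3 : ((l : ℝ) + 1 + 4) ^ 2 ≤ 2 * ((l : ℝ) + 4) ^ 2 := by nlinarith
        have h4 : ((l : ℝ) + 1 + 4) ^ 4 = (((l : ℝ) + 1 + 4) ^ 2) ^ 2 := by ring
        have h5 : ((l : ℝ) + 4) ^ 4 = (((l : ℝ) + 4) ^ 2) ^ 2 := by ring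
        rw [h4, h5]
        nlinarith [sq_nonneg ((l : ℝ) + 1 + 4)]
      calc ((l + 1 + 4 : ℕ) : ℝ) ^ 4 ≤ 4 * ((l + 4 : ℕ) : ℝ) ^ 4 := h2
        _ ≤ 4 * (2 * 4 ^ (l + 4)) := by linarith
        _ = 2 * 4 ^ (l + 1 + 4) := by ring
  intro l
  rcases Nat.lt_or_ge l 4 with hl | hl
  · interval_cases l <;> norm_num
  · obtain ⟨m, rfl⟩ := Nat.exists_eq_add_of_le' hl
    exact h m

private theorem ps_exp (M : ℕ) (hM : 20 ≤ M) :
    ((2 * (M : ℝ) + 1) ^ 2 + 1) ^ 3 ≤ 4 ^ M := by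
  induction M, hM using Nat.le_induction with
  | base => norm_num
  | succ M hM ih =>
    have h0 : (20 : ℝ) ≤ M := by exact_mod_cast hM
    set a : ℝ := (2 * (M : ℝ) + 1) ^ 2 + 1 with ha
    have h1 : (2 * ((M + 1 : ℕ) : ℝ) + 1) ^ 2 + 1 ≤ 3 / 2 * a := by
      rw [ha]
      push_cast
      nlinarith
    have h2 : 0 ≤ (2 * ((M + 1 : ℕ) : ℝ) + 1) ^ 2 + 1 := by positivity
    calc ((2 * ((M + 1 : ℕ) : ℝ) + 1) ^ 2 + 1) ^ 3 ≤ (3 / 2 * a) ^ 3 :=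
          pow_le_pow_left₀ h2 h1 3
      _ = 27 / 8 * a ^ 3 := by ring
      _ ≤ 4 * a ^ 3 := by
        have : 0 ≤ a ^ 3 := by positivity
        linarith
      _ ≤ 4 * 4 ^ M := by linarith
      _ = 4 ^ (M + 1) := by ring

/-- The sum over the free elements of size at most `N / 2`. -/
private noncomputable def psA (κ : Ker P) (N : ℕ) (f : ℤ × ℤ → ℝ≥0∞) : ℝ≥0∞ :=
  ∑' p : {p // κ.Fr p}, if 2 * κ.l p.1 ≤ N then κ.wt p.1 * f (κ.u p.1) else 0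

private theorem psA_rot (hκ : κ.Ok) (N : ℕ) (f : ℤ × ℤ → ℝ≥0∞) :
    psA κ N (fun w => f (rt w)) = psA κ N f := by
  obtain ⟨σ, hσ⟩ := hκ.rot
  unfold psA
  rw [← σ.tsum_eq (fun p : {p // κ.Fr p} =>
    if 2 * κ.l p.1 ≤ N then κ.wt p.1 * f (κ.u p.1) else 0)]
  refine tsum_congr fun p => ?_
  obtain ⟨h1, h2, h3⟩ := hσ p
  rw [h1, h2, h3]

private theorem psA_add (N : ℕ) (f g : ℤ × ℤ → ℝ≥0∞) :
    psA κ N (fun w => f w + g w) = psA κ N f + psA κ N g := by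
  unfold psA
  rw [← ENNReal.tsum_add]
  refine tsum_congr fun p => ?_
  split_ifs
  · rw [mul_add]
  · rw [add_zero]

private theorem psA_mono (N : ℕ) {f g : ℤ × ℤ → ℝ≥0∞} (h : ∀ w, f w ≤ g w) :
    psA κ N f ≤ psA κ N g := by
  unfold psA
  refine ENNReal.tsum_le_tsum fun p => ?_
  split_ifs
  · exact mul_le_mul_right (h _) _
  · exact le_rfl

private theorem psA_four (hκ : κ.Ok) (N : ℕ) (f : ℤ × ℤ → ℝ≥0∞) :
    psA κ N (fun w => f w + f (rt w) + f (rt (rt w)) + f (rt (rt (rt w)))) = 4 * psA κ N f := by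
  rw [psA_add N (fun w => f w + f (rt w) + f (rt (rt w))) (fun w => f (rt (rt (rt w)))),
    psA_add N (fun w => f w + f (rt w)) (fun w => f (rt (rt w))), psA_add N f (fun w => f (rt w)),
    psA_rot hκ N (fun w => f (rt (rt w))), psA_rot hκ N (fun w => f (rt w)), psA_rot hκ N f]
  ring

private theorem psA_eq (N : ℕ) (f : ℤ × ℤ → ℝ≥0∞) :
    psA κ N f = ∑' p : {p // 2 * κ.l p ≤ N ∧ κ.Fr p}, κ.wt p.1 * f (κ.u p.1) := by
  unfold psA
  rw [tsum_split κ.Fr (fun p => 2 * κ.l p ≤ N)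
    (fun p => if 2 * κ.l p ≤ N then κ.wt p * f (κ.u p) else 0)]
  have h1 : ∑' p : {p // ¬ 2 * κ.l p ≤ N ∧ κ.Fr p},
      (if 2 * κ.l p.1 ≤ N then κ.wt p.1 * f (κ.u p.1) else 0) = 0 := by
    rw [ENNReal.tsum_eq_zero]
    intro p
    rw [if_neg p.2.1]
  rw [h1, add_zero]
  refine tsum_congr fun p => ?_
  rw [if_pos p.2.1]

private theorem ps_B (hκ : κ.Ok) {v : ℤ × ℤ} (hv : 1 ≤ nrm v) (f : ℤ × ℤ → ℝ≥0∞) :
    psA κ (nrm v) (fun w => f (v + w)) ≤ κ.B f v := by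
  rw [psA_eq]
  unfold Ker.B
  refine tsum_mono_sub (A := fun p => 2 * κ.l p ≤ nrm v ∧ κ.Fr p) (B := κ.V v)
    (f := fun p => κ.wt p * f (v + κ.u p)) (g := fun p => κ.wt p * f (v + κ.u p))
    fun p hp => ⟨(hκ.far v p ?_).2 hp.2, le_rfl⟩
  have := hp.1
  omega

private theorem ps_gain {v : ℤ × ℤ} (hv : 2 ≤ nsq v) (K : ℝ) {w : ℤ × ℤ} (hw : nsq w = 1) :
    ENNReal.ofReal (4 * (lg v - K) + 1 / ((nsq v : ℝ) + 1) ^ 2) ≤
      ENNReal.ofReal (s4 lg v w - 4 * K) := by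
  apply ENNReal.ofReal_le_ofReal
  have := lg_unit hw hv
  linarith

/-- The basic elements. -/
private theorem ps_bas (hκ : κ.Ok) {v : ℤ × ℤ} (hv : 2 ≤ nsq v) {N : ℕ} (hN : 2 ≤ N) {K : ℝ}
    (hg : 0 ≤ lg v - K) :
    ENNReal.ofReal (κ.q * (1 + 8 * κ.z) * (4 * (lg v - K)) +
      8 * κ.q * κ.z * (1 / ((nsq v : ℝ) + 1) ^ 2)) ≤
    ∑' p : {p // κ.Bas p ∧ κ.Fr p}, if 2 * κ.l p.1 ≤ N then
      κ.wt p.1 * ENNReal.ofReal (s4 lg v (κ.u p.1) - 4 * K) else 0 := by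
  have hz := hκ.z_pos
  have hq := hκ.q_pos
  have h1 : ∑' p : {p // κ.Bas p ∧ κ.Fr p}, (if 2 * κ.l p.1 ≤ N then
      κ.wt p.1 * ENNReal.ofReal (s4 lg v (κ.u p.1) - 4 * K) else 0) =
      ∑' p : {p // κ.Bas p ∧ κ.Fr p},
        κ.wt p.1 * ENNReal.ofReal (s4 lg v (κ.u p.1) - 4 * K) := by
    refine tsum_congr fun p => ?_
    have := hκ.bas_l p.1 p.2.1
    rw [if_pos (by omega)]
  rw [h1, hκ.bas_F fun w => ENNReal.ofReal (s4 lg v w - 4 * K)]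
  have h0 : s4 lg v 0 = 4 * lg v := by
    have e : rt (0 : ℤ × ℤ) = 0 := rfl
    unfold s4
    rw [e, e, e, add_zero]
    ring
  set c : ℝ := 1 / ((nsq v : ℝ) + 1) ^ 2 with hc
  have hc0 : 0 ≤ c := by positivity
  have hnb : 4 * ENNReal.ofReal (4 * (lg v - K) + c) ≤
      nb (fun w => ENNReal.ofReal (s4 lg v w - 4 * K)) 0 := by
    unfold nb
    have e1 := ps_gain hv K (w := 0 + (1, 0)) rfl
    have e2 := ps_gain hv K (w := 0 + (-1, 0)) rfl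
    have e3 := ps_gain hv K (w := 0 + (0, 1)) rfl
    have e4 := ps_gain hv K (w := 0 + (0, -1)) rfl
    rw [← hc] at e1 e2 e3 e4
    refine le_trans (le_of_eq ?_) (add_le_add (add_le_add (add_le_add e1 e2) e3) e4)
    ring
  refine le_trans (le_of_eq ?_) (add_le_add le_rfl (mul_le_mul_right hnb _))
  have e5 : s4 lg v 0 - 4 * K = 4 * (lg v - K) := by rw [h0]; ring
  rw [e5]
  have e6 : (4 : ℝ≥0∞) = ENNReal.ofReal 4 := by norm_num
  rw [e6, ← ENNReal.ofReal_mul (p := 4) (by norm_num), ← ENNReal.ofReal_mul (p := κ.q) hq.le,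
    ← ENNReal.ofReal_mul (p := 2 * κ.q * κ.z) (by positivity),
    ← ENNReal.ofReal_add (by positivity) (by positivity)]
  congr 1
  ring

private theorem ps_sq {v u : ℤ × ℤ} {l : ℕ} (hu : nrm u ≤ l) (hl : 2 * l ≤ nrm v) :
    2 * nsq u ≤ nsq v := by
  have h1 := ps_nsq_le u
  have h2 := ps_le_nsq v
  have h3 : (nrm u : ℤ) ≤ l := by exact_mod_cast hu
  have h4 : 2 * (l : ℤ) ≤ nrm v := by exact_mod_cast hl
  have h5 : (0 : ℤ) ≤ nrm u := by positivity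
  nlinarith

/-- The other elements. -/
private theorem ps_rest (hκ : κ.Ok) {v : ℤ × ℤ} {K : ℝ} :
    ENNReal.ofReal ((1 - κ.q * (1 + 8 * κ.z)) * (4 * (lg v - K))) ≤
    (∑' p : {p // ¬ κ.Bas p ∧ κ.Fr p}, if 2 * κ.l p.1 ≤ nrm v then
      κ.wt p.1 * ENNReal.ofReal (s4 lg v (κ.u p.1) - 4 * K) else 0) +
    (ENNReal.ofReal (2 * κ.z / ((nsq v : ℝ) + 1) ^ 2) +
      ENNReal.ofReal (κ.z * (1 / 4) ^ (nrm v / 2) * (lg v - K))) := by
  have hz := hκ.z_pos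
  have hq := hκ.q_pos
  obtain ⟨hr1, hr2, hr3⟩ := rest_eq hκ
  set X : ℝ := (nsq v : ℝ) + 1 with hX
  have hX0 : 0 < X := by
    have : (0 : ℝ) ≤ nsq v := by exact_mod_cast ps_nsq_nonneg v
    linarith
  set g : ℝ := lg v - K with hgdef
  have h1 : ENNReal.ofReal ((1 - κ.q * (1 + 8 * κ.z)) * (4 * g)) =
      ∑' p : {p // ¬ κ.Bas p ∧ κ.Fr p}, κ.wt p.1 * ENNReal.ofReal (4 * g) := by
    rw [ENNReal.tsum_mul_right, hr1, ← ENNReal.ofReal_mul hr2]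
  -- the losses
  have h2 : ∑' p : {p // ¬ κ.Bas p ∧ κ.Fr p}, κ.wt p.1 *
      (ENNReal.ofReal (8 / X ^ 2) * 4 ^ κ.l p.1) ≤ ENNReal.ofReal (2 * κ.z / X ^ 2) := by
    have e1 : ∀ p : {p // ¬ κ.Bas p ∧ κ.Fr p}, κ.wt p.1 *
      (ENNReal.ofReal (8 / X ^ 2) * 4 ^ κ.l p.1) =
        ENNReal.ofReal (8 / X ^ 2) * (κ.wt p.1 * 4 ^ κ.l p.1) := fun p => by ring
    simp only [e1]
    rw [ENNReal.tsum_mul_left]
    have e2 : ∑' p : {p // ¬ κ.Bas p ∧ κ.Fr p}, κ.wt p.1 * 4 ^ κ.l p.1 ≤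
        ENNReal.ofReal (κ.z / 4) :=
      le_trans (tsum_mono_sub (A := fun p => ¬ κ.Bas p ∧ κ.Fr p)
        (B := fun p => ¬ κ.Bas p ∧ (κ.Fr p ∨ ∃ v, κ.V v p)) (f := fun p => κ.wt p * 4 ^ κ.l p)
        (g := fun p => κ.wt p * 4 ^ κ.l p) fun p hp => ⟨⟨hp.1, Or.inl hp.2⟩, le_rfl⟩) hκ.rest
    refine (mul_le_mul_right e2 _).trans (le_of_eq ?_)
    rw [← ENNReal.ofReal_mul (by positivity)]
    congr 1
    ring
  -- the large elements
  have h3 : ∑' p : {p // ¬ κ.Bas p ∧ κ.Fr p}, (if 2 * κ.l p.1 ≤ nrm v then 0 else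
      κ.wt p.1 * ENNReal.ofReal (4 * g)) ≤
      ENNReal.ofReal (κ.z * (1 / 4) ^ (nrm v / 2) * g) := by
    rw [tsum_split (fun p => ¬ κ.Bas p ∧ κ.Fr p) (fun p => 2 * κ.l p ≤ nrm v)
      (fun p => if 2 * κ.l p ≤ nrm v then 0 else κ.wt p * ENNReal.ofReal (4 * g))]
    have e1 : ∑' p : {p // 2 * κ.l p ≤ nrm v ∧ ¬ κ.Bas p ∧ κ.Fr p},
        (if 2 * κ.l p.1 ≤ nrm v then 0 else κ.wt p.1 * ENNReal.ofReal (4 * g)) = 0 := by
      rw [ENNReal.tsum_eq_zero]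
      intro p
      rw [if_pos p.2.1]
    rw [e1, zero_add]
    have e2 := tsum_mono_sub (A := fun p => ¬ 2 * κ.l p ≤ nrm v ∧ ¬ κ.Bas p ∧ κ.Fr p)
      (B := fun p => ¬ κ.Bas p ∧ (κ.Fr p ∨ ∃ v, κ.V v p) ∧ nrm v / 2 ≤ κ.l p)
      (f := fun p => if 2 * κ.l p ≤ nrm v then 0 else κ.wt p * ENNReal.ofReal (4 * g))
      (g := fun p => κ.wt p * ENNReal.ofReal (4 * g)) fun p hp => by
        refine ⟨⟨hp.2.1, Or.inl hp.2.2, ?_⟩, ?_⟩
        · have := hp.1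
          omega
        · rw [if_neg hp.1]
    refine e2.trans ?_
    rw [ENNReal.tsum_mul_right]
    refine (mul_le_mul_left (tail_le hκ (nrm v / 2)) _).trans (le_of_eq ?_)
    rw [← ENNReal.ofReal_mul (by positivity)]
    congr 1
    ring
  rw [h1]
  refine le_trans ?_ (add_le_add le_rfl (add_le_add h2 h3))
  rw [← ENNReal.tsum_add, ← ENNReal.tsum_add]
  refine ENNReal.tsum_le_tsum fun p => ?_
  split_ifs with hl
  · rw [add_zero, ← mul_add]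
    refine mul_le_mul_right ?_ _
    have e1 : (4 : ℝ≥0∞) ^ κ.l p.1 = ENNReal.ofReal (4 ^ κ.l p.1) := by
      rw [ENNReal.ofReal_pow (by norm_num)]
      norm_num
    rw [e1, ← ENNReal.ofReal_mul (by positivity)]
    refine le_trans ?_ ENNReal.ofReal_add_le
    apply ENNReal.ofReal_le_ofReal
    have hu := hκ.u_le p.1 (Or.inl p.2.2)
    have h4 := lg_avg (ps_sq hu hl)
    have h5 : (nsq (κ.u p.1) : ℝ) ^ 2 ≤ 2 * 4 ^ κ.l p.1 := by
      have e2 : (nsq (κ.u p.1) : ℝ) ≤ (κ.l p.1 : ℝ) ^ 2 := by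
        have e3 := ps_nsq_le (κ.u p.1)
        have e4 : ((nrm (κ.u p.1) : ℤ)) ^ 2 ≤ (κ.l p.1 : ℤ) ^ 2 := by
          have : (nrm (κ.u p.1) : ℤ) ≤ κ.l p.1 := by exact_mod_cast hu
          have h0 : (0 : ℤ) ≤ nrm (κ.u p.1) := by positivity
          nlinarith
        exact_mod_cast e3.trans e4
      have e5 : (0 : ℝ) ≤ nsq (κ.u p.1) := by exact_mod_cast ps_nsq_nonneg _
      calc (nsq (κ.u p.1) : ℝ) ^ 2 ≤ ((κ.l p.1 : ℝ) ^ 2) ^ 2 := pow_le_pow_left₀ e5 e2 2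
        _ = (κ.l p.1 : ℝ) ^ 4 := by ring
        _ ≤ 2 * 4 ^ κ.l p.1 := ps_pow4 _
    have h6 : 4 * (nsq (κ.u p.1) : ℝ) ^ 2 / X ^ 2 ≤ 8 / X ^ 2 * 4 ^ κ.l p.1 := by
      rw [div_mul_eq_mul_div]
      apply div_le_div_of_nonneg_right _ (by positivity)
      linarith
    rw [← hX] at h4
    linarith
  · rw [zero_add]
    exact le_add_self

/-- **The subharmonic function.** -/
theorem sub (hκ : κ.Ok) : ∃ K : ℝ, 0 ≤ K ∧ ∀ v, v ≠ 0 → gg K v ≤ κ.B (gg K) v := by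
  have hz := hκ.z_pos
  have hq := hκ.q_pos
  obtain ⟨hq1, hq2⟩ := q_bounds hκ
  obtain ⟨hr1, hr2, hr3⟩ := rest_eq hκ
  refine ⟨Real.log 2601, Real.log_nonneg (by norm_num), fun v hv => ?_⟩
  set K : ℝ := Real.log 2601 with hK
  set X : ℝ := (nsq v : ℝ) + 1 with hX
  have hgg : ∀ w, gg K w = ENNReal.ofReal (lg w - K) := fun _ => rfl
  set g : ℝ := lg v - K with hg
  by_cases hg0 : g ≤ 0
  · rw [hgg, ENNReal.ofReal_of_nonpos hg0]
    exact zero_le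
  push Not at hg0
  have hnn : (0 : ℝ) ≤ nsq v := by exact_mod_cast ps_nsq_nonneg v
  have hbig : 2600 < nsq v := by
    have h1 : Real.log 2601 < Real.log X := by
      have : lg v = Real.log X := rfl
      rw [this] at hg
      linarith
    have h2 := (Real.log_lt_log_iff (by norm_num) (by linarith)).1 h1
    have h3 : (2600 : ℝ) < nsq v := by linarith
    exact_mod_cast h3
  set N : ℕ := nrm v with hN
  have hN50 : 50 < N := by
    by_contra hcon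
    have h1 := ps_nsq_le v
    have h2 : (N : ℤ) ≤ 50 := by omega
    have h3 : (0 : ℤ) ≤ N := by positivity
    nlinarith
  have hX1 : 1 ≤ X := by linarith
  have hgX : g ≤ X := by
    have h1 : Real.log X ≤ X - 1 := Real.log_le_sub_one_of_pos (by linarith)
    have h2 : 0 ≤ K := Real.log_nonneg (by norm_num)
    have h3 : lg v = Real.log X := rfl
    rw [hg, h3]
    linarith
  have htail : (1 / 4 : ℝ) ^ (N / 2) * g ≤ 1 / X ^ 2 := by
    have h1 := ps_exp (N / 2) (by omega)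
    have h2 : X ≤ (2 * ((N / 2 : ℕ) : ℝ) + 1) ^ 2 + 1 := by
      have h3 : (nsq v : ℝ) ≤ (N : ℝ) ^ 2 := by exact_mod_cast ps_nsq_le v
      have h4 : (N : ℝ) ≤ 2 * ((N / 2 : ℕ) : ℝ) + 1 := by
        have : N ≤ 2 * (N / 2) + 1 := by omega
        exact_mod_cast this
      have h5 : (0 : ℝ) ≤ N := Nat.cast_nonneg _
      have h6 : (N : ℝ) ^ 2 ≤ (2 * ((N / 2 : ℕ) : ℝ) + 1) ^ 2 := pow_le_pow_left₀ h5 h4 2
      linarith
    have h3 : X ^ 3 ≤ 4 ^ (N / 2) := (pow_le_pow_left₀ (by linarith) h2 3).trans h1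
    have h4 : (0 : ℝ) < 4 ^ (N / 2) := by positivity
    rw [one_div, inv_pow, ← div_eq_inv_mul, div_le_div_iff₀ h4 (by positivity)]
    nlinarith [sq_nonneg X]
  -- the four rotations
  have hfour : psA κ N (fun w => ENNReal.ofReal (s4 lg v w - 4 * K)) ≤ 4 * κ.B (gg K) v := by
    refine le_trans ?_ (mul_le_mul_right (ps_B hκ (by omega) (gg K)) 4)
    rw [← psA_four hκ]
    refine psA_mono _ fun w => ?_
    simp only [hgg]
    have e1 : s4 lg v w - 4 * K = (lg (v + w) - K) + (lg (v + rt w) - K) +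
        (lg (v + rt (rt w)) - K) + (lg (v + rt (rt (rt w))) - K) := by
      unfold s4
      ring
    rw [e1]
    exact ENNReal.ofReal_add_le.trans (add_le_add (ENNReal.ofReal_add_le.trans
      (add_le_add ENNReal.ofReal_add_le le_rfl)) le_rfl)
  have hsplit : psA κ N (fun w => ENNReal.ofReal (s4 lg v w - 4 * K)) =
      (∑' p : {p // κ.Bas p ∧ κ.Fr p}, if 2 * κ.l p.1 ≤ N then
        κ.wt p.1 * ENNReal.ofReal (s4 lg v (κ.u p.1) - 4 * K) else 0) +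
      ∑' p : {p // ¬ κ.Bas p ∧ κ.Fr p}, if 2 * κ.l p.1 ≤ N then
        κ.wt p.1 * ENNReal.ofReal (s4 lg v (κ.u p.1) - 4 * K) else 0 :=
    tsum_split κ.Fr κ.Bas (fun p => if 2 * κ.l p ≤ N then
        κ.wt p * ENNReal.ofReal (s4 lg v (κ.u p) - 4 * K) else 0)
  have hb := ps_bas hκ (v := v) (by omega) (N := N) (by omega) (K := K) hg0.le
  have hr := ps_rest hκ (v := v) (K := K)
  rw [← hX, ← hg] at hb hr
  have hsum := add_le_add hb hr
  rw [← add_assoc, ← hsplit] at hsum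
  have hsum2 := hsum.trans (add_le_add_left hfour _)
  rw [← ENNReal.ofReal_add (by positivity) (by positivity)] at hsum2
  have hz2 : 0 ≤ κ.z * (1 / 4) ^ (N / 2) * g := by positivity
  have hz3 : 0 ≤ 2 * κ.z / X ^ 2 := by positivity
  rw [← ENNReal.ofReal_add hz3 hz2] at hsum2
  have hreal : 4 * g + (2 * κ.z / X ^ 2 + κ.z * (1 / 4) ^ (N / 2) * g) ≤
      κ.q * (1 + 8 * κ.z) * (4 * g) + 8 * κ.q * κ.z * (1 / X ^ 2) +
        (1 - κ.q * (1 + 8 * κ.z)) * (4 * g) := by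
    have h1 : κ.z * (1 / 4) ^ (N / 2) * g ≤ κ.z * (1 / X ^ 2) := by
      rw [mul_assoc]
      exact mul_le_mul_of_nonneg_left htail hz.le
    have h2 : 2 * κ.z / X ^ 2 = 2 * κ.z * (1 / X ^ 2) := by ring
    have h3 : 0 < κ.z * (1 / X ^ 2) := by positivity
    have h4 : 3 * (κ.z * (1 / X ^ 2)) ≤ 8 * κ.q * (κ.z * (1 / X ^ 2)) := by
      apply mul_le_mul_of_nonneg_right _ h3.le
      linarith
    rw [h2]
    linarith
  have hsum3 := (ENNReal.ofReal_le_ofReal hreal).trans hsum2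
  rw [ENNReal.ofReal_add (by positivity) (by positivity)] at hsum3
  have hfin := (ENNReal.add_le_add_iff_right ENNReal.ofReal_ne_top).1 hsum3
  have e4 : ENNReal.ofReal (4 * g) = 4 * gg K v := by
    rw [hgg, ENNReal.ofReal_mul (by norm_num), ← hg]
    norm_num
  rw [e4] at hfin
  exact (ENNReal.mul_le_mul_iff_right (by norm_num) (by norm_num)).1 hfin

end Pool.Agent.KLog
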