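import Pool.Agent.KLog.Ker

/-! KL1: the superharmonic function. -/

set_option autoImplicit false

open scoped ENNReal

namespace Pool.Agent.KLog

variable {P : Type} {κ : Ker P}

/-- Splitting a sum over a subtype. -/
theorem tsum_split (A B : P → Prop) (f : P → ℝ≥0∞) :
    ∑' p : {p // A p}, f p.1 = ∑' p : {p // B p ∧ A p}, f p.1 + ∑' p : {p // ¬ B p ∧ A p}, f p.1 := by
  have e : ∀ C : P → Prop, ∑' p : {p // C p}, f p.1 = ∑' p, Set.indicator {p | C p} f p :=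
    fun C => tsum_subtype {p | C p} f
  rw [e, e, e, ← ENNReal.tsum_add]
  refine tsum_congr fun p => ?_
  by_cases h1 : A p <;> by_cases h2 : B p <;> simp [Set.indicator, h1, h2]

/-- Comparison of sums over subtypes. -/
theorem tsum_mono_sub {A B : P → Prop} {f g : P → ℝ≥0∞} (h : ∀ p, A p → B p ∧ f p ≤ g p) :
    ∑' p : {p // A p}, f p.1 ≤ ∑' p : {p // B p}, g p.1 := by
  have e : ∀ (C : P → Prop) (f : P → ℝ≥0∞), ∑' p : {p // C p}, f p.1 =
    ∑' p, Set.indicator {p | C p} f p := fun C f => tsum_subtype {p | C p} f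
  rw [e, e]
  refine ENNReal.tsum_le_tsum fun p => ?_
  by_cases h1 : A p
  · simp [Set.indicator, h1, (h p h1).1, (h p h1).2]
  · simp [Set.indicator, h1]

/-- The number `e = 1 - q (1 + 8 z)` is the weight of the free elements that are not basic. -/
theorem rest_eq (hκ : κ.Ok) : ∑' p : {p // ¬ κ.Bas p ∧ κ.Fr p}, κ.wt p.1 =
    ENNReal.ofReal (1 - κ.q * (1 + 8 * κ.z)) ∧ 0 ≤ 1 - κ.q * (1 + 8 * κ.z) ∧
    1 - κ.q * (1 + 8 * κ.z) ≤ κ.z / 4 := by
  have hz := hκ.z_pos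
  have hq := hκ.q_pos
  have h1 := tsum_split κ.Fr κ.Bas κ.wt
  rw [hκ.one] at h1
  have h2 := hκ.bas_F fun _ => 1
  simp only [mul_one, nb] at h2
  have h3 : ∑' p : {p // κ.Bas p ∧ κ.Fr p}, κ.wt p.1 =
      ENNReal.ofReal (κ.q * (1 + 8 * κ.z)) := by
    rw [h2]
    have e4 : (1 + 1 + 1 + 1 : ℝ≥0∞) = ENNReal.ofReal 4 := by norm_num
    rw [e4, ← ENNReal.ofReal_mul (by positivity), ← ENNReal.ofReal_add (by positivity)
      (by positivity)]
    congr 1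
    ring
  rw [h3] at h1
  have h4 : ENNReal.ofReal (κ.q * (1 + 8 * κ.z)) ≤ 1 := by
    rw [h1]
    exact le_self_add
  have h5 : κ.q * (1 + 8 * κ.z) ≤ 1 := by
    rwa [ENNReal.ofReal_le_one] at h4
  have h6 : ∑' p : {p // ¬ κ.Bas p ∧ κ.Fr p}, κ.wt p.1 =
      ENNReal.ofReal (1 - κ.q * (1 + 8 * κ.z)) := by
    rw [ENNReal.ofReal_sub _ (by positivity), ENNReal.ofReal_one, h1]
    exact (ENNReal.add_sub_cancel_left ENNReal.ofReal_ne_top).symm
  refine ⟨h6, by linarith, ?_⟩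
  have h7 : ENNReal.ofReal (1 - κ.q * (1 + 8 * κ.z)) ≤ ENNReal.ofReal (κ.z / 4) := by
    rw [← h6]
    refine le_trans (tsum_mono_sub (A := fun p => ¬ κ.Bas p ∧ κ.Fr p)
      (B := fun p => ¬ κ.Bas p ∧ (κ.Fr p ∨ ∃ v, κ.V v p)) (f := κ.wt)
      (g := fun p => κ.wt p * 4 ^ κ.l p) fun p hp => ?_) hκ.rest
    refine ⟨⟨hp.1, Or.inl hp.2⟩, ?_⟩
    exact le_mul_of_one_le_right' (one_le_pow_of_one_le' (by norm_num) _)
  exact (ENNReal.ofReal_le_ofReal_iff (by positivity)).1 h7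

/-- `q` is close to one. -/
theorem q_bounds (hκ : κ.Ok) : 99 / 100 ≤ κ.q ∧ κ.q ≤ 1 := by
  obtain ⟨-, h1, h2⟩ := rest_eq hκ
  have hz := hκ.z_pos
  have hq := hκ.q_pos
  have hz' := hκ.z_le
  constructor
  · by_contra h
    push Not at h
    nlinarith
  · nlinarith

/-- The elements of size at least `j`. -/
theorem tail_le (hκ : κ.Ok) (j : ℕ) :
    ∑' p : {p // ¬ κ.Bas p ∧ (κ.Fr p ∨ ∃ v, κ.V v p) ∧ j ≤ κ.l p}, κ.wt p.1 ≤
      ENNReal.ofReal (κ.z / 4 * (1 / 4) ^ j) := by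
  have hz := hκ.z_pos
  have h4 : ((4 : ℝ≥0∞) ^ j) ≠ 0 := by positivity
  have h4' : ((4 : ℝ≥0∞) ^ j) ≠ ⊤ := ENNReal.pow_ne_top (by norm_num)
  have h1 : ∑' p : {p // ¬ κ.Bas p ∧ (κ.Fr p ∨ ∃ v, κ.V v p) ∧ j ≤ κ.l p}, κ.wt p.1 * 4 ^ j ≤
      ENNReal.ofReal (κ.z / 4) := by
    refine le_trans (tsum_mono_sub
      (A := fun p => ¬ κ.Bas p ∧ (κ.Fr p ∨ ∃ v, κ.V v p) ∧ j ≤ κ.l p)
      (B := fun p => ¬ κ.Bas p ∧ (κ.Fr p ∨ ∃ v, κ.V v p)) (f := fun p => κ.wt p * 4 ^ j)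
      (g := fun p => κ.wt p * 4 ^ κ.l p) fun p hp => ⟨⟨hp.1, hp.2.1⟩, ?_⟩) hκ.rest
    exact mul_le_mul_right (pow_le_pow_right₀ (by norm_num) hp.2.2) _
  rw [ENNReal.tsum_mul_right] at h1
  rw [ENNReal.ofReal_mul (by positivity), one_div, inv_pow, ENNReal.ofReal_inv_of_pos (by positivity),
    ENNReal.ofReal_pow (by norm_num), ← div_eq_mul_inv,
    show ENNReal.ofReal (4 : ℝ) = 4 by norm_num]
  rwa [ENNReal.le_div_iff_mul_le (Or.inl h4) (Or.inl h4')]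

private theorem quarter_ne {a : ℤ} (ha : a ≠ 0) :
    (1 / 4 : ℝ) ^ (a + 1).natAbs + (1 / 4) ^ (a - 1).natAbs = 17 / 4 * (1 / 4) ^ a.natAbs := by
  rcases a.lt_or_gt_of_ne ha with h | h
  · obtain ⟨m, hm⟩ : ∃ m : ℕ, a = -(m + 1 : ℤ) := ⟨(-a - 1).toNat, by omega⟩
    have e1 : (a + 1).natAbs = m := by omega
    have e2 : (a - 1).natAbs = m + 2 := by omega
    have e3 : a.natAbs = m + 1 := by omega
    rw [e1, e2, e3]
    ring
  · obtain ⟨m, hm⟩ : ∃ m : ℕ, a = (m + 1 : ℤ) := ⟨(a - 1).toNat, by omega⟩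
    have e1 : (a + 1).natAbs = m + 2 := by omega
    have e2 : (a - 1).natAbs = m := by omega
    have e3 : a.natAbs = m + 1 := by omega
    rw [e1, e2, e3]
    ring

private theorem quarter_all (a : ℤ) :
    1 / 2 * (1 / 4 : ℝ) ^ a.natAbs ≤ (1 / 4 : ℝ) ^ (a + 1).natAbs + (1 / 4) ^ (a - 1).natAbs := by
  by_cases ha : a = 0
  · subst ha
    norm_num
  · rw [quarter_ne ha]
    have : (0 : ℝ) < (1 / 4) ^ a.natAbs := by positivity
    linarith

private theorem quarter_nb {v : ℤ × ℤ} (hv : v ≠ 0) :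
    19 / 4 * (1 / 4 : ℝ) ^ nrm v ≤ (1 / 4 : ℝ) ^ nrm (v + (1, 0)) + (1 / 4) ^ nrm (v + (-1, 0)) +
      (1 / 4) ^ nrm (v + (0, 1)) + (1 / 4) ^ nrm (v + (0, -1)) := by
  obtain ⟨a, b⟩ := v
  simp only [nrm, Prod.mk_add_mk, add_zero, pow_add, ← sub_eq_add_neg]
  have ha := quarter_all a
  have hb := quarter_all b
  have pa : (0 : ℝ) < (1 / 4) ^ a.natAbs := by positivity
  have pb : (0 : ℝ) < (1 / 4) ^ b.natAbs := by positivity
  have h0 : a ≠ 0 ∨ b ≠ 0 := by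
    by_contra h
    push Not at h
    exact hv (by rw [h.1, h.2]; rfl)
  rcases h0 with h0 | h0
  · have := quarter_ne h0
    nlinarith
  · have := quarter_ne h0
    nlinarith

/-- **The superharmonic function.** -/
theorem super (hκ : κ.Ok) {v : ℤ × ℤ} (hv : v ≠ 0) :
    κ.B hh v + ENNReal.ofReal (κ.z / 2 * (1 / 4) ^ nrm v) ≤ hh v := by
  have hz := hκ.z_pos
  have hq := hκ.q_pos
  obtain ⟨hq1, hq2⟩ := q_bounds hκ
  obtain ⟨h1, h2, h3⟩ := rest_eq hκ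
  set e : ℝ := 1 - κ.q * (1 + 8 * κ.z) with he
  set t : ℝ := (1 / 4 : ℝ) ^ nrm v with ht
  have ht0 : 0 < t := by positivity
  have hnn : ∀ w : ℤ × ℤ, 0 ≤ 1 - (1 / 4 : ℝ) ^ nrm w := fun w => by
    have : (1 / 4 : ℝ) ^ nrm w ≤ 1 := pow_le_one₀ (by norm_num) (by norm_num)
    linarith
  have hkill : kill hh = hh := by
    funext w
    unfold kill
    split_ifs with hw
    · subst hw
      simp [hh, nrm]
    · rfl
  have hle1 : ∀ w, hh w ≤ 1 := fun w => by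
    unfold hh
    rw [ENNReal.ofReal_le_one]
    have : (0 : ℝ) < (1 / 4) ^ nrm w := by positivity
    linarith
  -- the basic elements
  have hb : ∑' p : {p // κ.Bas p ∧ κ.V v p}, κ.wt p.1 * hh (v + κ.u p.1) ≤
      ENNReal.ofReal (κ.q * (1 + 8 * κ.z) * (1 - t) - 3 / 2 * κ.q * κ.z * t) := by
    rw [hκ.bas_V v hv, hkill]
    unfold nb hh
    rw [← ENNReal.ofReal_add (hnn _) (hnn _), ← ENNReal.ofReal_add (add_nonneg (hnn _) (hnn _))
      (hnn _), ← ENNReal.ofReal_add (add_nonneg (add_nonneg (hnn _) (hnn _)) (hnn _)) (hnn _),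
      ← ENNReal.ofReal_mul hq.le, ← ENNReal.ofReal_mul (by positivity),
      ← ENNReal.ofReal_add (mul_nonneg hq.le (hnn _)) (mul_nonneg (by positivity)
        (add_nonneg (add_nonneg (add_nonneg (hnn _) (hnn _)) (hnn _)) (hnn _)))]
    apply ENNReal.ofReal_le_ofReal
    have h4 := quarter_nb hv
    have h5 : 0 < κ.q * κ.z := by positivity
    nlinarith
  -- the others
  have hr : ∑' p : {p // ¬ κ.Bas p ∧ κ.V v p}, κ.wt p.1 * hh (v + κ.u p.1) ≤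
      ENNReal.ofReal (e * (1 - t) + e * t + κ.z / 4 * t) := by
    rw [tsum_split (fun p => ¬ κ.Bas p ∧ κ.V v p) (fun p => κ.l p < nrm v)
      (fun p => κ.wt p * hh (v + κ.u p)), ENNReal.ofReal_add (by
        have : 0 ≤ 1 - t := hnn v
        positivity) (by positivity)]
    refine add_le_add ?_ ?_
    · have e1 : e * (1 - t) + e * t = e := by ring
      rw [e1, ← h1]
      refine tsum_mono_sub (A := fun p => κ.l p < nrm v ∧ ¬ κ.Bas p ∧ κ.V v p)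
        (B := fun p => ¬ κ.Bas p ∧ κ.Fr p) (f := fun p => κ.wt p * hh (v + κ.u p))
        (g := κ.wt) fun p hp => ⟨⟨hp.2.1, (hκ.far v p hp.1).1 hp.2.2⟩, ?_⟩
      exact mul_le_of_le_one_right' (hle1 _)
    · refine le_trans (tsum_mono_sub (A := fun p => ¬ κ.l p < nrm v ∧ ¬ κ.Bas p ∧ κ.V v p)
        (B := fun p => ¬ κ.Bas p ∧ (κ.Fr p ∨ ∃ v, κ.V v p) ∧ nrm v ≤ κ.l p)
        (f := fun p => κ.wt p * hh (v + κ.u p)) (g := κ.wt) fun p hp =>
          ⟨⟨hp.2.1, Or.inr ⟨v, hp.2.2⟩, not_lt.1 hp.1⟩, ?_⟩) (tail_le hκ (nrm v))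
      exact mul_le_of_le_one_right' (hle1 _)
  have hsplit : κ.B hh v = ∑' p : {p // κ.Bas p ∧ κ.V v p}, κ.wt p.1 * hh (v + κ.u p.1) +
      ∑' p : {p // ¬ κ.Bas p ∧ κ.V v p}, κ.wt p.1 * hh (v + κ.u p.1) :=
    tsum_split (fun p => κ.V v p) κ.Bas (fun p => κ.wt p * hh (v + κ.u p))
  have h6 : 0 ≤ κ.q * (1 + 8 * κ.z) * (1 - t) - 3 / 2 * κ.q * κ.z * t := by
    have h7 : t ≤ 1 / 4 := by
      have : 1 ≤ nrm v := by
        by_contra h
        have h8 : nrm v = 0 := by omega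
        unfold nrm at h8
        apply hv
        ext <;> simp <;> omega
      calc t ≤ (1 / 4 : ℝ) ^ 1 := pow_le_pow_of_le_one (by norm_num) (by norm_num) this
        _ = 1 / 4 := by norm_num
    have hz' := hκ.z_le
    have h8 : 3 / 2 * κ.q * κ.z * t ≤ κ.q * (1 / 2) := by
      have : κ.z * t ≤ 1 / 4 := by nlinarith
      nlinarith
    have h9 : κ.q * (1 / 2) ≤ κ.q * (1 + 8 * κ.z) * (1 - t) := by
      have : (1 / 2 : ℝ) ≤ (1 + 8 * κ.z) * (1 - t) := by nlinarith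
      nlinarith
    linarith
  have h1t : 0 ≤ 1 - t := hnn v
  rw [hsplit]
  refine (add_le_add_left (add_le_add hb hr) _).trans ?_
  rw [← ENNReal.ofReal_add h6 (by positivity), ← ENNReal.ofReal_add (by positivity) (by positivity)]
  apply ENNReal.ofReal_le_ofReal
  change _ ≤ 1 - t
  have h10 : κ.q * (1 + 8 * κ.z) = 1 - e := by rw [he]; ring
  rw [h10]
  have h11 : κ.z ≤ 3 / 2 * κ.q * κ.z := by nlinarith
  nlinarith [mul_le_mul_of_nonneg_right h11 ht0.le, mul_le_mul_of_nonneg_right h3 ht0.le]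

end Pool.Agent.KLog
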