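import Pool.Agent.KLog.WordSum
import Pool.Agent.KLog.GeoFar
import Pool.Agent.KLog.Caps

/-! KL22: all pairs that are not basic together are small. -/

set_option autoImplicit false

open Pool.Agent.LK
open scoped ENNReal

namespace Pool.Agent.KLog

open Pool.Agent.KTube Pool.Agent.KRing

variable {v : ℤ × ℤ} {π : PP} {y z : ℝ}

/-- A block without inner sections with two edges is low. -/
theorem hgt_le (hg : Geo v π) : 4 * ((hgt π).toNat - 1) ≤ nv π := by
  obtain ⟨l, hl⟩ := exists_flat hg.ne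
  obtain ⟨r, hr⟩ := exists_UU' (k := hgt π) hg.ne'
  have h := hg.block.height hg.ne.symm hr.2.1 hl.1.2.1 (sA := π.1) (sB := π.2) rfl rfl hg.stA hg.stB
    (fun j h1 h2 h3 => by
      unfold IsTwo at h3
      rw [hg.block.cross_mid hr.2.1 hl.1.2.1 h1 h2] at h3
      exact hg.thick j h1 h2 h3)
  rw [sub_zero] at h
  exact h

private theorem rest_brk {p : P3} {s : List P3} (hs : Steps s) (c : ℤ)
    (h : ∀ u ∈ wk p s, u.2.2 = c) : brk (lets s) = 0 := by
  induction s generalizing p with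
  | nil => rfl
  | cons d s ih =>
    obtain ⟨hd, hs⟩ := hs.cons
    have h1 := h p (by simp)
    have h2 := h (p + d) (by
      rw [wk_cons]
      exact List.mem_cons_of_mem _ (List.mem_of_mem_head? (head_wk _ _)))
    have ih := ih hs (p := p + d) (fun u hu => h u (by
      rw [wk_cons]
      exact List.mem_cons_of_mem _ hu))
    rw [lets_cons]
    rcases hlet_cases hd with ⟨i, hi, -, -⟩ | ⟨-, ⟨hd', -⟩ | ⟨hd', -⟩⟩
    · rw [hi, brk_some, ih]
    · exfalso
      rw [hd'] at h2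
      simp only [Prod.snd_add] at h2
      omega
    · exfalso
      rw [hd'] at h2
      simp only [Prod.snd_add] at h2
      omega

/-- A block with one level has no vertical step. -/
theorem nv_eq_zero (hg : Geo v π) (h : nv π < 4) : nv π = 0 := by
  have h1 := hgt_le hg
  have h2 := hg.block.lt
  have h3 : hgt π = 1 := by omega
  have hA : brk (lets π.1) = 0 := by
    refine rest_brk hg.stA 1 (p := (0, 0, 1)) fun u hu => ?_
    have := hg.block.levA u hu
    omega
  have hB : brk (lets π.2) = 0 := by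
    refine rest_brk hg.stB 1 (p := (v.1, v.2, 1)) fun u hu => ?_
    have := hg.block.levB u (List.mem_reverse.2 hu)
    omega
  unfold nv
  omega

private theorem rest_len (x : List Letter) : x.length = brk x + stp x := by
  induction x with
  | nil => rfl
  | cons c x ih =>
    cases c with
    | none => rw [List.length_cons, brk_none, stp_none, ih]; omega
    | some d => rw [List.length_cons, brk_some, stp_some, ih]; omega

private theorem rest_length (π : PP) : π.1.length + π.2.length = nv π + nh π := by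
  rw [← length_lets π.1, ← length_lets π.2, rest_len, rest_len]
  unfold nv nh
  omega

/-- The weight of a block, `a ^ 2 = z`. -/
theorem wt_le (hg : Geo v π) (hy : 0 < y) (hz : 0 < z) (hz1 : z ≤ 1) (hq : y * z ^ 2 ≤ 1) :
    wt (ENNReal.ofReal y) (ENNReal.ofReal z) π ≤
      ENNReal.ofReal (Real.sqrt z) ^ nv π * ENNReal.ofReal z ^ nh π := by
  have h1 := hgt_le hg
  have h2 := hg.block.lt
  obtain ⟨m, hm⟩ : ∃ m, (hgt π).toNat = m + 1 := ⟨(hgt π).toNat - 1, by omega⟩
  rw [hm, Nat.add_sub_cancel] at h1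
  set S := ENNReal.ofReal (Real.sqrt z) with hS
  have hSZ : ENNReal.ofReal z = S ^ 2 := by
    rw [hS, ← ENNReal.ofReal_pow (Real.sqrt_nonneg z), Real.sq_sqrt hz.le]
  have hS1 : S ≤ 1 := by
    rw [hS, ← ENNReal.ofReal_one]
    exact ENNReal.ofReal_le_ofReal (Real.sqrt_le_one.2 hz1)
  have hYZ : ENNReal.ofReal y * ENNReal.ofReal z ^ 2 ≤ 1 := by
    rw [← ENNReal.ofReal_pow hz.le, ← ENNReal.ofReal_mul hy.le, ← ENNReal.ofReal_one]
    exact ENNReal.ofReal_le_ofReal hq
  have hp : S ^ nv π ≤ (ENNReal.ofReal z ^ 2) ^ m := by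
    rw [hSZ, ← pow_mul, ← pow_mul]
    exact pow_le_pow_right_of_le_one' hS1 (by omega)
  unfold wt
  rw [hm, rest_length]
  calc ENNReal.ofReal y ^ (m + 1) * ENNReal.ofReal z ^ (nv π + nh π + 2)
      = ENNReal.ofReal y ^ (m + 1) * ENNReal.ofReal z ^ 2 * (S ^ nv π * (S ^ nv π *
          ENNReal.ofReal z ^ nh π)) := by
        have : ENNReal.ofReal z ^ nv π = S ^ nv π * S ^ nv π := by
          rw [hSZ, ← pow_mul, mul_comm 2 (nv π), pow_mul, pow_two]
        rw [pow_add (ENNReal.ofReal z) (nv π + nh π) 2, pow_add (ENNReal.ofReal z) (nv π) (nh π),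
          this]
        ring
    _ ≤ ENNReal.ofReal y ^ (m + 1) * ENNReal.ofReal z ^ 2 * ((ENNReal.ofReal z ^ 2) ^ m *
          (S ^ nv π * ENNReal.ofReal z ^ nh π)) := by
        gcongr
    _ = (ENNReal.ofReal y * ENNReal.ofReal z ^ 2) ^ (m + 1) *
          (S ^ nv π * ENNReal.ofReal z ^ nh π) := by
        rw [mul_pow, pow_succ (ENNReal.ofReal z ^ 2) m]
        ring
    _ ≤ 1 * (S ^ nv π * ENNReal.ofReal z ^ nh π) := by
        gcongr
        exact pow_le_one' hYZ _
    _ = _ := one_mul _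

private theorem rest_geom {x : ℝ≥0∞} {k : ℕ} {c : ℕ → ℝ≥0∞} {K : ℝ≥0∞} (hx : 2 * x ≤ 1 / 2)
    (hc : ∀ m, c m ≤ K * 2 ^ m) : ∑' m, c m * x ^ (m + k) ≤ 2 * K * x ^ k := by
  have h1 : ∀ m, c m * x ^ (m + k) ≤ K * x ^ k * (2 * x) ^ m := by
    intro m
    calc c m * x ^ (m + k) ≤ K * 2 ^ m * x ^ (m + k) := by
          gcongr
          exact hc m
      _ = K * x ^ k * (2 * x) ^ m := by
          rw [mul_pow, pow_add]
          ring
  refine (ENNReal.tsum_le_tsum h1).trans ?_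
  rw [ENNReal.tsum_mul_left, ENNReal.tsum_geometric]
  have h2 : (1 - 2 * x)⁻¹ ≤ 2 := by
    rw [ENNReal.inv_le_iff_inv_le]
    refine le_trans ?_ (tsub_le_tsub_left hx 1)
    rw [one_div, ENNReal.one_sub_inv_two]
  calc K * x ^ k * (1 - 2 * x)⁻¹ ≤ K * x ^ k * 2 := by gcongr
    _ = 2 * K * x ^ k := by ring

private theorem rest_num (n : ℕ) : n + 5 ≤ 5 * 2 ^ n := by
  induction n with
  | zero => norm_num
  | succ n ih => rw [pow_succ]; omega

private theorem rest_num' (n : ℕ) : n + 3 ≤ 3 * 2 ^ n := by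
  induction n with
  | zero => norm_num
  | succ n ih => rw [pow_succ]; omega

/-- **The rest.** -/
theorem rest_le (hy : 0 < y) (hz : 0 < z) (hz1 : z ≤ 1 / 10 ^ 4) (hq : y * z ^ 2 ≤ 1) :
    ∑' p : {p // ¬ Bas p ∧ (Free p ∨ ∃ v, Valid v p)},
      wt (ENNReal.ofReal y) (ENNReal.ofReal z) p.1 * 4 ^ nh p.1 ≤ ENNReal.ofReal (z / 4) := by
  set s := Real.sqrt z with hs
  have hs0 : 0 < s := Real.sqrt_pos.2 hz
  have hsz : s ^ 2 = z := Real.sq_sqrt hz.le
  have hs1 : s ≤ 1 / 100 := by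
    rw [hs]
    refine (Real.sqrt_le_left (by norm_num)).2 ?_
    norm_num at hz1 ⊢
    exact hz1
  set S := ENNReal.ofReal s with hS
  set b := 4 * ENNReal.ofReal z with hb
  set g : PP → ℝ≥0∞ := fun p => S ^ nv p * b ^ nh p with hgdef
  -- the geometric condition
  have hgeo : ∀ p : PP, (Free p ∨ ∃ v, Valid v p) → ∃ v, Geo v p := by
    rintro p (⟨v, -, hv⟩ | ⟨v, hv⟩)
    · exact ⟨v, hv.1⟩
    · exact ⟨v, hv.1⟩
  have hpt : ∀ p : {p : PP // ¬ Bas p ∧ (Free p ∨ ∃ v, Valid v p)},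
      wt (ENNReal.ofReal y) (ENNReal.ofReal z) p.1 * 4 ^ nh p.1 ≤ g p.1 := by
    rintro ⟨p, -, hp⟩
    obtain ⟨v, hv⟩ := hgeo p hp
    have h1 := wt_le hv hy hz (hz1.trans (by norm_num)) hq
    rw [hgdef]
    simp only
    calc wt (ENNReal.ofReal y) (ENNReal.ofReal z) p * 4 ^ nh p
        ≤ (S ^ nv p * ENNReal.ofReal z ^ nh p) * 4 ^ nh p := by gcongr
      _ = S ^ nv p * b ^ nh p := by
        rw [hb, mul_pow]
        ring
  refine (ENNReal.tsum_le_tsum hpt).trans ?_
  let A : ℕ → Set PP := fun m => {p | NR p.1 ∧ NR p.2 ∧ p.1.length + p.2.length = m + 4}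
  let B : ℕ → Set PP := fun m =>
    {p | Steps p.1 ∧ Steps p.2 ∧ nv p = 0 ∧ p.1.length + p.2.length = m + 2}
  have hsub : {p : PP | ¬ Bas p ∧ (Free p ∨ ∃ v, Valid v p)} ⊆ (⋃ m, A m) ∪ ⋃ m, B m := by
    rintro p ⟨h1, h2⟩
    obtain ⟨v, hv⟩ := hgeo p h2
    have hlen := rest_length p
    by_cases h3 : nv p = 0
    · right
      have h4 : 2 ≤ nh p := by
        by_contra h5
        exact h1 ⟨h3, by omega⟩
      rw [Set.mem_iUnion]
      exact ⟨nh p - 2, hv.stA, hv.stB, h3, by omega⟩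
    · left
      have h4 : 4 ≤ nv p := by
        by_contra h5
        exact h3 (nv_eq_zero hv (by omega))
      rw [Set.mem_iUnion]
      refine ⟨nv p + nh p - 4, nr_of_nodup hv.stA hv.block.nodupA,
        nr_of_nodup hv.stB (p := (v.1, v.2, 1)) ?_, by omega⟩
      exact List.nodup_reverse.1 hv.block.nodupB
  have hθ : S + 16 * b = ENNReal.ofReal (s + 64 * s ^ 2) := by
    rw [hb, ← hsz, ENNReal.ofReal_add hs0.le (by positivity), ENNReal.ofReal_mul (by norm_num)]
    have e : ENNReal.ofReal 64 = 16 * 4 := by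
      rw [show (64 : ℝ) = ((64 : ℕ) : ℝ) by norm_num, ENNReal.ofReal_natCast]
      norm_num
    rw [e, mul_assoc]
  have h4b : 4 * b = ENNReal.ofReal (16 * s ^ 2) := by
    rw [hb, ← hsz, ENNReal.ofReal_mul (by norm_num)]
    have e : ENNReal.ofReal 16 = 4 * 4 := by
      rw [show (16 : ℝ) = ((16 : ℕ) : ℝ) by norm_num, ENNReal.ofReal_natCast]
      norm_num
    rw [e, mul_assoc]
  have half : ∀ t : ℝ, 0 ≤ t → t ≤ 1 / 4 → 2 * ENNReal.ofReal t ≤ 1 / 2 := by
    intro t h0 ht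
    have e2 : (2 : ℝ≥0∞) = ENNReal.ofReal 2 := by
      rw [show (2 : ℝ) = ((2 : ℕ) : ℝ) by norm_num, ENNReal.ofReal_natCast]
      norm_num
    have e3 : (1 / 2 : ℝ≥0∞) = ENNReal.ofReal (1 / 2) := by
      rw [ENNReal.ofReal_div_of_pos (by norm_num), ← e2, ENNReal.ofReal_one]
    rw [e3, e2, ← ENNReal.ofReal_mul (by norm_num)]
    exact ENNReal.ofReal_le_ofReal (by linarith)
  have hA : ∑' m, ∑' p : A m, g p ≤ 40 * (S + 16 * b) ^ 4 := by
    calc ∑' m, ∑' p : A m, g p ≤ ∑' m : ℕ, (4 * ((m + 4 : ℕ) + 1)) * (S + 16 * b) ^ (m + 4) :=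
          ENNReal.tsum_le_tsum fun m => pair_sum S b (m + 4)
      _ ≤ 2 * 20 * (S + 16 * b) ^ 4 := by
          refine rest_geom ?_ ?_
          · rw [hθ]
            refine half _ (by positivity) ?_
            nlinarith
          · intro m
            have h := rest_num m
            have h' : ((m + 5 : ℕ) : ℝ≥0∞) ≤ ((5 * 2 ^ m : ℕ) : ℝ≥0∞) := by exact_mod_cast h
            push_cast at h' ⊢
            calc 4 * ((m : ℝ≥0∞) + 4 + 1) = 4 * (m + 5) := by
                  rw [add_assoc]; norm_num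
              _ ≤ 4 * (5 * 2 ^ m) := by gcongr
              _ = 20 * 2 ^ m := by rw [← mul_assoc]; norm_num
      _ = 40 * (S + 16 * b) ^ 4 := by norm_num
  have hB : ∑' m, ∑' p : B m, g p ≤ 6 * (4 * b) ^ 2 := by
    calc ∑' m, ∑' p : B m, g p ≤ ∑' m : ℕ, (((m + 2 : ℕ) : ℝ≥0∞) + 1) * (4 * b) ^ (m + 2) := by
          refine ENNReal.tsum_le_tsum fun m => ?_
          refine le_trans (le_of_eq (tsum_congr fun p => ?_)) (horizontal_sum b (m + 2))
          rw [hgdef]
          simp only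
          rw [p.2.2.2.1, pow_zero, one_mul]
      _ ≤ 2 * 3 * (4 * b) ^ 2 := by
          refine rest_geom ?_ ?_
          · rw [h4b]
            refine half _ (by positivity) ?_
            nlinarith
          · intro m
            have h := rest_num' m
            have h' : ((m + 3 : ℕ) : ℝ≥0∞) ≤ ((3 * 2 ^ m : ℕ) : ℝ≥0∞) := by exact_mod_cast h
            push_cast at h' ⊢
            calc (m : ℝ≥0∞) + 2 + 1 = m + 3 := by
                  rw [add_assoc]; norm_num
              _ ≤ 3 * 2 ^ m := h'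
      _ = 6 * (4 * b) ^ 2 := by norm_num
  calc ∑' p : {p : PP // ¬ Bas p ∧ (Free p ∨ ∃ v, Valid v p)}, g p.1
      ≤ ∑' p : ((⋃ m, A m) ∪ ⋃ m, B m : Set PP), g p := ENNReal.tsum_mono_subtype g hsub
    _ ≤ ∑' p : (⋃ m, A m : Set PP), g p + ∑' p : (⋃ m, B m : Set PP), g p :=
        ENNReal.tsum_union_le g _ _
    _ ≤ ∑' m, ∑' p : A m, g p + ∑' m, ∑' p : B m, g p :=
        add_le_add (ENNReal.tsum_iUnion_le_tsum g A) (ENNReal.tsum_iUnion_le_tsum g B)
    _ ≤ 40 * (S + 16 * b) ^ 4 + 6 * (4 * b) ^ 2 := add_le_add hA hB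
    _ = ENNReal.ofReal (40 * (s + 64 * s ^ 2) ^ 4 + 6 * (16 * s ^ 2) ^ 2) := by
        have e1 : ENNReal.ofReal (40 * (s + 64 * s ^ 2) ^ 4) =
            40 * ENNReal.ofReal (s + 64 * s ^ 2) ^ 4 := by
          rw [ENNReal.ofReal_mul (by norm_num), ENNReal.ofReal_pow (by positivity),
            show (40 : ℝ) = ((40 : ℕ) : ℝ) by norm_num, ENNReal.ofReal_natCast]
          norm_num
        have e2 : ENNReal.ofReal (6 * (16 * s ^ 2) ^ 2) =
            6 * ENNReal.ofReal (16 * s ^ 2) ^ 2 := by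
          rw [ENNReal.ofReal_mul (by norm_num), ENNReal.ofReal_pow (by positivity),
            show (6 : ℝ) = ((6 : ℕ) : ℝ) by norm_num, ENNReal.ofReal_natCast]
          norm_num
        rw [hθ, h4b, ← e1, ← e2]
        exact (ENNReal.ofReal_add (by positivity) (by positivity)).symm
    _ ≤ ENNReal.ofReal (z / 4) := by
        refine ENNReal.ofReal_le_ofReal ?_
        rw [← hsz]
        have h1 : s + 64 * s ^ 2 ≤ 1.64 * s := by nlinarith
        have h2 : (s + 64 * s ^ 2) ^ 4 ≤ (1.64 * s) ^ 4 :=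
          pow_le_pow_left₀ (by positivity) h1 4
        have h3 : s ^ 2 ≤ 1 / 10 ^ 4 := by rw [hsz]; exact hz1
        have h4 : 0 ≤ s ^ 2 := by positivity
        have h5 : s ^ 4 ≤ s ^ 2 * (1 / 10 ^ 4) := by
          have : s ^ 4 = s ^ 2 * s ^ 2 := by ring
          rw [this]
          exact mul_le_mul_of_nonneg_left h3 h4
        have h6 : (1.64 * s) ^ 4 = 1.64 ^ 4 * s ^ 4 := by ring
        have h7 : (16 * s ^ 2) ^ 2 = 256 * s ^ 4 := by ring
        rw [h6] at h2
        rw [h7]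
        norm_num at h2 h5 ⊢
        nlinarith

end Pool.Agent.KLog
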