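import Pool.Agent.KLog.Kernel
import Pool.Agent.KLog.Gen
import Pool.Agent.KLog.Join

/-! KL27: the two properties of the generating function at the critical point. -/

set_option autoImplicit false

open Pool.Agent.LK
open scoped ENNReal

namespace Pool.Agent.KLog

open Pool.Agent.KTube Pool.Agent.KRing
open Pool.Agent.KTen (Zt)

/-- The series `∑ 1 / (n log n)` diverges. -/
private theorem not_summable_log : ¬ Summable (fun n : ℕ => 1 / ((n : ℝ) * Real.log n)) := by
  rw [← summable_condensed_iff_of_eventually_nonneg]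
  · have e : (fun k : ℕ => (2 : ℝ) ^ k * (1 / (((2 ^ k : ℕ) : ℝ) * Real.log ((2 ^ k : ℕ) : ℝ)))) =
        fun k : ℕ => (1 / Real.log 2) * (k : ℝ)⁻¹ := by
      funext k
      have h2 : (2 : ℝ) ^ k ≠ 0 := by positivity
      have hl : Real.log 2 ≠ 0 := (Real.log_pos one_lt_two).ne'
      push_cast
      rw [Real.log_pow]
      rcases Nat.eq_zero_or_pos k with rfl | hk
      · simp
      · have hk' : (k : ℝ) ≠ 0 := by exact_mod_cast hk.ne'
        field_simp
    rw [e, summable_mul_left_iff (by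
      have hl : Real.log 2 ≠ 0 := (Real.log_pos one_lt_two).ne'
      positivity)]
    exact Real.not_summable_natCast_inv
  · filter_upwards [Filter.eventually_ge_atTop 1] with n hn
    have h1 : (1 : ℝ) ≤ n := by exact_mod_cast hn
    have h2 : 0 ≤ Real.log n := Real.log_nonneg h1
    show (0 : ℝ) ≤ 1 / ((n : ℝ) * Real.log n)
    positivity
  · filter_upwards [Filter.eventually_ge_atTop 2] with n hn
    have h1 : (2 : ℝ) ≤ n := by exact_mod_cast hn
    have h2 : 0 < Real.log n := Real.log_pos (by linarith)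
    have h3 : Real.log n ≤ Real.log ((n + 1 : ℕ) : ℝ) :=
      Real.log_le_log (by linarith) (by push_cast; linarith)
    apply one_div_le_one_div_of_le (by positivity)
    exact mul_le_mul (by push_cast; linarith) h3 h2.le (by positivity)

private theorem zt_nonneg {y : ℝ} (hy : 0 ≤ y) (n : ℕ) : 0 ≤ Zt y UClass n := by
  rw [zt_sum]
  exact Finset.sum_nonneg fun E _ => pow_nonneg hy _

/-- Finite total mass of the polygons. -/
private theorem sum_UN {y z : ℝ} (hy : 0 < y) (hz : 0 < z) (hz1 : z ≤ 1 / 10 ^ 4)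
    (hq : y * z ^ 2 ≤ 1)
    (hκ : (ker y z).Ok) (hM : Seq (ker y z) (MM (ENNReal.ofReal y) (ENNReal.ofReal z))) :
    ∑' N, UN (ENNReal.ofReal y) (ENNReal.ofReal z) N ≠ ⊤ := by
  have hcap := cap_sum hy hz hz1 hq
  have hgreen := seq_green hκ hM
  set C : ℝ≥0∞ := ∑' v, MM (ENNReal.ofReal y) (ENNReal.ofReal z) 0 v * 4 ^ nrm v with hC
  set G : ℝ≥0∞ := ∑' n, ∑' v, MM (ENNReal.ofReal y) (ENNReal.ofReal z) n v *
    ENNReal.ofReal ((1 / 4) ^ nrm v) with hG
  have h1 : ∀ v, MM (ENNReal.ofReal y) (ENNReal.ofReal z) 0 v ≤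
      C * ENNReal.ofReal ((1 / 4) ^ nrm v) := by
    intro v
    have h2 : MM (ENNReal.ofReal y) (ENNReal.ofReal z) 0 v * 4 ^ nrm v ≤ C :=
      ENNReal.le_tsum (f := fun v => MM (ENNReal.ofReal y) (ENNReal.ofReal z) 0 v * 4 ^ nrm v) v
    have h3 : (4 : ℝ≥0∞) ^ nrm v * ENNReal.ofReal ((1 / 4) ^ nrm v) = 1 := by
      have h4 : (4 : ℝ≥0∞) = ENNReal.ofReal 4 := by norm_num
      rw [h4, ← ENNReal.ofReal_pow (by norm_num), ← ENNReal.ofReal_mul (by positivity),
        ← mul_pow]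
      norm_num
    calc MM (ENNReal.ofReal y) (ENNReal.ofReal z) 0 v
        = MM (ENNReal.ofReal y) (ENNReal.ofReal z) 0 v * 4 ^ nrm v *
            ENNReal.ofReal ((1 / 4) ^ nrm v) := by rw [mul_assoc, h3, mul_one]
      _ ≤ C * ENNReal.ofReal ((1 / 4) ^ nrm v) := by gcongr
  rw [tsum_eq_zero_add' ENNReal.summable]
  refine ENNReal.add_ne_top.2 ⟨un_zero hy hz hz1 hq, ?_⟩
  have h2 : ∑' n, UN (ENNReal.ofReal y) (ENNReal.ofReal z) (n + 1) ≤
      ENNReal.ofReal y * (C * G) := by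
    rw [hG, ← ENNReal.tsum_mul_left, ← ENNReal.tsum_mul_left]
    refine ENNReal.tsum_le_tsum fun n => (cut_top n).trans ?_
    gcongr
    rw [← ENNReal.tsum_mul_left]
    refine ENNReal.tsum_le_tsum fun v => ?_
    calc MM (ENNReal.ofReal y) (ENNReal.ofReal z) n v * MM (ENNReal.ofReal y) (ENNReal.ofReal z) 0 v
        ≤ MM (ENNReal.ofReal y) (ENNReal.ofReal z) n v *
            (C * ENNReal.ofReal ((1 / 4) ^ nrm v)) := by gcongr; exact h1 v
      _ = C * (MM (ENNReal.ofReal y) (ENNReal.ofReal z) n v *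
            ENNReal.ofReal ((1 / 4) ^ nrm v)) := by ring
  exact ne_top_of_le_ne_top
    (ENNReal.mul_ne_top ENNReal.ofReal_ne_top (ENNReal.mul_ne_top hcap hgreen)) h2

/-- **The generating function of the unknotted polygons at a given critical point.** -/
theorem sums_at {y z : ℝ} (hy0 : 0 < y) (hz : 0 < z) (hz1 : z ≤ 1 / 10 ^ 4) (hq : y * z ^ 2 ≤ 1)
    (hone : ∑' π : {π // Free π}, wt (ENNReal.ofReal y) (ENNReal.ofReal z) π.1 = 1) :
    Summable (fun n : ℕ => Zt y UClass n * z ^ n) ∧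
    ¬ Summable (fun n : ℕ => Real.log n ^ 2 * (Zt y UClass n * z ^ n)) := by
  have hκ := ker_ok hy0 hz hz1 hq hone
  have hM := seq_MM hy0 hz hz1 hq
  have hnn : ∀ n, 0 ≤ Zt y UClass n * z ^ n := fun n =>
    mul_nonneg (zt_nonneg hy0.le n) (pow_nonneg hz.le n)
  refine ⟨?_, ?_⟩
  · have h1 := gen_eq hy0.le hz.le (fun _ => 1)
    have h2 : ∑' n : ℕ, ENNReal.ofReal (Zt y UClass n * z ^ n) ≠ ⊤ := by
      have h3 : ∑' n : ℕ, ENNReal.ofReal (Zt y UClass n * z ^ n) =
          ∑' N, UN (ENNReal.ofReal y) (ENNReal.ofReal z) N := by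
        simpa only [one_mul, UN] using h1
      rw [h3]
      exact sum_UN hy0 hz hz1 hq hκ hM
    have h4 := ENNReal.summable_toReal h2
    simpa only [ENNReal.toReal_ofReal (hnn _)] using h4
  · intro hs
    obtain ⟨c, hc, n1, hn1⟩ := seq_sq hκ hM
    have h1 := gen_eq hy0.le hz.le (fun n : ℕ => ENNReal.ofReal (Real.log n ^ 2))
    -- the left-hand side is finite
    have h2 : ∑' n : ℕ, ENNReal.ofReal (Real.log n ^ 2) *
        ENNReal.ofReal (Zt y UClass n * z ^ n) ≠ ⊤ := by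
      have h3 := hs.tsum_ofReal_ne_top
      simpa only [ENNReal.ofReal_mul (sq_nonneg _)] using h3
    rw [h1] at h2
    -- lower bound by the numbers of sections
    have h4 : ∀ N : ℕ, ENNReal.ofReal (Real.log N ^ 2) *
        UN (ENNReal.ofReal y) (ENNReal.ofReal z) N ≤
        ∑' E : PN N, ENNReal.ofReal (Real.log E.1.card ^ 2) * (ENNReal.ofReal y ^ span E.1 *
          ENNReal.ofReal z ^ E.1.card) := by
      intro N
      rw [UN, ← ENNReal.tsum_mul_left]
      refine ENNReal.tsum_le_tsum fun E => ?_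
      refine mul_le_mul' (ENNReal.ofReal_le_ofReal ?_) le_rfl
      rcases Nat.eq_zero_or_pos N with rfl | hN
      · simpa using sq_nonneg (Real.log (E.1.card : ℝ))
      · have hc1 : (1 : ℝ) ≤ N := by exact_mod_cast hN
        have hc2 : N ≤ E.1.card := le_trans (by omega) (card_ge E.2)
        have hc3 : (N : ℝ) ≤ (E.1.card : ℝ) := by exact_mod_cast hc2
        exact pow_le_pow_left₀ (Real.log_nonneg hc1) (Real.log_le_log (by linarith) hc3) 2
    have h5 : ∑' N : ℕ, ENNReal.ofReal (Real.log N ^ 2) *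
        UN (ENNReal.ofReal y) (ENNReal.ofReal z) N ≠ ⊤ :=
      ne_top_of_le_ne_top h2 (ENNReal.tsum_le_tsum h4)
    -- only the odd numbers of sections
    have hinj : Function.Injective (fun n : ℕ => 2 * n + 1) := by
      intro a b hab
      have hab' : 2 * a + 1 = 2 * b + 1 := hab
      omega
    have h6 : ∑' n : ℕ, ENNReal.ofReal (Real.log ((2 * n + 1 : ℕ) : ℝ) ^ 2) *
        UN (ENNReal.ofReal y) (ENNReal.ofReal z) (2 * n + 1) ≠ ⊤ :=
      ne_top_of_le_ne_top h5 (ENNReal.tsum_comp_le_tsum_of_injective hinj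
        (fun N : ℕ => ENNReal.ofReal (Real.log N ^ 2) *
          UN (ENNReal.ofReal y) (ENNReal.ofReal z) N))
    have hinj2 : Function.Injective (fun n : ℕ => n + (n1 + 2)) := fun a b hab =>
      Nat.add_right_cancel hab
    have h7 : ∑' n : ℕ, ENNReal.ofReal (Real.log ((2 * (n + (n1 + 2)) + 1 : ℕ) : ℝ) ^ 2) *
        UN (ENNReal.ofReal y) (ENNReal.ofReal z) (2 * (n + (n1 + 2)) + 1) ≠ ⊤ :=
      ne_top_of_le_ne_top h6 (ENNReal.tsum_comp_le_tsum_of_injective hinj2
        (fun n : ℕ => ENNReal.ofReal (Real.log ((2 * n + 1 : ℕ) : ℝ) ^ 2) *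
          UN (ENNReal.ofReal y) (ENNReal.ofReal z) (2 * n + 1)))
    have h8 : ∀ n : ℕ, ENNReal.ofReal (y * c * (1 / (((n + (n1 + 2) : ℕ) : ℝ) *
        Real.log ((n + (n1 + 2) : ℕ) : ℝ)))) ≤
        2 * (ENNReal.ofReal (Real.log ((2 * (n + (n1 + 2)) + 1 : ℕ) : ℝ) ^ 2) *
          UN (ENNReal.ofReal y) (ENNReal.ofReal z) (2 * (n + (n1 + 2)) + 1)) := by
      intro n
      generalize hm : n + (n1 + 2) = m
      have hm1 : n1 ≤ m := by omega
      have hm2 : (2 : ℝ) ≤ m := by
        have : 2 ≤ m := by omega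
        exact_mod_cast this
      have hl : 0 < Real.log m := Real.log_pos (by linarith)
      have hl2 : Real.log m ≤ Real.log ((2 * m + 1 : ℕ) : ℝ) :=
        Real.log_le_log (by linarith) (by push_cast; linarith)
      have e : y * c * (1 / ((m : ℝ) * Real.log m)) =
          Real.log m ^ 2 * (y * (c / (m * Real.log m ^ 3))) := by
        have hm0 : (m : ℝ) ≠ 0 := by linarith
        field_simp
      rw [e, ENNReal.ofReal_mul (by positivity), ENNReal.ofReal_mul hy0.le]
      calc ENNReal.ofReal (Real.log m ^ 2) *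
            (ENNReal.ofReal y * ENNReal.ofReal (c / (m * Real.log m ^ 3)))
          ≤ ENNReal.ofReal (Real.log ((2 * m + 1 : ℕ) : ℝ) ^ 2) * (ENNReal.ofReal y *
              ∑' v : ℤ × ℤ, MM (ENNReal.ofReal y) (ENNReal.ofReal z) m v *
                MM (ENNReal.ofReal y) (ENNReal.ofReal z) m v) := by
            refine mul_le_mul' (ENNReal.ofReal_le_ofReal ?_) (mul_le_mul' le_rfl (hn1 m hm1))
            exact pow_le_pow_left₀ hl.le hl2 2
        _ ≤ ENNReal.ofReal (Real.log ((2 * m + 1 : ℕ) : ℝ) ^ 2) *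
              (2 * UN (ENNReal.ofReal y) (ENNReal.ofReal z) (2 * m + 1)) :=
            mul_le_mul' le_rfl (join_half m)
        _ = 2 * (ENNReal.ofReal (Real.log ((2 * m + 1 : ℕ) : ℝ) ^ 2) *
              UN (ENNReal.ofReal y) (ENNReal.ofReal z) (2 * m + 1)) := by ring
    have h9 : ∑' n : ℕ, ENNReal.ofReal (y * c * (1 / (((n + (n1 + 2) : ℕ) : ℝ) *
        Real.log ((n + (n1 + 2) : ℕ) : ℝ)))) ≠ ⊤ := by
      refine ne_top_of_le_ne_top ?_ (ENNReal.tsum_le_tsum h8)
      rw [ENNReal.tsum_mul_left]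
      exact ENNReal.mul_ne_top (by norm_num) h7
    have h10 := ENNReal.summable_toReal h9
    have hpos : ∀ n : ℕ, 0 ≤ y * c * (1 / (((n + (n1 + 2) : ℕ) : ℝ) *
        Real.log ((n + (n1 + 2) : ℕ) : ℝ))) := by
      intro n
      have hm2 : (1 : ℝ) ≤ ((n + (n1 + 2) : ℕ) : ℝ) := by
        have : 1 ≤ n + (n1 + 2) := by omega
        exact_mod_cast this
      have hl : 0 ≤ Real.log ((n + (n1 + 2) : ℕ) : ℝ) := Real.log_nonneg hm2
      positivity
    simp only [ENNReal.toReal_ofReal (hpos _)] at h10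
    rw [summable_mul_left_iff (by positivity)] at h10
    exact not_summable_log ((summable_nat_add_iff (n1 + 2)).1 h10)

/-- **The generating function of the unknotted polygons at the critical point.** -/
theorem main_sums {y : ℝ} (hy : 10 ^ 8 ≤ y) : ∃ z : ℝ, 0 < z ∧
    Summable (fun n : ℕ => Zt y UClass n * z ^ n) ∧
    ¬ Summable (fun n : ℕ => Real.log n ^ 2 * (Zt y UClass n * z ^ n)) := by
  obtain ⟨z, hz, hz1, hq, hone⟩ := exists_crit hy
  have hy0 : 0 < y := lt_of_lt_of_le (by norm_num) hy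
  exact ⟨z, hz, sums_at hy0 hz hz1 hq hone⟩

end Pool.Agent.KLog
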