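import Pool.Agent.KLog.Defs

/-! KL21: sums over words. -/

set_option autoImplicit false

open Pool.Agent.LK
open scoped ENNReal

namespace Pool.Agent.KLog

open Pool.Agent.KTube Pool.Agent.KRing

/-- Words of unit steps without immediate reversals. -/
def NR (s : List P3) : Prop := Steps s ∧ s.IsChain fun d d' => d' ≠ -d

/-- The word of a self-avoiding walk. -/
theorem nr_of_nodup {p : P3} {s : List P3} (hs : Steps s) (h : (wk p s).Nodup) : NR s := by
  refine ⟨hs, ?_⟩
  clear hs
  induction s generalizing p with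
  | nil => exact List.isChain_nil
  | cons d s ih =>
    cases s with
    | nil => exact List.isChain_singleton _
    | cons e s =>
      rw [List.isChain_cons_cons]
      refine ⟨?_, ih (p := p + d) ?_⟩
      · rintro rfl
        rw [wk_cons, wk_cons, List.nodup_cons] at h
        apply h.1
        rw [add_neg_cancel_right]
        have h1 := head_wk p s
        exact List.mem_cons_of_mem _ (List.mem_of_mem_head? h1)
      · rw [wk_cons, List.nodup_cons] at h
        exact h.2

/-- The weight of a step. -/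
private noncomputable def lw (a b : ℝ≥0∞) (d : P3) : ℝ≥0∞ := if hlet d = none then a else b

/-- The weight of a word. -/
private noncomputable def ww (a b : ℝ≥0∞) (s : List P3) : ℝ≥0∞ :=
  a ^ brk (lets s) * b ^ stp (lets s)

private theorem ww_nil (a b : ℝ≥0∞) : ww a b [] = 1 := by simp [ww]

private theorem ww_cons (a b : ℝ≥0∞) (d : P3) (s : List P3) :
    ww a b (d :: s) = lw a b d * ww a b s := by
  unfold ww lw
  rw [lets_cons]
  cases h : hlet d with
  | none => rw [brk_none, stp_none, if_pos rfl, pow_succ]; ring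
  | some i => rw [brk_some, stp_some, if_neg (by simp), pow_succ]; ring

/-- The unit steps. -/
private def dirs : Finset P3 :=
  {(1, 0, 0), (-1, 0, 0), (0, 1, 0), (0, -1, 0), (0, 0, 1), (0, 0, -1)}

private theorem mem_dirs {d : P3} (h : IsStep d) : d ∈ dirs := by
  rcases step_cases h with rfl | rfl | rfl | rfl | rfl | rfl <;> simp [dirs]

/-- The words of length `n` after the step `d`. -/
private def Wd (n : ℕ) (d : P3) : Set (List P3) :=
  {s | Steps s ∧ (d :: s).IsChain (fun d d' => d' ≠ -d) ∧ s.length = n}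

private theorem cons_sum (a b : ℝ≥0∞) (A : Set (List P3)) (B : P3 → Set (List P3)) (D : Finset P3)
    (h : ∀ s ∈ A, ∃ d ∈ D, ∃ t ∈ B d, s = d :: t) :
    ∑' s : A, ww a b s.1 ≤ ∑ d ∈ D, lw a b d * ∑' t : B d, ww a b t.1 := by
  have h1 : A ⊆ ⋃ d ∈ D, (List.cons d) '' B d := by
    intro s hs
    obtain ⟨d, hd, t, ht, rfl⟩ := h s hs
    simp only [Set.mem_iUnion]
    exact ⟨d, hd, t, ht, rfl⟩
  refine (ENNReal.tsum_mono_subtype (ww a b) h1).trans ?_
  refine (ENNReal.tsum_biUnion_le (ww a b) D (fun d => (List.cons d) '' B d)).trans ?_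
  refine Finset.sum_le_sum fun d _ => ?_
  rw [tsum_image (ww a b) (fun x _ y _ hxy => (List.cons.inj hxy).2), ← ENNReal.tsum_mul_left]
  exact le_of_eq (tsum_congr fun t => ww_cons a b d t.1)

private theorem lw_cases (a b : ℝ≥0∞) : lw a b (1, 0, 0) = b ∧ lw a b (-1, 0, 0) = b ∧
    lw a b (0, 1, 0) = b ∧ lw a b (0, -1, 0) = b ∧ lw a b (0, 0, 1) = a ∧
    lw a b (0, 0, -1) = a := by
  refine ⟨?_, ?_, ?_, ?_, ?_, ?_⟩
  · exact if_neg (by decide)
  · exact if_neg (by decide)
  · exact if_neg (by decide)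
  · exact if_neg (by decide)
  · exact if_pos (by decide)
  · exact if_pos (by decide)

private theorem Wd_zero (a b : ℝ≥0∞) (d : P3) : ∑' s : Wd 0 d, ww a b s.1 ≤ 1 := by
  have h : Wd 0 d ⊆ {[]} := by
    intro s hs
    exact List.length_eq_zero_iff.1 hs.2.2
  refine (ENNReal.tsum_mono_subtype (ww a b) h).trans ?_
  rw [tsum_singleton ([] : List P3) (ww a b), ww_nil]

private theorem Wd_succ (a b : ℝ≥0∞) (n : ℕ) (d : P3) : ∑' s : Wd (n + 1) d, ww a b s.1 ≤
    ∑ e ∈ dirs.filter (fun e => e ≠ -d), lw a b e * ∑' t : Wd n e, ww a b t.1 := by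
  apply cons_sum
  rintro s ⟨h1, h2, h3⟩
  cases s with
  | nil => simp at h3
  | cons e t =>
    rw [List.isChain_cons_cons] at h2
    refine ⟨e, Finset.mem_filter.2 ⟨mem_dirs h1.cons.1, h2.1⟩, t, ⟨h1.cons.2, h2.2, ?_⟩, rfl⟩
    simpa using h3

private theorem all_sum (a b : ℝ≥0∞) (n : ℕ)
    (hV : ∀ d : P3, (d = (0, 0, 1) ∨ d = (0, 0, -1)) →
      ∑' s : Wd n d, ww a b s.1 ≤ (a + 16 * b) ^ n)
    (hH : ∀ d : P3, (d = (1, 0, 0) ∨ d = (-1, 0, 0) ∨ d = (0, 1, 0) ∨ d = (0, -1, 0)) →
      ∑' s : Wd n d, ww a b s.1 ≤ 4 * (a + 16 * b) ^ n) :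
    ∑ e ∈ dirs, lw a b e * ∑' t : Wd n e, ww a b t.1 ≤ 2 * (a + 16 * b) ^ (n + 1) := by
  obtain ⟨w1, w2, w3, w4, w5, w6⟩ := lw_cases a b
  have v1 := hV (0, 0, 1) (by simp)
  have v2 := hV (0, 0, -1) (by simp)
  have h1 := hH (1, 0, 0) (by simp)
  have h2 := hH (-1, 0, 0) (by simp)
  have h3 := hH (0, 1, 0) (by simp)
  have h4 := hH (0, -1, 0) (by simp)
  set θ := a + 16 * b with hθ
  have h : ∑ e ∈ dirs, lw a b e * ∑' t : Wd n e, ww a b t.1 ≤
      b * (4 * θ ^ n) + (b * (4 * θ ^ n) + (b * (4 * θ ^ n) + (b * (4 * θ ^ n) +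
            (a * θ ^ n + a * θ ^ n)))) := by
    simp only [dirs]
    rw [Finset.sum_insert (by decide), Finset.sum_insert (by decide),
      Finset.sum_insert (by decide), Finset.sum_insert (by decide),
      Finset.sum_insert (by decide), Finset.sum_singleton, w1, w2, w3, w4, w5, w6]
    gcongr
  refine h.trans ?_
  have e1 : 2 * θ ^ (n + 1) = (2 * a + 16 * b) * θ ^ n + 16 * b * θ ^ n := by
    rw [pow_succ]
    nth_rw 2 [hθ]
    ring
  rw [e1]
  refine le_trans (le_of_eq ?_) le_self_add
  ring

private theorem Wd_le (a b : ℝ≥0∞) (n : ℕ) :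
    (∀ d : P3, (d = (0, 0, 1) ∨ d = (0, 0, -1)) →
      ∑' s : Wd n d, ww a b s.1 ≤ (a + 16 * b) ^ n) ∧
    (∀ d : P3, (d = (1, 0, 0) ∨ d = (-1, 0, 0) ∨ d = (0, 1, 0) ∨ d = (0, -1, 0)) →
      ∑' s : Wd n d, ww a b s.1 ≤ 4 * (a + 16 * b) ^ n) := by
  induction n with
  | zero =>
    constructor
    · intro d _
      rw [pow_zero]
      exact Wd_zero a b d
    · intro d _
      rw [pow_zero, mul_one]
      exact (Wd_zero a b d).trans (by norm_num)
  | succ n ih =>
    obtain ⟨hV, hH⟩ := ih
    constructor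
    · intro d hd
      refine (Wd_succ a b n d).trans ?_
      obtain ⟨w1, w2, w3, w4, w5, w6⟩ := lw_cases a b
      have v1 := hV (0, 0, 1) (by simp)
      have v2 := hV (0, 0, -1) (by simp)
      have h1 := hH (1, 0, 0) (by simp)
      have h2 := hH (-1, 0, 0) (by simp)
      have h3 := hH (0, 1, 0) (by simp)
      have h4 := hH (0, -1, 0) (by simp)
      set θ := a + 16 * b with hθ
      have key : ∀ x : P3, (x = (0, 0, 1) ∨ x = (0, 0, -1)) →
          ∑ e ∈ dirs.filter (fun e => e ≠ -x), lw a b e * ∑' t : Wd n e, ww a b t.1 ≤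
          b * (4 * θ ^ n) + (b * (4 * θ ^ n) + (b * (4 * θ ^ n) + (b * (4 * θ ^ n) +
            a * θ ^ n))) := by
        intro x hx
        rw [Finset.sum_filter]
        rcases hx with rfl | rfl
        · simp only [dirs]
          rw [Finset.sum_insert (by decide), Finset.sum_insert (by decide),
            Finset.sum_insert (by decide), Finset.sum_insert (by decide),
            Finset.sum_insert (by decide), Finset.sum_singleton, if_pos (by decide),
            if_pos (by decide), if_pos (by decide), if_pos (by decide), if_pos (by decide),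
            if_neg (by decide), add_zero, w1, w2, w3, w4, w5]
          gcongr
        · simp only [dirs]
          rw [Finset.sum_insert (by decide), Finset.sum_insert (by decide),
            Finset.sum_insert (by decide), Finset.sum_insert (by decide),
            Finset.sum_insert (by decide), Finset.sum_singleton, if_pos (by decide),
            if_pos (by decide), if_pos (by decide), if_pos (by decide), if_neg (by decide),
            if_pos (by decide), zero_add, w1, w2, w3, w4, w6]
          gcongr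
      refine (key d hd).trans (le_of_eq ?_)
      rw [pow_succ]
      ring_nf
      rw [hθ]
      ring
    · intro d hd
      refine (Wd_succ a b n d).trans ?_
      refine (Finset.sum_le_sum_of_subset (Finset.filter_subset _ _)).trans ?_
      refine (all_sum a b n hV hH).trans ?_
      gcongr
      norm_num

private theorem ws (a b : ℝ≥0∞) (n : ℕ) :
    ∑' s : {s : List P3 // NR s ∧ s.length = n}, ww a b s.1 ≤ 2 * (a + 16 * b) ^ n := by
  cases n with
  | zero =>
    have h : {s : List P3 | NR s ∧ s.length = 0} ⊆ {[]} := by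
      intro s hs
      exact List.length_eq_zero_iff.1 hs.2
    refine (ENNReal.tsum_mono_subtype (ww a b) h).trans ?_
    rw [tsum_singleton ([] : List P3) (ww a b), ww_nil, pow_zero, mul_one]
    norm_num
  | succ n =>
    obtain ⟨hV, hH⟩ := Wd_le a b n
    refine le_trans ?_ (all_sum a b n hV hH)
    refine cons_sum a b {s : List P3 | NR s ∧ s.length = n + 1} (Wd n) dirs ?_
    rintro s ⟨⟨h1, h2⟩, h3⟩
    cases s with
    | nil => simp at h3
    | cons e t =>
      refine ⟨e, mem_dirs h1.cons.1, t, ⟨h1.cons.2, h2, ?_⟩, rfl⟩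
      simpa using h3

/-- The sum over all words of length `n`, with the weight `a` for vertical steps and `b` for
horizontal steps. -/
theorem word_sum (a b : ℝ≥0∞) (n : ℕ) :
    ∑' s : {s : List P3 // NR s ∧ s.length = n}, a ^ brk (lets s.1) * b ^ stp (lets s.1) ≤
      2 * (a + 16 * b) ^ n :=
  ws a b n

/-- Sums over pairs. -/
private theorem pairs (w : List P3 → ℝ≥0∞) (Q : List P3 → Prop) (c : ℕ → ℝ≥0∞) (n : ℕ)
    (h : ∀ i, ∑' s : {s : List P3 // Q s ∧ s.length = i}, w s.1 ≤ c i) :
    ∑' p : {p : PP // Q p.1 ∧ Q p.2 ∧ p.1.length + p.2.length = n}, w p.1.1 * w p.1.2 ≤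
      ∑ i ∈ Finset.range (n + 1), c i * c (n - i) := by
  classical
  have h' : ∀ i, ∑' s : List P3, {s : List P3 | Q s ∧ s.length = i}.indicator w s ≤ c i := by
    intro i
    rw [← tsum_subtype]
    exact h i
  have h1 : ∑' p : {p : PP // Q p.1 ∧ Q p.2 ∧ p.1.length + p.2.length = n}, w p.1.1 * w p.1.2 =
      ∑' p : PP, {p : PP | Q p.1 ∧ Q p.2 ∧ p.1.length + p.2.length = n}.indicator
        (fun p => w p.1 * w p.2) p :=
    tsum_subtype {p : PP | Q p.1 ∧ Q p.2 ∧ p.1.length + p.2.length = n}
      (fun p => w p.1 * w p.2)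
  rw [h1]
  calc ∑' p : PP, {p : PP | Q p.1 ∧ Q p.2 ∧ p.1.length + p.2.length = n}.indicator
        (fun p => w p.1 * w p.2) p
      ≤ ∑' p : PP, ∑ i ∈ Finset.range (n + 1),
          {s : List P3 | Q s ∧ s.length = i}.indicator w p.1 *
            {s : List P3 | Q s ∧ s.length = n - i}.indicator w p.2 := by
        refine ENNReal.tsum_le_tsum fun p => ?_
        by_cases hp : p ∈ {p : PP | Q p.1 ∧ Q p.2 ∧ p.1.length + p.2.length = n}
        · rw [Set.indicator_of_mem hp]
          obtain ⟨h2, h3, h4⟩ := hp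
          refine le_trans ?_ (Finset.single_le_sum (f := fun i =>
            {s : List P3 | Q s ∧ s.length = i}.indicator w p.1 *
            {s : List P3 | Q s ∧ s.length = n - i}.indicator w p.2) (fun i _ => zero_le)
            (Finset.mem_range.2 (show p.1.length < n + 1 by omega)))
          refine le_of_eq ?_
          rw [Set.indicator_of_mem (show p.1 ∈ {s : List P3 | Q s ∧ s.length = p.1.length} from
            ⟨h2, rfl⟩), Set.indicator_of_mem (show p.2 ∈ {s : List P3 | Q s ∧
            s.length = n - p.1.length} from ⟨h3, by omega⟩)]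
        · rw [Set.indicator_of_notMem hp]
          exact zero_le
    _ = ∑ i ∈ Finset.range (n + 1), ∑' p : PP,
          {s : List P3 | Q s ∧ s.length = i}.indicator w p.1 *
            {s : List P3 | Q s ∧ s.length = n - i}.indicator w p.2 :=
        Summable.tsum_finsetSum fun i _ => ENNReal.summable
    _ ≤ ∑ i ∈ Finset.range (n + 1), c i * c (n - i) := by
        refine Finset.sum_le_sum fun i _ => ?_
        rw [ENNReal.tsum_prod']
        simp only [ENNReal.tsum_mul_left, ENNReal.tsum_mul_right]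
        exact mul_le_mul' (h' i) (h' (n - i))

/-- The sum over all pairs of words of total length `n`. -/
theorem pair_sum (a b : ℝ≥0∞) (n : ℕ) :
    ∑' p : {p : PP // NR p.1 ∧ NR p.2 ∧ p.1.length + p.2.length = n}, a ^ nv p.1 * b ^ nh p.1 ≤
      4 * (n + 1) * (a + 16 * b) ^ n := by
  have h := pairs (ww a b) NR (fun i => 2 * (a + 16 * b) ^ i) n (ws a b)
  have h1 : ∑' p : {p : PP // NR p.1 ∧ NR p.2 ∧ p.1.length + p.2.length = n},
      a ^ nv p.1 * b ^ nh p.1 =
      ∑' p : {p : PP // NR p.1 ∧ NR p.2 ∧ p.1.length + p.2.length = n},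
        ww a b p.1.1 * ww a b p.1.2 := by
    refine tsum_congr fun p => ?_
    simp only [nv, nh, ww, pow_add]
    ring
  rw [h1]
  refine h.trans (le_of_eq ?_)
  rw [Finset.sum_congr rfl (g := fun _ => 4 * (a + 16 * b) ^ n) ?_, Finset.sum_const,
    Finset.card_range, nsmul_eq_mul]
  · push_cast
    ring
  · intro i hi
    have hi' : i ≤ n := by
      have := Finset.mem_range.1 hi
      omega
    calc 2 * (a + 16 * b) ^ i * (2 * (a + 16 * b) ^ (n - i)) =
        4 * ((a + 16 * b) ^ i * (a + 16 * b) ^ (n - i)) := by ring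
      _ = 4 * (a + 16 * b) ^ n := by rw [← pow_add, Nat.add_sub_cancel' hi']

private theorem hs (b : ℝ≥0∞) (n : ℕ) :
    ∑' s : {s : List P3 // (Steps s ∧ brk (lets s) = 0) ∧ s.length = n}, b ^ stp (lets s.1) ≤
      (4 * b) ^ n := by
  have e : ∀ s : List P3, ww 1 b s = b ^ stp (lets s) := fun s => by simp [ww]
  have key : ∑' s : {s : List P3 // (Steps s ∧ brk (lets s) = 0) ∧ s.length = n}, ww 1 b s.1 ≤
      (4 * b) ^ n := by
    induction n with
    | zero =>
      have h : {s : List P3 | (Steps s ∧ brk (lets s) = 0) ∧ s.length = 0} ⊆ {[]} := by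
        intro s hs
        exact List.length_eq_zero_iff.1 hs.2
      refine (ENNReal.tsum_mono_subtype (ww 1 b) h).trans ?_
      rw [tsum_singleton ([] : List P3) (ww 1 b), ww_nil, pow_zero]
    | succ n ih =>
      refine (cons_sum 1 b {s : List P3 | (Steps s ∧ brk (lets s) = 0) ∧ s.length = n + 1}
        (fun _ => {s : List P3 | (Steps s ∧ brk (lets s) = 0) ∧ s.length = n})
        {(1, 0, 0), (-1, 0, 0), (0, 1, 0), (0, -1, 0)} ?_).trans ?_
      · rintro s ⟨⟨h1, h2⟩, h3⟩
        cases s with
        | nil => simp at h3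
        | cons e t =>
          rw [lets_cons] at h2
          rcases hlet_cases h1.cons.1 with ⟨i, hi, he, -⟩ | ⟨hi, -⟩
          · rw [hi, brk_some] at h2
            refine ⟨e, ?_, t, ⟨⟨h1.cons.2, h2⟩, ?_⟩, rfl⟩
            · rw [he]
              fin_cases i <;> simp [dv]
            · simpa using h3
          · rw [hi, brk_none] at h2
            omega
      · obtain ⟨w1, w2, w3, w4, -⟩ := lw_cases 1 b
        rw [Finset.sum_insert (by decide), Finset.sum_insert (by decide),
          Finset.sum_insert (by decide), Finset.sum_singleton, w1, w2, w3, w4, pow_succ]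
        calc _ ≤ b * (4 * b) ^ n + (b * (4 * b) ^ n + (b * (4 * b) ^ n + b * (4 * b) ^ n)) := by
              gcongr <;> exact ih
          _ = (4 * b) ^ n * (4 * b) := by ring
  simpa only [e] using key

/-- The number of pairs of horizontal words of total length `n`. -/
theorem horizontal_sum (b : ℝ≥0∞) (n : ℕ) :
    ∑' p : {p : PP // Steps p.1 ∧ Steps p.2 ∧ nv p = 0 ∧ p.1.length + p.2.length = n},
      b ^ nh p.1 ≤ (n + 1) * (4 * b) ^ n := by
  have h := pairs (fun s => b ^ stp (lets s)) (fun s => Steps s ∧ brk (lets s) = 0)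
    (fun i => (4 * b) ^ i) n (hs b)
  have h0 : {p : PP | Steps p.1 ∧ Steps p.2 ∧ nv p = 0 ∧ p.1.length + p.2.length = n} ⊆
      {p : PP | (Steps p.1 ∧ brk (lets p.1) = 0) ∧ (Steps p.2 ∧ brk (lets p.2) = 0) ∧
        p.1.length + p.2.length = n} := by
    rintro p ⟨h1, h2, h3, h4⟩
    unfold nv at h3
    exact ⟨⟨h1, by omega⟩, ⟨h2, by omega⟩, h4⟩
  refine (ENNReal.tsum_mono_subtype (fun p : PP => b ^ nh p) h0).trans ?_
  refine le_trans (le_of_eq (tsum_congr fun p => ?_)) (h.trans (le_of_eq ?_))
  · simp only [nh, pow_add]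
  · rw [Finset.sum_congr rfl (g := fun _ => (4 * b) ^ n) ?_, Finset.sum_const,
      Finset.card_range, nsmul_eq_mul]
    · push_cast
      ring
    · intro i hi
      have hi' : i ≤ n := by
        have := Finset.mem_range.1 hi
        omega
      rw [← pow_add, Nat.add_sub_cancel' hi']

end Pool.Agent.KLog
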